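import Pool.Agent.R925.ZC.Cyc
import Pool.Agent.R925.FD.Cheb2

/-! Primes modulo which there are no cycles of odd degree with given values over the zeros of `h`. -/

set_option autoImplicit false
set_option linter.unusedSectionVars false

namespace Pool.Agent.R925.ZC

open Finset Polynomial NumberField Pool.Agent.R925.FD
open Pool.Agent.W401.Cheb Pool.Agent.W723.SecC

/-- `fixed`, with the Frobenius property -/
lemma fixed' (L : Type) [Field L] [NumberField L] [IsGalois ℚ L] (τ : Gal(L/ℚ))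
    (T : Finset (𝓞 L)) (m0 : ℕ) (hm0 : 0 < m0) :
    ∃ m : ℕ, 0 < m ∧ ∀ p ∈ frobSet L τ m, ∃ _ : Fact p.Prime, ¬ p ∣ m0 ∧
      ∃ φ : 𝓞 L →+* AlgebraicClosure (ZMod p), (∀ x, φ (τ • x) = φ x ^ p) ∧
        (∀ x ∈ T, φ x ^ p = φ x → τ • x = x) ∧ ∀ x ∈ T, ∀ y ∈ T, φ x = φ y → x = y := by
  classical
  choose mx hmx hmx' using fun x : {x : 𝓞 L // τ • x - x ≠ 0} => nz L _ x.2
  choose my hmy hmy' using fun x : {x : 𝓞 L × 𝓞 L // x.1 - x.2 ≠ 0} => nz L _ x.2
  let f : 𝓞 L → ℕ := fun x => if h : τ • x - x ≠ 0 then mx ⟨x, h⟩ else 1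
  let f' : 𝓞 L × 𝓞 L → ℕ := fun x => if h : x.1 - x.2 ≠ 0 then my ⟨x, h⟩ else 1
  have hf : ∀ x, 0 < f x := by
    intro x
    simp only [f]
    split_ifs with h
    · exact hmx _
    · exact Nat.one_pos
  have hf' : ∀ x, 0 < f' x := by
    intro x
    simp only [f']
    split_ifs with h
    · exact hmy _
    · exact Nat.one_pos
  refine ⟨m0 * (∏ x ∈ T, f x) * ∏ x ∈ T ×ˢ T, f' x,
    Nat.mul_pos (Nat.mul_pos hm0 (Finset.prod_pos fun x _ => hf x))
      (Finset.prod_pos fun x _ => hf' x), ?_⟩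
  intro p hp
  obtain ⟨hpp, hpm, hxp⟩ := hp
  have hF : Fact p.Prime := ⟨hpp⟩
  have hex : ∃ φ : 𝓞 L →+* AlgebraicClosure (ZMod p), HasFrob p φ τ := by
    unfold xp at hxp
    rw [dif_pos hpp] at hxp
    by_contra h
    push Not at h
    apply hxp
    rw [Nat.card_eq_zero]
    left
    exact ⟨fun x => h x.1 x.2⟩
  obtain ⟨φ, hφ⟩ := hex
  refine ⟨hF, fun h => hpm ((h.trans (Dvd.intro _ rfl)).trans (Dvd.intro _ rfl)), φ, hφ,
    fun x hx hφx => ?_, fun x hx y hy hxy => ?_⟩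
  · by_contra hne
    have h1 : τ • x - x ≠ 0 := fun h => hne (sub_eq_zero.1 h)
    have h2 : ((f x : ℕ) : AlgebraicClosure (ZMod p)) ≠ 0 := by
      intro h
      rw [CharP.cast_eq_zero_iff (AlgebraicClosure (ZMod p)) p] at h
      exact hpm ((h.trans ((Finset.dvd_prod_of_mem f hx).trans (Dvd.intro_left _ rfl))).trans
        (Dvd.intro _ rfl))
    have h3 : f x = mx ⟨x, h1⟩ := dif_pos h1
    rw [h3] at h2
    have h4 := hmx' ⟨x, h1⟩ _ φ h2
    apply h4
    rw [map_sub, hφ x, hφx, sub_self]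
  · by_contra hne
    have h1 : (x, y).1 - (x, y).2 ≠ 0 := fun h => hne (sub_eq_zero.1 h)
    have h2 : ((f' (x, y) : ℕ) : AlgebraicClosure (ZMod p)) ≠ 0 := by
      intro h
      rw [CharP.cast_eq_zero_iff (AlgebraicClosure (ZMod p)) p] at h
      exact hpm (h.trans ((Finset.dvd_prod_of_mem f' (mem_product.2 ⟨hx, hy⟩)).trans
        (Dvd.intro_left _ rfl)))
    have h3 : f' (x, y) = my ⟨(x, y), h1⟩ := dif_pos h1
    rw [h3] at h2
    have h4 := hmy' ⟨(x, y), h1⟩ _ φ h2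
    apply h4
    change φ (x - y) = 0
    rw [map_sub, hxy, sub_self]

/-- products over a multiset -/
lemma mult_prod {A k' M : Type} [CommMonoid M] [DecidableEq k'] (R : Multiset k') (FR : Finset A)
    (u : A → k') (hu : Set.InjOn u FR) (hR : ∀ b ∈ R, ∃ x ∈ FR, u x = b) (f : k' → M) :
    (R.map f).prod = ∏ x ∈ FR, f (u x) ^ R.count (u x) := by
  classical
  rw [Finset.prod_multiset_map_count]
  have h1 : R.toFinset ⊆ FR.image u := by
    intro b hb
    obtain ⟨x, hx, rfl⟩ := hR b (Multiset.mem_toFinset.1 hb)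
    exact mem_image_of_mem _ hx
  rw [Finset.prod_subset h1 (fun b _ hb => by
    rw [Multiset.count_eq_zero_of_notMem (fun h => hb (Multiset.mem_toFinset.2 h)), pow_zero]),
    Finset.prod_image hu]

lemma mult_card {A k' : Type} [DecidableEq k'] (R : Multiset k') (FR : Finset A)
    (u : A → k') (hu : Set.InjOn u FR) (hR : ∀ b ∈ R, ∃ x ∈ FR, u x = b) :
    R.card = ∑ x ∈ FR, R.count (u x) := by
  classical
  rw [← Multiset.toFinset_sum_count_eq R]
  have h1 : R.toFinset ⊆ FR.image u := by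
    intro b hb
    obtain ⟨x, hx, rfl⟩ := hR b (Multiset.mem_toFinset.1 hb)
    exact mem_image_of_mem _ hx
  rw [Finset.sum_subset h1 (fun b _ hb =>
    Multiset.count_eq_zero_of_notMem (fun h => hb (Multiset.mem_toFinset.2 h))),
    Finset.sum_image hu]

lemma split_prod {A M : Type} [CommMonoid M] (FR : Finset A) (n : A → ℕ) (v : A → M) :
    ∏ x ∈ FR, v x ^ n x = (∏ x ∈ FR.filter (fun x => Odd (n x)), v x) *
      (∏ x ∈ FR, v x ^ (n x / 2)) ^ 2 := by
  classical
  rw [Finset.prod_filter, ← Finset.prod_pow, ← Finset.prod_mul_distrib]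
  refine Finset.prod_congr rfl fun x _ => ?_
  rw [← pow_mul]
  by_cases h : Odd (n x)
  · rw [if_pos h, ← pow_succ']
    congr 1
    obtain ⟨j, hj⟩ := h
    omega
  · rw [if_neg h, one_mul]
    congr 1
    obtain ⟨j, hj⟩ := Nat.not_odd_iff_even.1 h
    omega

/-- The multiset of the zeros of a polynomial over `ZMod p` is invariant under Frobenius. -/
lemma count_frob {p : ℕ} [Fact p.Prime] [DecidableEq (AlgebraicClosure (ZMod p))] (Q : (ZMod p)[X])
    (x : AlgebraicClosure (ZMod p)) :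
    (Q.aroots (AlgebraicClosure (ZMod p))).count (x ^ p) =
      (Q.aroots (AlgebraicClosure (ZMod p))).count x := by
  have : CharP (AlgebraicClosure (ZMod p)) p :=
    charP_of_injective_algebraMap (algebraMap (ZMod p) _).injective p
  have h1 : (Q.aroots (AlgebraicClosure (ZMod p))).map (frobenius (AlgebraicClosure (ZMod p)) p) =
      Q.aroots (AlgebraicClosure (ZMod p)) := by
    unfold aroots
    rw [← (IsAlgClosed.splits (Q.map (algebraMap (ZMod p) (AlgebraicClosure (ZMod p))))).roots_map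
      (frobenius (AlgebraicClosure (ZMod p)) p), Polynomial.map_map]
    congr 2
    exact RingHom.ext_zmod _ _
  have h2 : x ^ p = frobenius (AlgebraicClosure (ZMod p)) p x := rfl
  rw [h2]
  conv_lhs => rw [← h1]
  exact Multiset.count_map_eq_count' _ _ (frobenius (AlgebraicClosure (ZMod p)) p).injective x

theorem chebZ {K : Type} [Fintype K] [DecidableEq K] (d b : ℤ) (g : K → ℤ[X]) (h : ℤ[X])
    (hh : h ≠ 0) (hd1 : 1 ≤ h.natDegree) (hdeg : ∀ k, 2 ∣ (g k).natDegree) (N : ℕ) (hN : 0 < N)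
    (hgood : ∀ p : ℕ, ¬ p ∣ N → GoodP b g h p) (δ : K → ℤ) (hδ : ∀ k, δ k ≠ 0)
    (σ : AlgebraicClosure ℚ ≃ₐ[ℚ] AlgebraicClosure ℚ)
    (hσ : ∀ S : Finset (AlgebraicClosure ℚ), (∀ β ∈ S, aeval β h = 0) → (∀ β ∈ S, σ β ∈ S) →
      (Even S.card ↔ Even d) → ∃ k, ∀ y, σ y = y → ∏ β ∈ S, aeval β (g k) ≠ (δ k : AlgebraicClosure ℚ) * y ^ 2) :
    ∃ (L : Type) (_ : Field L) (_ : NumberField L) (_ : IsGalois ℚ L) (τ : Gal(L/ℚ)) (m : ℕ),
      0 < m ∧ ∀ p ∈ frobSet L τ m, ∀ [Fact p.Prime], ¬ ZR p d g h δ := by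
  classical
  set Qb := AlgebraicClosure ℚ with hQb
  have hZ : algebraMap ℤ Qb = Int.castRingHom Qb := RingHom.ext_int _ _
  have hc0 : h.leadingCoeff ≠ 0 := leadingCoeff_ne_zero.2 hh
  set c : ℤ := h.leadingCoeff with hc
  have hcQb : (c : Qb) ≠ 0 := Int.cast_ne_zero.2 hc0
  have hδQb : ∀ k, (δ k : Qb) ≠ 0 := fun k => Int.cast_ne_zero.2 (hδ k)
  -- the finite set
  set s0 : Set Qb := {β | aeval β h = 0} with hs0
  have hs0f : s0.Finite := by
    have h1 : (h.map (Int.castRingHom Qb)) ≠ 0 :=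
      (Polynomial.map_ne_zero_iff (Int.castRingHom Qb).injective_int).2 hh
    refine (Polynomial.finite_setOfPred_isRoot h1).subset ?_
    intro β hβ
    have h2 : aeval β h = 0 := hβ
    change (h.map (Int.castRingHom Qb)).IsRoot β
    rw [IsRoot.def, eval_map]
    rw [aeval_def, hZ] at h2
    exact h2
  have hYf : ∀ A : Qb, {y : Qb | y ^ 2 = A}.Finite := by
    intro A
    have h1 : (X ^ 2 - C A : Qb[X]) ≠ 0 := X_pow_sub_C_ne_zero two_pos A
    refine (Polynomial.finite_setOfPred_isRoot h1).subset ?_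
    intro y hy
    have h2 : y ^ 2 = A := hy
    change (X ^ 2 - C A : Qb[X]).IsRoot y
    rw [IsRoot.def, eval_sub, eval_pow, eval_X, eval_C, h2, sub_self]
  set s1 : Set Qb := ⋃ S ∈ (hs0f.toFinset.powerset : Set (Finset Qb)), ⋃ k : K,
    {y : Qb | y ^ 2 = (δ k : Qb)⁻¹ * ∏ β ∈ S, aeval β (g k)} with hs1
  have hs1f : s1.Finite :=
    (Finset.finite_toSet hs0f.toFinset.powerset).biUnion fun S _ => Set.finite_iUnion fun k => hYf _
  obtain ⟨L, iF, iN, iG, j, τ, hj, hjτ⟩ := exL σ (s0 ∪ s1) (hs0f.union hs1f)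
  have hjinj : Function.Injective j := j.injective
  -- algebraic integers
  let jO : 𝓞 L →+* Qb := j.comp (algebraMap (𝓞 L) L)
  have hjOinj : Function.Injective jO :=
    hjinj.comp (FaithfulSMul.algebraMap_injective (𝓞 L) L)
  have hjOτ : ∀ x : 𝓞 L, jO (τ • x) = σ (jO x) := fun x => hjτ _
  -- the polynomial with the zeros `c β`
  set Fh : (𝓞 L)[X] := (integralNormalization h).map (Int.castRingHom (𝓞 L)) with hFh
  have hFm : Fh.Monic := (monic_integralNormalization hh).map _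
  set FR : Finset (𝓞 L) := Fh.roots.toFinset with hFR
  have hFRmem : ∀ x, x ∈ FR ↔ Fh.eval x = 0 := by
    intro x
    rw [hFR, Multiset.mem_toFinset, mem_roots hFm.ne_zero]
    exact Iff.rfl
  choose e he using hdeg
  set A : Finset (𝓞 L) → K → 𝓞 L := fun S k => (δ k : 𝓞 L) * ∏ x ∈ S, hom (g k) x (c : 𝓞 L) with hA
  set T : Finset (𝓞 L) := FR ∪ FR.powerset.biUnion fun S =>
    univ.biUnion fun k : K => (X ^ 2 - C (A S k) : (𝓞 L)[X]).roots.toFinset with hT
  have hm0 : 0 < N * c.natAbs * ∏ k, (δ k).natAbs :=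
    Nat.mul_pos (Nat.mul_pos hN (Int.natAbs_pos.2 hc0))
      (Finset.prod_pos fun k _ => Int.natAbs_pos.2 (hδ k))
  obtain ⟨m, hm, hfix⟩ := fixed' L τ T _ hm0
  refine ⟨L, iF, iN, iG, τ, m, hm, fun p hp hpF' hR => ?_⟩
  obtain ⟨hpF, hpm, φ, hφτ, hφ, hφinj⟩ := hfix p hp
  have hcp : (c : ZMod p) ≠ 0 := by
    intro h1
    have h2 := Int.natCast_dvd.1 ((ZMod.intCast_zmod_eq_zero_iff_dvd _ p).1 h1)
    exact hpm ((h2.trans (Dvd.intro_left _ rfl)).trans (Dvd.intro _ rfl))
  have hδp : ∀ k, (δ k : ZMod p) ≠ 0 := by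
    intro k h1
    have h2 := Int.natCast_dvd.1 ((ZMod.intCast_zmod_eq_zero_iff_dvd _ p).1 h1)
    exact hpm (h2.trans ((Finset.dvd_prod_of_mem (fun k => (δ k).natAbs) (mem_univ k)).trans
      (Dvd.intro_left _ rfl)))
  have hG : GoodP b g h p := hgood p fun h1 => hpm ((h1.trans (Dvd.intro _ rfl)).trans
    (Dvd.intro _ rfl))
  obtain ⟨Q, hQm, hQodd, hQroot, hQval⟩ := hR
  have hchar : CharP (AlgebraicClosure (ZMod p)) p :=
    charP_of_injective_algebraMap (algebraMap (ZMod p) _).injective p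
  set R := Q.aroots (AlgebraicClosure (ZMod p)) with hRdef
  let ι : ZMod p →+* AlgebraicClosure (ZMod p) := algebraMap (ZMod p) (AlgebraicClosure (ZMod p))
  have hφι : ∀ z : ℤ, φ (z : 𝓞 L) = ι (z : ZMod p) := by
    intro z
    rw [map_intCast, map_intCast]
  set c' : AlgebraicClosure (ZMod p) := ι (c : ZMod p) with hc'
  have hc'0 : c' ≠ 0 := (_root_.map_ne_zero ι).2 hcp
  have hc'p : c' ^ p = c' := algMap_pow _
  have hRcard : Even R.card ↔ Even d := by
    have h1 : R.card = Q.natDegree := by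
      rw [hRdef, aroots, ← (IsAlgClosed.splits
        (Q.map (algebraMap (ZMod p) (AlgebraicClosure (ZMod p))))).natDegree_eq_card_roots,
        natDegree_map]
    rw [h1]
    exact hQodd
  -- the Galois group acts on the zeros
  have hFRst : ∀ (τ' : Gal(L/ℚ)) (x : 𝓞 L), x ∈ FR → τ' • x ∈ FR := by
    intro τ' x hx
    rw [hFRmem] at hx ⊢
    rw [hFh, eval_map] at hx ⊢
    have h1 : τ' • x = MulSemiringAction.toRingHom Gal(L/ℚ) (𝓞 L) τ' x := rfl
    have h2 : (Int.castRingHom (𝓞 L)) = (MulSemiringAction.toRingHom Gal(L/ℚ) (𝓞 L) τ').comp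
        (Int.castRingHom (𝓞 L)) := RingHom.ext_int _ _
    rw [h1, h2, ← hom_eval₂, hx, map_zero]
  have hsplit : ∀ F : (𝓞 L)[X], F.Monic → (∀ θ : Qb, eval₂ jO θ F = 0 → ∃ y, j y = θ) →
      (F.map (algebraMap (𝓞 L) L)).Splits := by
    intro F hFmon hF
    have h6 : ((F.map (algebraMap (𝓞 L) L)).map j).Splits := IsAlgClosed.splits _
    refine Splits.of_splits_map j h6 ?_
    intro θ hθ
    have h7 : ((F.map (algebraMap (𝓞 L) L)).map j).IsRoot θ := Polynomial.isRoot_of_mem_roots hθ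
    rw [IsRoot.def, Polynomial.map_map, eval_map] at h7
    exact hF θ h7
  have hFhroot : ∀ θ : Qb, eval₂ jO θ Fh = 0 → aeval (θ / c) h = 0 := by
    intro θ hθ
    rw [hFh, eval₂_map] at hθ
    have e1 : jO.comp (Int.castRingHom (𝓞 L)) = Int.castRingHom Qb := RingHom.ext_int _ _
    rw [e1] at hθ
    have e2 := integralNormalization_eval₂_leadingCoeff_mul hd1 (Int.castRingHom Qb) (θ / c)
    rw [eq_intCast, ← hc, mul_div_cancel₀ _ hcQb, hθ] at e2
    rw [aeval_def, hZ]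
    exact (mul_eq_zero.1 e2.symm).resolve_left (pow_ne_zero _ hcQb)
  have hFhs := hsplit Fh hFm (by
    intro θ hθ
    obtain ⟨y, hy⟩ := hj (θ / c) (Or.inl (hFhroot θ hθ))
    refine ⟨c * y, ?_⟩
    rw [map_mul, hy, map_intCast, mul_div_cancel₀ _ hcQb])
  -- the zeros modulo `p`
  set u : 𝓞 L → AlgebraicClosure (ZMod p) := fun x => φ x / c' with hu
  have huinj : Set.InjOn u FR := by
    intro x hx y hy hxy
    have h1 : φ x / c' = φ y / c' := hxy
    rw [div_left_inj' hc'0] at h1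
    exact hφinj x (mem_union_left _ hx) y (mem_union_left _ hy) h1
  have huR : ∀ x ∈ R, ∃ y ∈ FR, u y = x := by
    intro x hx
    have h0 := hQroot x hx
    rw [hom_one] at h0
    have hr0 : eval₂ φ (c' * x) Fh = 0 := by
      rw [hFh, eval₂_map]
      have e1 : φ.comp (Int.castRingHom (𝓞 L)) = Int.castRingHom _ := RingHom.ext_int _ _
      rw [e1]
      have e2 := integralNormalization_eval₂_leadingCoeff_mul hd1
        (Int.castRingHom (AlgebraicClosure (ZMod p))) x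
      rw [h0, mul_zero, eq_intCast, ← hc] at e2
      have e3 : c' = (c : AlgebraicClosure (ZMod p)) := by rw [hc', map_intCast]
      rw [e3]
      exact e2
    obtain ⟨y, hy, hφy⟩ := lift_root L Fh hFm hFhs φ _ hr0
    refine ⟨y, (hFRmem y).2 hy, ?_⟩
    change φ y / c' = x
    rw [hφy, mul_div_cancel_left₀ _ hc'0]
  have huτ : ∀ x, u (τ • x) = u x ^ p := by
    intro x
    change φ (τ • x) / c' = (φ x / c') ^ p
    rw [hφτ, div_pow, hc'p]
  have hnτ : ∀ x, R.count (u (τ • x)) = R.count (u x) := by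
    intro x
    rw [huτ]
    exact count_frob Q _
  -- the set of the zeros of odd multiplicity
  set S : Finset (𝓞 L) := FR.filter (fun x => Odd (R.count (u x))) with hS
  have hSodd : Even S.card ↔ Even d := by
    rw [hS, ← Nat.not_odd_iff_even, ← Finset.odd_sum_iff_odd_card_odd,
      ← mult_card R FR u huinj huR, Nat.not_odd_iff_even]
    exact hRcard
  have hSst : ∀ x ∈ S, τ • x ∈ S := by
    intro x hx
    rw [hS, mem_filter] at hx ⊢
    exact ⟨hFRst τ x hx.1, by rw [hnτ]; exact hx.2⟩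
  set S' : Finset Qb := S.image (fun x => jO x / c) with hS'
  have hinj' : Function.Injective (fun x : 𝓞 L => jO x / (c : Qb)) := by
    intro x y hxy
    exact hjOinj ((div_left_inj' hcQb).1 hxy)
  have hjOroot : ∀ x ∈ FR, eval₂ jO (jO x) Fh = 0 := by
    intro x hx
    have h1 := congrArg jO ((hFRmem x).1 hx)
    rw [map_zero, ← eval₂_at_apply] at h1
    exact h1
  have hS'0 : ∀ β ∈ S', aeval β h = 0 := by
    intro β hβ
    obtain ⟨x, hx, rfl⟩ := mem_image.1 hβ
    exact hFhroot _ (hjOroot x (mem_filter.1 hx).1)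
  obtain ⟨k, hk⟩ := hσ S' hS'0 (by
    intro β hβ
    obtain ⟨x, hx, rfl⟩ := mem_image.1 hβ
    rw [map_div₀, map_intCast, ← hjOτ]
    exact mem_image_of_mem _ (hSst x hx)) (by
    rw [hS', card_image_of_injective _ hinj']
    exact hSodd)
  obtain ⟨y, hy⟩ := hQval k
  -- the values
  set v : 𝓞 L → AlgebraicClosure (ZMod p) := fun x => hom (g k) (u x) 1 with hv
  set W : AlgebraicClosure (ZMod p) := ∏ x ∈ FR, v x ^ (R.count (u x) / 2) with hW
  have hvalQ : valQ p g Q k = (∏ x ∈ S, v x) * W ^ 2 := by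
    unfold valQ
    rw [← hRdef, mult_prod R FR u huinj huR]
    exact split_prod FR _ _
  have hur : ∀ x ∈ FR, hom h (u x) 1 = 0 := by
    intro x hx
    have h1 := congrArg φ ((hFRmem x).1 hx)
    rw [map_zero, ← eval₂_at_apply, hFh, eval₂_map] at h1
    have e1 : φ.comp (Int.castRingHom (𝓞 L)) = Int.castRingHom _ := RingHom.ext_int _ _
    rw [e1] at h1
    have e2 := integralNormalization_eval₂_leadingCoeff_mul hd1
      (Int.castRingHom (AlgebraicClosure (ZMod p))) (u x)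
    have e3 : c' = (c : AlgebraicClosure (ZMod p)) := by rw [hc', map_intCast]
    have e4 : (c : AlgebraicClosure (ZMod p)) * u x = φ x := by
      rw [← e3]
      change c' * (φ x / c') = φ x
      rw [mul_div_cancel₀ _ hc'0]
    rw [eq_intCast, ← hc, e4, h1] at e2
    rw [hom_one]
    exact (mul_eq_zero.1 e2.symm).resolve_left (pow_ne_zero _ (by rw [← e3]; exact hc'0))
  have hv0 : ∀ x ∈ FR, v x ≠ 0 := fun x hx =>
    (hG.2.2.2 _ _ _ (Or.inr one_ne_zero)).2 k (hur x hx)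
  have hW0 : W ≠ 0 := Finset.prod_ne_zero_iff.2 fun x hx => pow_ne_zero _ (hv0 x hx)
  have hvτ : ∀ x, v (τ • x) = v x ^ p := by
    intro x
    change hom (g k) (u (τ • x)) 1 = hom (g k) (u x) 1 ^ p
    rw [huτ]
    have h1 := hom_map (g k) (frobenius (AlgebraicClosure (ZMod p)) p) (u x) 1
    rw [map_one] at h1
    exact h1.symm
  have hWp : W ^ p = W := by
    rw [hW, ← Finset.prod_pow]
    refine Finset.prod_equiv (MulAction.toPerm τ) ?_ ?_
    · intro x
      refine ⟨fun hx => hFRst τ x hx, fun hx => ?_⟩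
      have h1 := hFRst τ⁻¹ _ hx
      rw [MulAction.toPerm_apply, inv_smul_smul] at h1
      exact h1
    · intro x _
      rw [MulAction.toPerm_apply, hvτ, hnτ, ← pow_mul, ← pow_mul, mul_comm]
  set r : AlgebraicClosure (ZMod p) := ι (δ k : ZMod p) * c' ^ (e k * S.card) * ι y / W with hr
  have hrp : r ^ p = r := by
    rw [hr, div_pow, mul_pow, mul_pow, hWp, ← pow_mul, mul_comm _ p, pow_mul, hc'p, algMap_pow,
      algMap_pow]
  have hφA : φ (A S k) = r ^ 2 := by
    have h1 : φ (A S k) = ι (δ k : ZMod p) * ((c' ^ (e k * S.card)) ^ 2 * ∏ x ∈ S, v x) := by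
      rw [hA]
      simp only
      rw [map_mul, hφι, map_prod]
      congr 1
      have h2 : (c' ^ (e k * S.card)) ^ 2 = ∏ _x ∈ S, c' ^ (g k).natDegree := by
        rw [Finset.prod_const, he, ← pow_mul, ← pow_mul]
        congr 1
        ring
      rw [h2, ← Finset.prod_mul_distrib]
      refine Finset.prod_congr rfl fun x _ => ?_
      rw [hom_map, hφι]
      change hom (g k) (φ x) c' = c' ^ (g k).natDegree * hom (g k) (u x) 1
      rw [← hom_mul, mul_one]
      congr 1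
      change φ x = c' * (φ x / c')
      rw [mul_div_cancel₀ _ hc'0]
    rw [h1, hr]
    have h3 : ι (δ k : ZMod p) * (ι y) ^ 2 = (∏ x ∈ S, v x) * W ^ 2 := by
      rw [← hvalQ, ← hy, map_mul, map_pow]
    rw [div_pow, mul_pow, mul_pow, eq_div_iff (pow_ne_zero 2 hW0)]
    linear_combination -(ι (δ k : ZMod p)) * (c' ^ (e k * S.card)) ^ 2 * h3
  have hSsub : S' ⊆ hs0f.toFinset := fun β hβ => (Set.Finite.mem_toFinset _).2 (hS'0 β hβ)
  have hjA : jO (A S k) = (δ k : Qb) * (((c : Qb) ^ (e k * S.card)) ^ 2 *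
      ∏ β ∈ S', aeval β (g k)) := by
    rw [hA]
    simp only
    rw [map_mul, map_intCast, map_prod]
    congr 1
    have h2 : ((c : Qb) ^ (e k * S.card)) ^ 2 = ∏ _x ∈ S, (c : Qb) ^ (g k).natDegree := by
      rw [Finset.prod_const, he, ← pow_mul, ← pow_mul]
      congr 1
      ring
    rw [h2, hS', Finset.prod_image (fun x _ y _ hxy => hinj' hxy), ← Finset.prod_mul_distrib]
    refine Finset.prod_congr rfl fun x _ => ?_
    rw [hom_map, map_intCast, aeval_def, hZ, ← hom_one, ← hom_mul, mul_one,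
      mul_div_cancel₀ _ hcQb]
  have hFAm : (X ^ 2 - C (A S k) : (𝓞 L)[X]).Monic := monic_X_pow_sub_C _ two_ne_zero
  have hYroot : ∀ Y : Qb, Y ^ 2 = jO (A S k) →
      (Y / ((δ k : Qb) * (c : Qb) ^ (e k * S.card))) ^ 2 =
        (δ k : Qb)⁻¹ * ∏ β ∈ S', aeval β (g k) := by
    intro Y hY
    rw [div_pow, hY, hjA]
    have e4 : (δ k : Qb) ≠ 0 := hδQb k
    have e5 : (c : Qb) ^ (e k * S.card) ≠ 0 := pow_ne_zero _ hcQb
    field_simp
  have hFAs := hsplit (X ^ 2 - C (A S k)) hFAm (by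
    intro θ hθ
    rw [eval₂_sub, eval₂_pow, eval₂_X, eval₂_C, sub_eq_zero] at hθ
    have h1 := hYroot θ hθ
    obtain ⟨y', hy'⟩ := hj _ (Or.inr (by
      rw [hs1]
      simp only [Set.mem_iUnion]
      exact ⟨S', Finset.mem_coe.2 (Finset.mem_powerset.2 hSsub), k, h1⟩))
    refine ⟨((δ k : L) * (c : L) ^ (e k * S.card)) * y', ?_⟩
    rw [map_mul, map_mul, map_pow, map_intCast, map_intCast, hy', mul_div_cancel₀]
    exact mul_ne_zero (hδQb k) (pow_ne_zero _ hcQb))
  obtain ⟨Y, hY, hφY⟩ := lift_root L _ hFAm hFAs φ r (by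
    rw [eval₂_sub, eval₂_pow, eval₂_X, eval₂_C, hφA, sub_self])
  have hYT : Y ∈ T := by
    rw [hT]
    refine mem_union_right _ (mem_biUnion.2 ⟨S, mem_powerset.2 (filter_subset _ _),
      mem_biUnion.2 ⟨k, mem_univ k, ?_⟩⟩)
    rw [Multiset.mem_toFinset, mem_roots hFAm.ne_zero]
    exact hY
  have hYτ : τ • Y = Y := hφ Y hYT (by rw [hφY]; exact hrp)
  have hYn : Y ^ 2 = A S k := by
    rw [eval_sub, eval_pow, eval_X, eval_C, sub_eq_zero] at hY
    exact hY
  refine hk (jO Y / ((δ k : Qb) * (c : Qb) ^ (e k * S.card))) ?_ ?_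
  · rw [map_div₀, map_mul, map_pow, map_intCast, map_intCast, ← hjOτ, hYτ]
  · rw [hYroot (jO Y) (by rw [← map_pow, hYn]), mul_inv_cancel_left₀ (hδQb k)]

end Pool.Agent.R925.ZC
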