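import Pool.Agent.R925.ZC.Loc

/-! Zero-cycles. -/

set_option autoImplicit false
set_option linter.unusedSectionVars false

namespace Pool.Agent.R925.ZC

open Polynomial Finset Pool.Agent.R925.FD

variable {K : Type} [Fintype K] [DecidableEq K]

/-- A zero-cycle over `F` on the curve `b * y ^ 2 = ∏ k, G k (z, w)`, `a * x ^ m = H (z, w)`: finitely
many points over finite extensions of `F`, with integral multiplicities. -/
structure Cycle (m : ℕ) (b a : ℤ) (g : K → ℤ[X]) (h : ℤ[X]) (F : Type) [Field F] where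
  /-- the number of the points -/
  r : ℕ
  /-- the extensions -/
  E : Fin r → Type
  /-- they are fields -/
  fld : ∀ i, Field (E i)
  /-- they are extensions of `F` -/
  alg : ∀ i, Algebra F (E i)
  /-- the degrees are finite -/
  fin : ∀ i, FiniteDimensional F (E i)
  /-- the points -/
  pt : ∀ i, Point m b a g h (E i)
  /-- the multiplicities -/
  c : Fin r → ℤ

attribute [instance] Cycle.fld Cycle.alg Cycle.fin

variable {m : ℕ} {b a : ℤ} {g : K → ℤ[X]} {h : ℤ[X]} {F : Type} [Field F]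

/-- The degree of a zero-cycle. -/
noncomputable def Cycle.degree (Z : Cycle m b a g h F) : ℤ :=
  ∑ i, Z.c i * (Module.finrank F (Z.E i) : ℤ)

/-- The value of `G k` at a zero-cycle, modulo squares: the product of the norms of the values at the
points. -/
noncomputable def cycVal (Z : Cycle m b a g h F) (k : K) : F :=
  ∏ i, (Algebra.norm F (value (Z.pt i) k)) ^ (Z.c i)

lemma zpow_sum' {F : Type} [Field F] {x : F} (hx : x ≠ 0) {ι : Type} [DecidableEq ι] (s : Finset ι)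
    (f : ι → ℤ) : x ^ (∑ i ∈ s, f i) = ∏ i ∈ s, x ^ f i := by
  induction s using Finset.induction_on with
  | empty => simp
  | insert a s ha ih => rw [sum_insert ha, prod_insert ha, zpow_add₀ hx, ih]

section general

variable [CharZero F]

lemma charZero_ext (E : Type) [Field E] [Algebra F E] : CharZero E :=
  charZero_of_injective_algebraMap (algebraMap F E).injective

lemma cycVal_ne (hb : b ≠ 0) (hg0 : ∀ k, g k ≠ 0) (hgg : ∀ k l, k ≠ l →
    IsCoprime ((g k).map (Int.castRingHom ℚ)) ((g l).map (Int.castRingHom ℚ)))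
    (Z : Cycle m b a g h F) (k : K) : cycVal Z k ≠ 0 := by
  refine Finset.prod_ne_zero_iff.2 fun i _ => zpow_ne_zero _ (Algebra.norm_ne_zero_iff.2 ?_)
  have := charZero_ext (F := F) (Z.E i)
  exact cval_ne hb hg0 hgg (Z.pt i).ne k

lemma cycVal_prod (hb : b ≠ 0) (hg0 : ∀ k, g k ≠ 0) (hgg : ∀ k l, k ≠ l →
    IsCoprime ((g k).map (Int.castRingHom ℚ)) ((g l).map (Int.castRingHom ℚ)))
    (Z : Cycle m b a g h F) {d : ℤ} (hZ : Even Z.degree ↔ Even d) :
    IsSquare ((b : F) ^ d * ∏ k, cycVal Z k) := by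
  have h1 : ∀ i, ∃ s : F, (b : F) ^ (Module.finrank F (Z.E i)) *
      ∏ k, Algebra.norm F (value (Z.pt i) k) = s ^ 2 := by
    intro i
    have := charZero_ext (F := F) (Z.E i)
    obtain ⟨s, hs⟩ := cval_prod hg0 hgg (Z.pt i).ne (Z.pt i).eq₁
    refine ⟨Algebra.norm F s, ?_⟩
    have h2 := congrArg (Algebra.norm F) hs
    rw [map_mul, map_mul, map_prod, ← sq] at h2
    rw [← h2]
    congr 1
    have h3 : ((b : ℤ) : Z.E i) = algebraMap F (Z.E i) (b : F) := by rw [map_intCast]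
    rw [h3, Algebra.norm_algebraMap]
  choose s hs using h1
  have hb0 : (b : F) ≠ 0 := Int.cast_ne_zero.2 hb
  have h2 : (b : F) ^ Z.degree * ∏ k, cycVal Z k = (∏ i, s i ^ Z.c i) ^ 2 := by
    have e1 : ∏ k, cycVal Z k = ∏ i, (∏ k, Algebra.norm F (value (Z.pt i) k)) ^ Z.c i := by
      unfold cycVal
      rw [Finset.prod_comm]
      exact Finset.prod_congr rfl fun i _ => Finset.prod_zpow _ _ _
    rw [e1, Cycle.degree, zpow_sum' hb0, ← Finset.prod_mul_distrib, ← Finset.prod_pow]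
    refine Finset.prod_congr rfl fun i _ => ?_
    have e2 : (b : F) ^ (Z.c i * (Module.finrank F (Z.E i) : ℤ)) =
        ((b : F) ^ (Module.finrank F (Z.E i))) ^ Z.c i := by
      rw [mul_comm, zpow_mul, zpow_natCast]
    rw [e2, ← mul_zpow, hs, ← zpow_natCast, ← zpow_natCast, ← zpow_mul, ← zpow_mul, mul_comm]
  obtain ⟨j, hj⟩ : Even (d - Z.degree) := by
    rw [Int.even_sub]
    exact hZ.symm
  refine ⟨(∏ i, s i ^ Z.c i) * (b : F) ^ j, ?_⟩
  have e3 : (b : F) ^ d = (b : F) ^ Z.degree * ((b : F) ^ j) ^ 2 := by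
    rw [← zpow_natCast, ← zpow_mul, ← zpow_add₀ hb0]
    congr 1
    push_cast
    omega
  calc (b : F) ^ d * ∏ k, cycVal Z k
      = ((b : F) ^ Z.degree * ∏ k, cycVal Z k) * ((b : F) ^ j) ^ 2 := by
        rw [e3]
        ring
    _ = _ := by rw [h2]; ring

end general

section padic

variable {p : ℕ} [hp : Fact p.Prime]

/-- The value at a zero-cycle is a unit times a square. -/
lemma cycVal_unit (hG : GoodP b g h p) (hdeg : ∀ k, 2 ∣ (g k).natDegree)
    (Z : Cycle m b a g h ℚ_[p]) (k : K) :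
    ∃ u s : ℚ_[p], ‖u‖ = 1 ∧ s ≠ 0 ∧ cycVal Z k = u * s ^ 2 := by
  choose u s hu hs hus using fun i => value_unit hG hdeg (Z.pt i) k
  refine ⟨∏ i, (Algebra.norm ℚ_[p] (u i)) ^ Z.c i, ∏ i, (Algebra.norm ℚ_[p] (s i)) ^ Z.c i,
    ?_, ?_, ?_⟩
  · rw [_root_.norm_prod]
    refine Finset.prod_eq_one fun i _ => ?_
    rw [norm_zpow, norm_norm, hu, one_pow, one_zpow]
  · exact Finset.prod_ne_zero_iff.2 fun i _ => zpow_ne_zero _ (Algebra.norm_ne_zero_iff.2 (hs i))
  · unfold cycVal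
    rw [← Finset.prod_pow, ← Finset.prod_mul_distrib]
    refine Finset.prod_congr rfl fun i _ => ?_
    rw [hus, map_mul, map_pow, mul_zpow, ← zpow_natCast, ← zpow_natCast, ← zpow_mul, ← zpow_mul,
      mul_comm (Z.c i)]

lemma not_dvd_of_sq (hG : GoodP b g h p) (hdeg : ∀ k, 2 ∣ (g k).natDegree)
    (Z : Cycle m b a g h ℚ_[p]) (k : K) {n : ℤ} (hn : Squarefree n)
    (h1 : IsSquare (cycVal Z k * (n : ℚ_[p]))) : ¬ (p : ℤ) ∣ n := by
  intro hpn
  obtain ⟨u, s, hu, hs, hus⟩ := cycVal_unit hG hdeg Z k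
  obtain ⟨r, hr⟩ := h1
  have hn0 : (n : ℚ_[p]) ≠ 0 := Int.cast_ne_zero.2 hn.ne_zero
  have hnn : ‖(n : ℚ_[p])‖ = (p : ℝ)⁻¹ := by
    obtain ⟨n', hn'⟩ := hpn
    have h2 : ¬ (p : ℤ) ∣ n' := by
      rintro ⟨n'', hn''⟩
      have h3 : (p : ℤ) * p ∣ n := ⟨n'', by rw [hn', hn'']; ring⟩
      have h4 := Int.isUnit_iff.1 (hn _ h3)
      have := hp.out.two_le
      omega
    have h3 : ‖(n' : ℚ_[p])‖ = 1 := by
      refine le_antisymm (Padic.norm_int_le_one n') ?_
      by_contra hc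
      rw [not_le, Padic.norm_intCast_lt_one_iff] at hc
      exact h2 hc
    rw [hn']
    push_cast
    rw [norm_mul, h3, mul_one, Padic.norm_p]
  have hu0 : u ≠ 0 := by
    rintro rfl
    rw [norm_zero] at hu
    exact zero_ne_one hu
  have hr0 : r ≠ 0 := by
    rintro rfl
    rw [mul_zero, hus] at hr
    exact mul_ne_zero (mul_ne_zero hu0 (pow_ne_zero 2 hs)) hn0 hr
  apply par (p := p) (B := s) hnn hr0
  rw [sq r, ← hr, hus, norm_mul (u * s ^ 2), norm_mul u, hu, one_mul, norm_mul, mul_comm]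

/-- units which are squares -/
lemma unit_sq {u : ℤ_[p]} (h1 : IsSquare (u : ℚ_[p])) :
    ∃ y : ZMod p, PadicInt.toZMod u = y ^ 2 := by
  obtain ⟨r, hr⟩ := h1
  have h2 : ‖r‖ ≤ 1 := by
    have h3 : ‖r ^ 2‖ ≤ 1 := by
      rw [sq, ← hr]
      exact PadicInt.norm_le_one u
    rw [norm_pow] at h3
    exact (pow_le_one_iff_of_nonneg (norm_nonneg _) two_ne_zero).1 h3
  obtain ⟨r', hr'⟩ : ∃ r' : ℤ_[p], (r' : ℚ_[p]) = r := ⟨⟨_, h2⟩, rfl⟩
  refine ⟨PadicInt.toZMod r', ?_⟩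
  have h3 : u = r' ^ 2 := by
    apply Subtype.coe_injective
    push_cast
    rw [hr', sq]
    exact hr
  rw [h3, map_pow]

lemma zpow_abs {F : Type} [Field F] {x : F} (hx : x ≠ 0) (z : ℤ) :
    ∃ S : F, S ≠ 0 ∧ x ^ z = x ^ z.natAbs * S ^ 2 := by
  rcases Int.natAbs_eq z with h1 | h1
  · refine ⟨1, one_ne_zero, ?_⟩
    rw [one_pow, mul_one]
    conv_lhs => rw [h1, zpow_natCast]
  · refine ⟨(x ^ z.natAbs)⁻¹, inv_ne_zero (pow_ne_zero _ hx), ?_⟩
    conv_lhs => rw [h1, zpow_neg, zpow_natCast]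
    have := pow_ne_zero z.natAbs hx
    field_simp

lemma valQ_prod {ι : Type} [DecidableEq ι] (s : Finset ι) (Q : ι → (ZMod p)[X]) (n : ι → ℕ)
    (hQ : ∀ i, (Q i).Monic) (k : K) :
    valQ p g (∏ i ∈ s, Q i ^ n i) k = ∏ i ∈ s, valQ p g (Q i) k ^ n i := by
  induction s using Finset.induction_on with
  | empty => rw [prod_empty, prod_empty, valQ, aroots_one, Multiset.map_zero, Multiset.prod_zero]
  | insert a s ha ih =>
    rw [prod_insert ha, prod_insert ha, ← ih]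
    have h1 : Q a ^ n a * ∏ i ∈ s, Q i ^ n i ≠ 0 :=
      (((hQ a).pow _).mul (monic_prod_of_monic _ _ fun i _ => (hQ i).pow _)).ne_zero
    unfold valQ
    rw [aroots_mul h1, Multiset.map_add, Multiset.prod_add, aroots_pow, Multiset.map_nsmul,
      Multiset.prod_nsmul]

variable (p) in
/-- There is a cycle of degree congruent to `d` modulo `2` over the zeros of `h` modulo `p`, with the
values `δ k`, modulo squares. -/
def ZR (d : ℤ) (g : K → ℤ[X]) (h : ℤ[X]) (δ : K → ℤ) : Prop :=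
  ∃ Q : (ZMod p)[X], Q.Monic ∧ (Even Q.natDegree ↔ Even d) ∧
    (∀ x ∈ Q.aroots (AlgebraicClosure (ZMod p)), hom h x 1 = 0) ∧
    ∀ k, ∃ y : ZMod p, algebraMap (ZMod p) (AlgebraicClosure (ZMod p)) ((δ k : ZMod p) * y ^ 2) =
      valQ p g Q k

/-- **The reduction of a zero-cycle at a prime dividing `a`.** -/
theorem reducesZ (hG : GoodP b g h p) (hdeg : ∀ k, 2 ∣ (g k).natDegree) (hm : Even m)
    (hmh : m ∣ h.natDegree) (ha : ‖(a : ℚ_[p])‖ = (p : ℝ)⁻¹) (Z : Cycle m b a g h ℚ_[p])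
    {d : ℤ} (hZ : Even Z.degree ↔ Even d) (δ : K → ℤ) (hδ : ∀ k, ¬ (p : ℤ) ∣ δ k)
    (hsq : ∀ k, IsSquare (cycVal Z k * (δ k : ℚ_[p]))) : ZR p d g h δ := by
  classical
  choose Q hQ1 hQ2 hQ3 hQ4 using fun i => point_data hG hdeg hm hmh ha (Z.pt i)
  choose c r hr hc hN hv using hQ4
  refine ⟨∏ i, Q i ^ (Z.c i).natAbs, monic_prod_of_monic _ _ fun i _ => (hQ1 i).pow _, ?_, ?_, ?_⟩
  · rw [natDegree_prod_of_monic _ _ fun i _ => (hQ1 i).pow _]
    have h1 : ∀ i ∈ (univ : Finset (Fin Z.r)), Even (((Z.c i).natAbs : ℤ) * ((Q i).natDegree : ℤ) -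
        Z.c i * (Module.finrank ℚ_[p] (Z.E i) : ℤ)) := by
      intro i _
      rw [Int.even_sub, Int.even_mul, Int.even_mul, Int.even_coe_nat, Int.even_coe_nat,
        Int.even_coe_nat, Int.natAbs_even, hQ3]
    have h2 := Finset.even_sum _ h1
    rw [Finset.sum_sub_distrib, Int.even_sub] at h2
    have h3 : ((∑ i, (Q i ^ (Z.c i).natAbs).natDegree : ℕ) : ℤ) =
        ∑ i, ((Z.c i).natAbs : ℤ) * ((Q i).natDegree : ℤ) := by
      push_cast
      refine Finset.sum_congr rfl fun i _ => ?_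
      rw [(hQ1 i).natDegree_pow]
      push_cast
      rfl
    rw [← Int.even_coe_nat, h3, h2]
    exact hZ
  · intro x hx
    rw [mem_aroots, map_prod] at hx
    obtain ⟨i, -, hi⟩ := Finset.prod_eq_zero_iff.1 hx.2
    rw [map_pow] at hi
    refine hQ2 i x (mem_aroots.2 ⟨(hQ1 i).ne_zero, ?_⟩)
    by_contra h0
    exact pow_ne_zero _ h0 hi
  · intro k
    have hc0 : ∀ i, ((c i k : ℤ_[p]) : ℚ_[p]) ≠ 0 := fun i => coe_ne_zero_of (hc i k)
    set C : ℤ_[p] := ∏ i, c i k ^ (Z.c i).natAbs with hC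
    have hCz : PadicInt.toZMod C ≠ 0 := by
      rw [hC, map_prod]
      refine Finset.prod_ne_zero_iff.2 fun i _ => ?_
      rw [map_pow]
      exact pow_ne_zero _ (hc i k)
    have hval : ∃ S : ℚ_[p], S ≠ 0 ∧ cycVal Z k = (C : ℚ_[p]) * S ^ 2 := by
      choose S hS1 hS2 using fun i => zpow_abs (hc0 i) (Z.c i)
      refine ⟨∏ i, S i * r i k ^ Z.c i,
        Finset.prod_ne_zero_iff.2 fun i _ => mul_ne_zero (hS1 i) (zpow_ne_zero _ (hr i k)), ?_⟩
      have hCc : (C : ℚ_[p]) = ∏ i, ((c i k : ℤ_[p]) : ℚ_[p]) ^ (Z.c i).natAbs := by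
        rw [hC]
        have := map_prod (PadicInt.Coe.ringHom (p := p)) (fun i => c i k ^ (Z.c i).natAbs) univ
        rw [show ((∏ i, c i k ^ (Z.c i).natAbs : ℤ_[p]) : ℚ_[p]) =
          PadicInt.Coe.ringHom (p := p) (∏ i, c i k ^ (Z.c i).natAbs) from rfl, this]
        refine Finset.prod_congr rfl fun i _ => ?_
        rw [map_pow]
        rfl
      rw [hCc, ← Finset.prod_pow, ← Finset.prod_mul_distrib]
      unfold cycVal
      refine Finset.prod_congr rfl fun i _ => ?_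
      rw [hN, mul_zpow, hS2, mul_pow, mul_assoc]
      congr 2
      rw [← zpow_natCast, ← zpow_natCast, ← zpow_mul, ← zpow_mul, mul_comm]
    obtain ⟨S, hS, hCS⟩ := hval
    have h1 : IsSquare (((C * (δ k : ℤ_[p]) : ℤ_[p])) : ℚ_[p]) := by
      obtain ⟨t, ht⟩ := hsq k
      refine ⟨t / S, ?_⟩
      rw [hCS] at ht
      push_cast
      field_simp
      linear_combination ht
    have hδ0 : (δ k : ZMod p) ≠ 0 := fun h0 => hδ k ((ZMod.intCast_zmod_eq_zero_iff_dvd _ p).1 h0)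
    obtain ⟨y, hy⟩ := unit_sq h1
    rw [map_mul, map_intCast] at hy
    refine ⟨y / (δ k : ZMod p), ?_⟩
    have h2 : (δ k : ZMod p) * (y / (δ k : ZMod p)) ^ 2 = PadicInt.toZMod C := by
      rw [div_pow, ← hy]
      field_simp
    rw [h2, hC, valQ_prod _ _ _ hQ1, map_prod, map_prod]
    refine Finset.prod_congr rfl fun i _ => ?_
    rw [map_pow, map_pow, hv]

end padic

end Pool.Agent.R925.ZC
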