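import Pool.Agent.R925.ZC.Rho

/-! Finite extensions of `ℚ_p`, their embeddings in the algebraic closure and norms. -/

set_option autoImplicit false
set_option linter.unusedSectionVars false

namespace Pool.Agent.R925.ZC

open Polynomial Finset

section

variable {p : ℕ} [hp : Fact p.Prime] {E : Type} [Field E] [Algebra ℚ_[p] E]
  [FiniteDimensional ℚ_[p] E]

lemma norm_emb (τ τ' : E →ₐ[ℚ_[p]] PadicAlgCl p) (x : E) : ‖τ x‖ = ‖τ' x‖ := by
  have h : ∀ τ : E →ₐ[ℚ_[p]] PadicAlgCl p, ‖τ x‖ = spectralValue (minpoly ℚ_[p] x) := by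
    intro τ
    change spectralValue (minpoly ℚ_[p] (τ x)) = _
    rw [minpoly.algHom_eq τ τ.injective]
  rw [h, h]

lemma norm_prod (x : E) :
    algebraMap ℚ_[p] (PadicAlgCl p) (Algebra.norm ℚ_[p] x) = ∏ τ : E →ₐ[ℚ_[p]] PadicAlgCl p, τ x :=
  Algebra.norm_eq_prod_embeddings ℚ_[p] (PadicAlgCl p) x

lemma card_emb : Fintype.card (E →ₐ[ℚ_[p]] PadicAlgCl p) = Module.finrank ℚ_[p] E :=
  AlgHom.card ℚ_[p] E (PadicAlgCl p)

instance : Nonempty (E →ₐ[ℚ_[p]] PadicAlgCl p) := ⟨IsAlgClosed.lift⟩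

variable (p) in
/-- the norm of `E` -/
noncomputable def nE (x : E) : ℝ := ‖(IsAlgClosed.lift (M := PadicAlgCl p) : E →ₐ[ℚ_[p]] PadicAlgCl p) x‖

lemma norm_eq_nE (τ : E →ₐ[ℚ_[p]] PadicAlgCl p) (x : E) : ‖τ x‖ = nE p x := norm_emb _ _ _

lemma nE_mul (x y : E) : nE p (x * y) = nE p x * nE p y := by
  unfold nE
  rw [map_mul, norm_mul]

lemma nE_pow (x : E) (n : ℕ) : nE p (x ^ n) = nE p x ^ n := by
  unfold nE
  rw [map_pow, norm_pow]

lemma nE_inv (x : E) : nE p (x⁻¹) = (nE p x)⁻¹ := by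
  unfold nE
  rw [map_inv₀, norm_inv]

lemma nE_one : nE p (1 : E) = 1 := by
  unfold nE
  rw [map_one, norm_one]

lemma nE_nonneg (x : E) : 0 ≤ nE p x := norm_nonneg _

lemma nE_zero : nE p (0 : E) = 0 := by
  unfold nE
  rw [map_zero, norm_zero]

lemma nE_eq_zero {x : E} : nE p x = 0 ↔ x = 0 := by
  unfold nE
  rw [norm_eq_zero, map_eq_zero]

lemma nE_alg (c : ℚ_[p]) : nE p (algebraMap ℚ_[p] E c) = ‖c‖ := by
  unfold nE
  rw [AlgHom.commutes, norm_algebraMap']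

lemma norm_norm (x : E) : ‖Algebra.norm ℚ_[p] x‖ = nE p x ^ Module.finrank ℚ_[p] E := by
  have h := congrArg norm (norm_prod (p := p) x)
  rw [norm_algebraMap', _root_.norm_prod] at h
  rw [h, ← card_emb (p := p) (E := E), ← Finset.card_univ, ← Finset.prod_const]
  exact Finset.prod_congr rfl fun τ _ => norm_eq_nE τ x

/-- the element `τ x` of norm at most one -/
noncomputable def em (τ : E →ₐ[ℚ_[p]] PadicAlgCl p) (x : E) (hx : nE p x ≤ 1) : OO p :=
  ⟨τ x, mem_OO.2 (by rw [norm_eq_nE]; exact hx)⟩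

/-- **The reduction of the characteristic polynomial.** -/
theorem exists_Q (ρ : OO p →+* AlgebraicClosure (ZMod p))
    (hρ : ∀ c : ℤ_[p], ρ (zO c) = algebraMap (ZMod p) (AlgebraicClosure (ZMod p)) (PadicInt.toZMod c))
    (z : E) (hz : nE p z ≤ 1) :
    ∃ Q : (ZMod p)[X], Q.Monic ∧ Q.natDegree = Module.finrank ℚ_[p] E ∧
      Q.map (algebraMap (ZMod p) (AlgebraicClosure (ZMod p))) =
        ∏ τ : E →ₐ[ℚ_[p]] PadicAlgCl p, (X - C (ρ (em τ z hz))) := by
  classical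
  set P : (OO p)[X] := ∏ τ : E →ₐ[ℚ_[p]] PadicAlgCl p, (X - C (em τ z hz)) with hP
  have hPΩ : P.map (OO p).subtype = ∏ τ : E →ₐ[ℚ_[p]] PadicAlgCl p, (X - C (τ z)) := by
    rw [hP, Polynomial.map_prod]
    refine Finset.prod_congr rfl fun τ _ => ?_
    rw [Polynomial.map_sub, map_X, map_C]
    rfl
  have hfix : ∀ (σ : PadicAlgCl p ≃ₐ[ℚ_[p]] PadicAlgCl p) (n : ℕ),
      σ ((P.coeff n : OO p) : PadicAlgCl p) = ((P.coeff n : OO p) : PadicAlgCl p) := by
    intro σ n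
    have h1 : (P.map (OO p).subtype).map (σ : PadicAlgCl p →+* PadicAlgCl p) = P.map (OO p).subtype := by
      rw [hPΩ, Polynomial.map_prod]
      let e : (E →ₐ[ℚ_[p]] PadicAlgCl p) ≃ (E →ₐ[ℚ_[p]] PadicAlgCl p) :=
        { toFun := fun τ => (σ : PadicAlgCl p →ₐ[ℚ_[p]] PadicAlgCl p).comp τ
          invFun := fun τ => (σ.symm : PadicAlgCl p →ₐ[ℚ_[p]] PadicAlgCl p).comp τ
          left_inv := fun τ => by
            ext x
            simp
          right_inv := fun τ => by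
            ext x
            simp }
      refine Fintype.prod_equiv e _ _ fun τ => ?_
      rw [Polynomial.map_sub, map_X, map_C]
      rfl
    have h2 := congrArg (fun q : (PadicAlgCl p)[X] => q.coeff n) h1
    simp only [coeff_map] at h2
    exact h2
  have hcoef : ∀ n, ∃ c : ℤ_[p], zO c = P.coeff n := by
    intro n
    obtain ⟨c, hc⟩ := Pool.Agent.TH954.base_of_fixed (L := ℚ_[p]) (fun σ => hfix σ n)
    have h1 : ‖c‖ ≤ 1 := by
      rw [← norm_algebraMap' (PadicAlgCl p) c, hc]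
      exact mem_OO.1 (P.coeff n).2
    exact ⟨⟨c, h1⟩, Subtype.ext hc⟩
  have hl : P.map ρ ∈ lifts (algebraMap (ZMod p) (AlgebraicClosure (ZMod p))) := by
    rw [lifts_iff_coeff_lifts]
    intro n
    obtain ⟨c, hc⟩ := hcoef n
    rw [coeff_map, ← hc, hρ]
    exact ⟨_, rfl⟩
  have hPm : P.Monic := monic_prod_of_monic _ _ fun τ _ => monic_X_sub_C _
  obtain ⟨Q, hQ1, hQ2, hQ3⟩ := lifts_and_natDegree_eq_and_monic hl (hPm.map ρ)
  refine ⟨Q, hQ3, ?_, ?_⟩
  · rw [hQ2, hPm.natDegree_map, hP, natDegree_prod_of_monic _ _ fun τ _ => monic_X_sub_C _]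
    simp only [natDegree_X_sub_C, sum_const, card_univ, smul_eq_mul, mul_one]
    exact card_emb
  · rw [hQ1, hP, Polynomial.map_prod]
    refine Finset.prod_congr rfl fun τ _ => ?_
    rw [Polynomial.map_sub, map_X, map_C]

end

end Pool.Agent.R925.ZC
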