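import Pool.Agent.R925.ZC.Main
import Pool.Agent.R925.FD.Two

/-! Classes of zero-cycles: two rational zeros; products of three quadratic polynomials. -/

set_option autoImplicit false
set_option linter.unusedSectionVars false

namespace Pool.Agent.R925.ZC

open Finset Polynomial Pool.Agent.R925.FD

/-- two families of square roots -/
lemma union_two {K : Type} (A B δ : K → ℚ) (hA : ∀ k, A k ≠ 0) (hB : ∀ k, B k ≠ 0)
    (hδ : ∀ k, δ k ≠ 0)
    (hper : ∀ σ : AlgebraicClosure ℚ ≃ₐ[ℚ] AlgebraicClosure ℚ,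
      (∀ k, ∃ y, σ y = y ∧ ((A k : ℚ) : AlgebraicClosure ℚ) = (δ k : AlgebraicClosure ℚ) * y ^ 2) ∨
      (∀ k, ∃ y, σ y = y ∧ ((B k : ℚ) : AlgebraicClosure ℚ) = (δ k : AlgebraicClosure ℚ) * y ^ 2)) :
    (∀ k, IsSquare (δ k * A k)) ∨ ∀ k, IsSquare (δ k * B k) := by
  by_contra hcon
  rw [not_or] at hcon
  obtain ⟨hc1, hc2⟩ := hcon
  push Not at hc1 hc2
  obtain ⟨k₁, hk₁⟩ := hc1
  obtain ⟨k₂, hk₂⟩ := hc2
  have hsqrt : ∀ q : ℚ, ∃ x : AlgebraicClosure ℚ, x ^ 2 = (q : AlgebraicClosure ℚ) := fun q => by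
    obtain ⟨x, hx⟩ := IsAlgClosed.exists_pow_nat_eq (q : AlgebraicClosure ℚ) (n := 2) (by norm_num)
    exact ⟨x, hx⟩
  have hns : ∀ (k : K) (A : ℚ), ¬ IsSquare (δ k * A) → ¬ IsSquare (A / δ k) := by
    rintro k A hA ⟨r, hr⟩
    apply hA
    refine ⟨δ k * r, ?_⟩
    have h3 := hδ k
    rw [div_eq_iff h3] at hr
    rw [hr]
    ring
  obtain ⟨x, hx⟩ := hsqrt (A k₁ / δ k₁)
  obtain ⟨y, hy⟩ := hsqrt (B k₂ / δ k₂)
  obtain ⟨σ, -, hσx, hσy⟩ := two hx hy (fun _ => True) (fun _ _ _ _ => trivial)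
    (by obtain ⟨σ, hσ⟩ := exists_neg x _ hx (hns _ _ hk₁); exact ⟨σ, trivial, hσ⟩)
    (by obtain ⟨σ, hσ⟩ := exists_neg y _ hy (hns _ _ hk₂); exact ⟨σ, trivial, hσ⟩)
  have key : ∀ (k : K) (A : ℚ) (u : AlgebraicClosure ℚ), A ≠ 0 →
      u ^ 2 = ((A / δ k : ℚ) : AlgebraicClosure ℚ) → σ u = -u →
      (∃ y, σ y = y ∧ (A : AlgebraicClosure ℚ) = (δ k : AlgebraicClosure ℚ) * y ^ 2) → False := by
    intro k A u hA hu hσu ⟨v, hσv, hv⟩
    have hδW : (δ k : AlgebraicClosure ℚ) ≠ 0 := Rat.cast_ne_zero.2 (hδ k)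
    have hu0 : u ≠ 0 := by
      rintro rfl
      rw [zero_pow two_ne_zero] at hu
      have h3 : (A / δ k : ℚ) = 0 := by exact_mod_cast hu.symm
      exact div_ne_zero hA (hδ k) h3
    refine moved (x := u) (y := v) ?_ hσu hu0 hσv
    rw [hu]
    push_cast
    rw [eq_div_iff hδW, mul_comm, ← hv]
  rcases hper σ with h3 | h3
  · exact key k₁ _ x (hA k₁) hx hσx (h3 k₁)
  · exact key k₂ _ y (hB k₂) hy hσy (h3 k₂)

variable {K : Type}

lemma aeval_rat (f : ℤ[X]) (α : ℚ) :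
    aeval (α : AlgebraicClosure ℚ) f = ((aeval α f : ℚ) : AlgebraicClosure ℚ) := by
  have h1 : algebraMap ℤ (AlgebraicClosure ℚ) = Int.castRingHom (AlgebraicClosure ℚ) :=
    RingHom.ext_int _ _
  have h2 : algebraMap ℤ ℚ = Int.castRingHom ℚ := RingHom.ext_int _ _
  rw [aeval_def, aeval_def, h1, h2]
  have h3 := hom_eval₂ f (Int.castRingHom ℚ) (Rat.castHom (AlgebraicClosure ℚ)) α
  have h4 : (Rat.castHom (AlgebraicClosure ℚ)).comp (Int.castRingHom ℚ) =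
      Int.castRingHom (AlgebraicClosure ℚ) := RingHom.ext_int _ _
  rw [h4] at h3
  exact h3.symm

/-- the subsets of a set of two elements -/
lemma subsets_two {W : Type} [DecidableEq W] (S : Finset W) (x y : W) (h : ∀ β ∈ S, β = x ∨ β = y) :
    S = ∅ ∨ S = {x} ∨ S = {y} ∨ (x ≠ y ∧ S = {x, y}) := by
  by_cases hx : x ∈ S
  · by_cases hy : y ∈ S
    · by_cases hxy : x = y
      · right; left
        ext β
        rw [Finset.mem_singleton]
        refine ⟨fun hβ => ?_, fun hβ => hβ ▸ hx⟩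
        rcases h β hβ with h1 | h1
        · exact h1
        · rw [h1, hxy]
      · right; right; right
        refine ⟨hxy, ?_⟩
        ext β
        rw [Finset.mem_insert, Finset.mem_singleton]
        refine ⟨h β, fun hβ => ?_⟩
        rcases hβ with rfl | rfl
        · exact hx
        · exact hy
    · right; left
      ext β
      rw [Finset.mem_singleton]
      refine ⟨fun hβ => ?_, fun hβ => hβ ▸ hx⟩
      rcases h β hβ with h1 | h1
      · exact h1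
      · exact absurd (h1 ▸ hβ) hy
  · by_cases hy : y ∈ S
    · right; right; left
      ext β
      rw [Finset.mem_singleton]
      refine ⟨fun hβ => ?_, fun hβ => hβ ▸ hy⟩
      rcases h β hβ with h1 | h1
      · exact absurd (h1 ▸ hβ) hx
      · exact h1
    · left
      ext β
      refine ⟨fun hβ => ?_, fun hβ => absurd hβ (Finset.notMem_empty β)⟩
      rcases h β hβ with h1 | h1
      · exact absurd (h1 ▸ hβ) hx
      · exact absurd (h1 ▸ hβ) hy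

/-- two rational zeros, odd degree -/
theorem zpers_odd (g : K → ℤ[X]) (h : ℤ[X]) (α₁ α₂ : ℚ)
    (hz : ∀ β : AlgebraicClosure ℚ, aeval β h = 0 → β = α₁ ∨ β = α₂)
    (h1 : ∀ k, aeval α₁ (g k) ≠ 0) (h2 : ∀ k, aeval α₂ (g k) ≠ 0) (δ : K → ℚ) (hδ : ∀ k, δ k ≠ 0)
    {d : ℤ} (hd : Odd d) (hper : ZPersistent d g h δ) :
    (∀ k, IsSquare (δ k * aeval α₁ (g k))) ∨ ∀ k, IsSquare (δ k * aeval α₂ (g k)) := by
  classical
  apply union_two _ _ δ h1 h2 hδ
  intro σ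
  obtain ⟨S, hS1, hS2, hS3⟩ := hper σ
  have hS1' : ¬ Even S.card := fun h => Int.not_even_iff_odd.2 hd (hS1.1 h)
  rcases subsets_two S _ _ fun β hβ => hz β (hS2 β hβ).1 with rfl | rfl | rfl | ⟨hne, rfl⟩
  · exact absurd (by simp) hS1'
  · left
    intro k
    obtain ⟨y, hy1, hy2⟩ := hS3 k
    rw [Finset.prod_singleton, aeval_rat] at hy2
    exact ⟨y, hy1, hy2⟩
  · right
    intro k
    obtain ⟨y, hy1, hy2⟩ := hS3 k
    rw [Finset.prod_singleton, aeval_rat] at hy2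
    exact ⟨y, hy1, hy2⟩
  · exact absurd (by rw [Finset.card_pair hne]; exact even_two) hS1'

/-- two rational zeros, even degree -/
theorem zpers_even (g : K → ℤ[X]) (h : ℤ[X]) (α₁ α₂ : ℚ)
    (hz : ∀ β : AlgebraicClosure ℚ, aeval β h = 0 → β = α₁ ∨ β = α₂)
    (h1 : ∀ k, aeval α₁ (g k) ≠ 0) (h2 : ∀ k, aeval α₂ (g k) ≠ 0) (δ : K → ℚ) (hδ : ∀ k, δ k ≠ 0)
    {d : ℤ} (hd : Even d) (hper : ZPersistent d g h δ) :
    (∀ k, IsSquare (δ k * 1)) ∨ ∀ k, IsSquare (δ k * (aeval α₁ (g k) * aeval α₂ (g k))) := by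
  classical
  apply union_two (fun _ => 1) (fun k => aeval α₁ (g k) * aeval α₂ (g k)) δ
    (fun _ => one_ne_zero) (fun k => mul_ne_zero (h1 k) (h2 k)) hδ
  intro σ
  obtain ⟨S, hS1, hS2, hS3⟩ := hper σ
  have hS1' : Even S.card := hS1.2 hd
  rcases subsets_two S _ _ fun β hβ => hz β (hS2 β hβ).1 with rfl | rfl | rfl | ⟨hne, rfl⟩
  · left
    intro k
    obtain ⟨y, hy1, hy2⟩ := hS3 k
    rw [Finset.prod_empty] at hy2
    exact ⟨y, hy1, by rw [← hy2, Rat.cast_one]⟩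
  · rw [Finset.card_singleton] at hS1'
    exact absurd hS1' (by decide)
  · rw [Finset.card_singleton] at hS1'
    exact absurd hS1' (by decide)
  · right
    intro k
    obtain ⟨y, hy1, hy2⟩ := hS3 k
    rw [Finset.prod_pair hne, aeval_rat, aeval_rat] at hy2
    exact ⟨y, hy1, by rw [← hy2, Rat.cast_mul]⟩

/-- a set stable under `β ↦ -β` -/
lemma even_of_neg {W : Type} [Field W] [CharZero W] [DecidableEq W] (T : Finset W)
    (hT : ∀ β ∈ T, -β ∈ T) (h0 : ∀ β ∈ T, β ≠ 0) : Even T.card := by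
  have h1 : ∑ β ∈ T, (1 : ZMod 2) = 0 := by
    refine Finset.sum_involution (fun β _ => -β) ?_ ?_ ?_ ?_
    · intro β _
      decide
    · intro β hβ _ h2
      exact h0 β hβ (self_eq_neg.1 h2.symm)
    · intro β hβ
      exact hT β hβ
    · intro β _
      exact neg_neg β
  rw [Finset.sum_const, nsmul_one, ZMod.natCast_eq_zero_iff] at h1
  exact even_iff_two_dvd.2 h1

lemma neg_of_sq {W : Type} [Field W] {x y : W} {F : Type} [FunLike F W W] [RingHomClass F W W] (σ : F)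
    (h : y ^ 2 = x ^ 2) (hσ : σ x = -x) : σ y = -y := by
  rcases sq_eq_sq_iff_eq_or_eq_neg.1 h with h2 | h2
  · rw [h2, hσ]
  · rw [h2, map_neg, hσ]

/-- **Three quadratic polynomials.** If `σ` fixes a square root of `A₁` and changes the signs of the
square roots of `A₂`, `A₃` and of `(A₁ + c) / δ`, there is no cycle of odd degree. -/
lemma three_aux {A₁ A₂ A₃ c δ : ℚ} (hδ : δ ≠ 0) (h1 : A₁ + c ≠ 0)
    {x₂ x₃ w : AlgebraicClosure ℚ} (hx₂ : x₂ ^ 2 = (A₂ : AlgebraicClosure ℚ))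
    (hx₃ : x₃ ^ 2 = (A₃ : AlgebraicClosure ℚ)) (hA₂ : A₂ ≠ 0) (hA₃ : A₃ ≠ 0)
    (h2 : A₂ + c ≠ 0) (h3 : A₃ + c ≠ 0) (h12 : A₁ ≠ A₂) (h13 : A₁ ≠ A₃) (h23 : A₂ ≠ A₃)
    (hw : w ^ 2 = (((A₁ + c) / δ : ℚ) : AlgebraicClosure ℚ))
    (σ : AlgebraicClosure ℚ ≃ₐ[ℚ] AlgebraicClosure ℚ) (hσ₂ : σ x₂ = -x₂) (hσ₃ : σ x₃ = -x₃)
    (hσw : σ w = -w) (S : Finset (AlgebraicClosure ℚ)) (hS : Odd S.card)
    (hS' : ∀ β ∈ S, (β ^ 2 = (A₁ : AlgebraicClosure ℚ) ∨ β ^ 2 = (A₂ : AlgebraicClosure ℚ) ∨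
      β ^ 2 = (A₃ : AlgebraicClosure ℚ)) ∧ σ β ∈ S)
    {y : AlgebraicClosure ℚ} (hy : σ y = y)
    (hp : ∏ β ∈ S, (β ^ 2 + (c : AlgebraicClosure ℚ)) = (δ : AlgebraicClosure ℚ) * y ^ 2) :
    False := by
  classical
  set T : ℚ → Finset (AlgebraicClosure ℚ) := fun A => S.filter (fun β => β ^ 2 = (A : AlgebraicClosure ℚ))
    with hT
  have hdisj : ∀ {A B : ℚ}, A ≠ B → Disjoint (T A) (T B) := by
    intro A B hAB
    rw [Finset.disjoint_left]
    intro β h4 h5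
    rw [hT, mem_filter] at h4 h5
    rw [h4.2] at h5
    exact hAB (by exact_mod_cast h5.2)
  have hSu : S = T A₁ ∪ (T A₂ ∪ T A₃) := by
    ext β
    rw [mem_union, mem_union, hT, mem_filter, mem_filter, mem_filter]
    refine ⟨fun h4 => ?_, ?_⟩
    · rcases (hS' β h4).1 with h5 | h5 | h5
      · exact Or.inl ⟨h4, h5⟩
      · exact Or.inr (Or.inl ⟨h4, h5⟩)
      · exact Or.inr (Or.inr ⟨h4, h5⟩)
    · rintro (h4 | h4 | h4)
      · exact h4.1
      · exact h4.1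
      · exact h4.1
  have hd1 : Disjoint (T A₁) (T A₂ ∪ T A₃) := by
    rw [disjoint_union_right]
    exact ⟨hdisj h12, hdisj h13⟩
  have heven : ∀ {A : ℚ} {x : AlgebraicClosure ℚ}, A ≠ 0 → x ^ 2 = (A : AlgebraicClosure ℚ) →
      σ x = -x → Even (T A).card := by
    intro A x hA hx hσx
    apply even_of_neg
    · intro β hβ
      rw [hT, mem_filter] at hβ ⊢
      have h5 : σ β = -β := neg_of_sq σ (by rw [hβ.2, hx]) hσx
      refine ⟨by rw [← h5]; exact (hS' β hβ.1).2, by rw [neg_sq]; exact hβ.2⟩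
    · rintro β hβ rfl
      rw [hT, mem_filter, zero_pow two_ne_zero] at hβ
      exact hA (by exact_mod_cast hβ.2.symm)
  have he2 := heven hA₂ hx₂ hσ₂
  have he3 := heven hA₃ hx₃ hσ₃
  have hcard : S.card = (T A₁).card + ((T A₂).card + (T A₃).card) := by
    conv_lhs => rw [hSu]
    rw [card_union_of_disjoint hd1, card_union_of_disjoint (hdisj h23)]
  have ho1 : Odd (T A₁).card := by
    rw [hcard] at hS
    exact (Nat.odd_add.1 hS).2 (he2.add he3)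
  have hprodT : ∀ A : ℚ, ∏ β ∈ T A, (β ^ 2 + (c : AlgebraicClosure ℚ)) =
      (((A + c) ^ (T A).card : ℚ) : AlgebraicClosure ℚ) := by
    intro A
    rw [Finset.prod_congr rfl (g := fun _ => ((A + c : ℚ) : AlgebraicClosure ℚ)), Finset.prod_const,
      Rat.cast_pow]
    intro β hβ
    rw [hT, mem_filter] at hβ
    rw [hβ.2, Rat.cast_add]
  obtain ⟨j1, hj1⟩ := ho1
  obtain ⟨j2, hj2⟩ := he2
  obtain ⟨j3, hj3⟩ := he3
  set r : ℚ := (A₁ + c) ^ j1 * (A₂ + c) ^ j2 * (A₃ + c) ^ j3 with hr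
  have hr0 : r ≠ 0 := mul_ne_zero (mul_ne_zero (pow_ne_zero _ h1) (pow_ne_zero _ h2))
    (pow_ne_zero _ h3)
  have hprod : ∏ β ∈ S, (β ^ 2 + (c : AlgebraicClosure ℚ)) =
      (((A₁ + c) * r ^ 2 : ℚ) : AlgebraicClosure ℚ) := by
    conv_lhs => rw [hSu]
    rw [prod_union hd1, prod_union (hdisj h23), hprodT, hprodT, hprodT, ← Rat.cast_mul,
      ← Rat.cast_mul]
    congr 1
    rw [hj1, hj2, hj3, hr]
    ring
  rw [hprod] at hp
  have hδW : (δ : AlgebraicClosure ℚ) ≠ 0 := Rat.cast_ne_zero.2 hδ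
  have hrW : (r : AlgebraicClosure ℚ) ≠ 0 := Rat.cast_ne_zero.2 hr0
  have hw0 : w ≠ 0 := by
    rintro rfl
    rw [zero_pow two_ne_zero] at hw
    have h4 : ((A₁ + c) / δ : ℚ) = 0 := by exact_mod_cast hw.symm
    exact div_ne_zero h1 hδ h4
  refine moved (x := w) (y := y / r) ?_ hσw hw0 ?_
  · rw [hw, div_pow]
    push_cast at hp ⊢
    field_simp
    linear_combination -hp
  · rw [map_div₀, hy, map_ratCast]

/-- If the zeros of `h` are the square roots of `A`, `B`, `A * B`, and `g k₀ = z ^ 2 + c`, where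
`(A + c) * (B + c)` is not a square in `ℚ(√A, √B)`, there are no persistent classes of odd degree. -/
theorem not_zpers (g : K → ℤ[X]) (h : ℤ[X]) (k₀ : K) (A B c : ℚ) (hA : ¬ IsSquare A)
    (hB : ¬ IsSquare B) (hAB : ¬ IsSquare (A * B))
    (hz : ∀ β : AlgebraicClosure ℚ, aeval β h = 0 → β ^ 2 = (A : AlgebraicClosure ℚ) ∨
      β ^ 2 = (B : AlgebraicClosure ℚ) ∨ β ^ 2 = ((A * B : ℚ) : AlgebraicClosure ℚ))
    (hg : ∀ β : AlgebraicClosure ℚ, aeval β (g k₀) = β ^ 2 + (c : AlgebraicClosure ℚ))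
    (h1 : A + c ≠ 0) (h2 : B + c ≠ 0) (h3 : A * B + c ≠ 0)
    (hv : ∀ e, (e = 1 ∨ e = A ∨ e = B ∨ e = A * B) → ¬ IsSquare (e * ((A + c) * (B + c))))
    (δ : K → ℚ) (hδ : δ k₀ ≠ 0) {d : ℤ} (hd : Odd d) : ¬ ZPersistent d g h δ := by
  classical
  intro hper
  have hsqrt : ∀ q : ℚ, ∃ x : AlgebraicClosure ℚ, x ^ 2 = (q : AlgebraicClosure ℚ) := fun q => by
    obtain ⟨x, hx⟩ := IsAlgClosed.exists_pow_nat_eq (q : AlgebraicClosure ℚ) (n := 2) (by norm_num)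
    exact ⟨x, hx⟩
  obtain ⟨x, hx⟩ := hsqrt A
  obtain ⟨y, hy⟩ := hsqrt B
  have hxy : (x * y) ^ 2 = ((A * B : ℚ) : AlgebraicClosure ℚ) := by
    rw [mul_pow, hx, hy, Rat.cast_mul]
  have hA0 : A ≠ 0 := by
    rintro rfl
    exact hA ⟨0, by norm_num⟩
  have hB0 : B ≠ 0 := by
    rintro rfl
    exact hB ⟨0, by norm_num⟩
  have hne1 : A ≠ B := by
    rintro rfl
    exact hAB ⟨A, rfl⟩
  have hne2 : A ≠ A * B := by
    intro h4
    have h5 : B = 1 := by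
      have h6 : A * B = A * 1 := by rw [← h4, mul_one]
      exact mul_left_cancel₀ hA0 h6
    exact hB ⟨1, by rw [h5]; norm_num⟩
  have hne3 : B ≠ A * B := by
    intro h4
    have h5 : A = 1 := by
      have h6 : A * B = 1 * B := by rw [← h4, one_mul]
      exact mul_right_cancel₀ hB0 h6
    exact hA ⟨1, by rw [h5]; norm_num⟩
  have hfin : ∀ σ : AlgebraicClosure ℚ ≃ₐ[ℚ] AlgebraicClosure ℚ, ∃ S : Finset (AlgebraicClosure ℚ),
      Odd S.card ∧ (∀ β ∈ S, (β ^ 2 = (A : AlgebraicClosure ℚ) ∨ β ^ 2 = (B : AlgebraicClosure ℚ) ∨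
        β ^ 2 = ((A * B : ℚ) : AlgebraicClosure ℚ)) ∧ σ β ∈ S) ∧ ∃ u, σ u = u ∧
        ∏ β ∈ S, (β ^ 2 + (c : AlgebraicClosure ℚ)) = (δ k₀ : AlgebraicClosure ℚ) * u ^ 2 := by
    intro σ
    obtain ⟨S, hS1, hS2, hS3⟩ := hper σ
    obtain ⟨u, hu1, hu2⟩ := hS3 k₀
    refine ⟨S, ?_, fun β hβ => ⟨hz β (hS2 β hβ).1, (hS2 β hβ).2⟩, u, hu1, ?_⟩
    · rw [← Nat.not_even_iff_odd]
      exact fun h => Int.not_even_iff_odd.2 hd (hS1.1 h)
    · rw [← hu2]
      exact Finset.prod_congr rfl fun β _ => (hg β).symm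
  by_cases hcase : ¬ IsSquare ((A + c) / δ k₀) ∧ ¬ IsSquare ((A + c) / δ k₀ * A)
  · obtain ⟨w, hw⟩ := hsqrt ((A + c) / δ k₀)
    obtain ⟨σ, hσx, hσy, hσw⟩ := fix_neg_neg (x := y) (y := w) (t := x) hy hw hx hB
      (by rw [mul_comm]; exact hAB) hcase.1 hcase.2
    obtain ⟨S, hS1, hS2, u, hu1, hu2⟩ := hfin σ
    exact three_aux hδ h1 hy hxy hB0 (mul_ne_zero hA0 hB0) h2 h3 hne1 hne2 hne3 hw σ hσy
      (by rw [map_mul, hσx, hσy, mul_neg]) hσw S hS1 hS2 hu1 hu2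
  · have hcase2 : ¬ IsSquare ((B + c) / δ k₀) ∧ ¬ IsSquare ((B + c) / δ k₀ * B) := by
      rw [not_and_or, not_not, not_not] at hcase
      obtain ⟨e₁, he₁, r, hr⟩ : ∃ e₁, (e₁ = 1 ∨ e₁ = A) ∧ ∃ r, (A + c) / δ k₀ * e₁ = r * r := by
        rcases hcase with ⟨r, hr⟩ | ⟨r, hr⟩
        · exact ⟨1, Or.inl rfl, r, by rw [mul_one]; exact hr⟩
        · exact ⟨A, Or.inr rfl, r, hr⟩
      have key : ∀ e₂, (e₂ = 1 ∨ e₂ = B) → ¬ IsSquare ((B + c) / δ k₀ * e₂) := by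
        rintro e₂ he₂ ⟨u, hu⟩
        apply hv (e₁ * e₂) (by
          rcases he₁ with rfl | rfl <;> rcases he₂ with rfl | rfl <;> simp)
        refine ⟨r * u * δ k₀, ?_⟩
        have h5 : (A + c) * e₁ = r * r * δ k₀ := by
          rw [← hr]
          field_simp
        have h6 : (B + c) * e₂ = u * u * δ k₀ := by
          rw [← hu]
          field_simp
        calc e₁ * e₂ * ((A + c) * (B + c)) = ((A + c) * e₁) * ((B + c) * e₂) := by ring
          _ = _ := by rw [h5, h6]; ring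
      exact ⟨by have := key 1 (Or.inl rfl); rwa [mul_one] at this, key B (Or.inr rfl)⟩
    obtain ⟨w, hw⟩ := hsqrt ((B + c) / δ k₀)
    obtain ⟨σ, hσy, hσx, hσw⟩ := fix_neg_neg (x := x) (y := w) (t := y) hx hw hy hA hAB
      hcase2.1 hcase2.2
    obtain ⟨S, hS1, hS2, u, hu1, hu2⟩ := hfin σ
    refine three_aux hδ h2 hx hxy hA0 (mul_ne_zero hA0 hB0) h1 h3 hne1.symm hne3 hne2 hw σ hσx
      (by rw [map_mul, hσx, hσy, neg_mul]) hσw S hS1 (fun β hβ => ⟨?_, (hS2 β hβ).2⟩) hu1 hu2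
    rcases (hS2 β hβ).1 with h5 | h5 | h5
    · exact Or.inr (Or.inl h5)
    · exact Or.inl h5
    · exact Or.inr (Or.inr h5)

/-- the example has no persistent classes of odd degree -/
theorem ex_not_zpers (δ : Fin 2 → ℚ) (hδ : δ 0 ≠ 0) {d : ℤ} (hd : Odd d) :
    ¬ ZPersistent d exg exh δ := by
  have h34 : ¬ IsSquare (34 : ℚ) := by
    rw [show (34 : ℚ) = ((34 : ℕ) : ℚ) from rfl, Rat.isSquare_natCast_iff]
    rintro ⟨r, hr⟩
    have : r < 6 := by nlinarith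
    interval_cases r <;> omega
  have h2 : ¬ IsSquare (2 : ℚ) := by
    rw [show (2 : ℚ) = ((2 : ℕ) : ℚ) from rfl, Rat.isSquare_natCast_iff]
    exact Nat.prime_two.prime.not_isSquare
  have h17 : ¬ IsSquare (17 : ℚ) := by
    rw [show (17 : ℚ) = ((17 : ℕ) : ℚ) from rfl, Rat.isSquare_natCast_iff]
    exact (by norm_num : Nat.Prime 17).prime.not_isSquare
  refine not_zpers exg exh 0 (-1) 17 51 (nonsq_of_neg (by norm_num)) h17
    (nonsq_of_neg (by norm_num)) ?_ ?_ (by norm_num) (by norm_num) (by norm_num) ?_ δ hδ hd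
  · intro β hβ
    rcases aeval_exh β hβ with h | h | h
    · left; rw [h]; push_cast; rfl
    · right; left; rw [h]; push_cast; rfl
    · right; right; rw [h]; push_cast; norm_num
  · intro β
    rw [aeval_exg0]
    push_cast
    rfl
  · rintro e (rfl | rfl | rfl | rfl)
    · rintro ⟨r, hr⟩
      exact h34 ⟨r / 10, by linarith [show r / 10 * (r / 10) = r * r / 100 by ring]⟩
    · exact nonsq_of_neg (by norm_num)
    · rintro ⟨r, hr⟩
      exact h2 ⟨r / 170, by linarith [show r / 170 * (r / 170) = r * r / 28900 by ring]⟩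
    · exact nonsq_of_neg (by norm_num)

end Pool.Agent.R925.ZC
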