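import Pool.Agent.R925.ZC.Unr
import Pool.Agent.R925.FD.BM

/-! Points over finite extensions of `ℚ_p`. -/

set_option autoImplicit false
set_option linter.unusedSectionVars false

namespace Pool.Agent.R925.ZC

open Polynomial Finset Pool.Agent.R925.FD

/-- Coprime polynomials have no common zero modulo large primes, also at infinity. -/
lemma coprime_modF (f₁ f₂ : ℤ[X]) (h0 : f₁ ≠ 0)
    (h : IsCoprime (f₁.map (Int.castRingHom ℚ)) (f₂.map (Int.castRingHom ℚ))) :
    ∃ N : ℕ, 0 < N ∧ ∀ p : ℕ, ¬ p ∣ N → ∀ (F : Type) [Field F] [CharP F p] (u v : F),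
      (u ≠ 0 ∨ v ≠ 0) → hom f₁ u v = 0 → hom f₂ u v ≠ 0 := by
  obtain ⟨a, b, hab⟩ := h
  obtain ⟨da, hdam, hda⟩ := IsLocalization.integerNormalization_spec (nonZeroDivisors ℤ) a
  obtain ⟨db, hdbm, hdb⟩ := IsLocalization.integerNormalization_spec (nonZeroDivisors ℤ) b
  set a' := IsLocalization.integerNormalization (nonZeroDivisors ℤ) a
  set b' := IsLocalization.integerNormalization (nonZeroDivisors ℤ) b
  have hda' : map (Int.castRingHom ℚ) a' = C ((da : ℤ) : ℚ) * a := by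
    rw [← algebraMap_int_eq, hda, zsmul_eq_mul, map_intCast (C : ℚ →+* ℚ[X])]
  have hdb' : map (Int.castRingHom ℚ) b' = C ((db : ℤ) : ℚ) * b := by
    rw [← algebraMap_int_eq, hdb, zsmul_eq_mul, map_intCast (C : ℚ →+* ℚ[X])]
  have hrel : C db * a' * f₁ + C da * b' * f₂ = C (da * db) := by
    apply Polynomial.map_injective (Int.castRingHom ℚ) (Int.castRingHom ℚ).injective_int
    rw [Polynomial.map_add, Polynomial.map_mul, Polynomial.map_mul, Polynomial.map_mul,
      Polynomial.map_mul, hda', hdb', map_C, map_C, map_C]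
    simp only [eq_intCast, Int.cast_mul, C_mul]
    linear_combination (C ((da : ℤ) : ℚ) * C ((db : ℤ) : ℚ)) * hab
  have hd : da * db ≠ 0 := mul_ne_zero (nonZeroDivisors.ne_zero hdam) (nonZeroDivisors.ne_zero hdbm)
  have hlc : f₁.leadingCoeff ≠ 0 := leadingCoeff_ne_zero.2 h0
  refine ⟨(f₁.leadingCoeff * (da * db)).natAbs, Int.natAbs_pos.2 (mul_ne_zero hlc hd), ?_⟩
  intro p hN F _ _ u v huv h1 h2
  have hN' : ¬ (p : ℤ) ∣ f₁.leadingCoeff * (da * db) := fun h => hN (Int.natCast_dvd.1 h)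
  by_cases hv : v = 0
  · subst hv
    rw [hom_zero_right] at h1
    have hu : u ≠ 0 := huv.resolve_right (fun h => h rfl)
    rcases mul_eq_zero.1 h1 with h3 | h3
    · apply hN'
      exact Dvd.dvd.mul_right ((CharP.intCast_eq_zero_iff F p _).1 h3) _
    · exact pow_ne_zero _ hu h3
  · rw [hom_div _ _ hv] at h1 h2
    have hvn : ∀ n : ℕ, v ^ n ≠ 0 := fun n => pow_ne_zero n hv
    have h3 := (mul_eq_zero.1 h1).resolve_left (hvn _)
    have h4 := (mul_eq_zero.1 h2).resolve_left (hvn _)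
    have h5 := congrArg (eval₂ (Int.castRingHom F) (u / v)) hrel
    rw [eval₂_add, eval₂_mul, eval₂_mul (q := f₂), h3, h4, mul_zero, mul_zero, add_zero,
      eval₂_C, eq_intCast] at h5
    apply hN'
    exact Dvd.dvd.mul_left ((CharP.intCast_eq_zero_iff F p _).1 h5.symm) _

/-- the conditions on the primes -/
def GoodP {K : Type} (b : ℤ) (g : K → ℤ[X]) (h : ℤ[X]) (p : ℕ) : Prop :=
  p ≠ 2 ∧ ¬ (p : ℤ) ∣ b ∧ ¬ (p : ℤ) ∣ h.leadingCoeff ∧
  ∀ (F : Type) [Field F] [CharP F p] (u v : F), (u ≠ 0 ∨ v ≠ 0) →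
      (∀ k l, k ≠ l → hom (g k) u v = 0 → hom (g l) u v ≠ 0) ∧
      ∀ k, hom h u v = 0 → hom (g k) u v ≠ 0

lemma exists_good {K : Type} [Fintype K] [DecidableEq K] (b : ℤ) (hb : b ≠ 0) (g : K → ℤ[X])
    (h : ℤ[X]) (hg0 : ∀ k, g k ≠ 0) (hh0 : h ≠ 0)
    (hgg : ∀ k l, k ≠ l →
      IsCoprime ((g k).map (Int.castRingHom ℚ)) ((g l).map (Int.castRingHom ℚ)))
    (hgh : ∀ k, IsCoprime (h.map (Int.castRingHom ℚ)) ((g k).map (Int.castRingHom ℚ))) :
    ∃ N : ℕ, 0 < N ∧ ∀ p : ℕ, ¬ p ∣ N → GoodP b g h p := by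
  classical
  choose N1 hN1 hN1' using fun k => coprime_modF h (g k) hh0 (hgh k)
  choose N2 hN2 hN2' using fun x : {x : K × K // x.1 ≠ x.2} =>
    coprime_modF (g x.1.1) (g x.1.2) (hg0 _) (hgg _ _ x.2)
  have hlc : h.leadingCoeff ≠ 0 := leadingCoeff_ne_zero.2 hh0
  refine ⟨2 * b.natAbs * h.leadingCoeff.natAbs * ((∏ k, N1 k) * ∏ x, N2 x),
    Nat.mul_pos (Nat.mul_pos (Nat.mul_pos two_pos (Int.natAbs_pos.2 hb)) (Int.natAbs_pos.2 hlc))
    (Nat.mul_pos (Finset.prod_pos fun k _ => hN1 k) (Finset.prod_pos fun x _ => hN2 x)), ?_⟩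
  intro p hpN
  refine ⟨?_, ?_, ?_, ?_⟩
  · rintro rfl
    exact hpN (((Dvd.intro _ rfl : 2 ∣ 2 * b.natAbs).trans (Dvd.intro _ rfl)).trans (Dvd.intro _ rfl))
  · intro h1
    exact hpN ((((Int.natCast_dvd.1 h1).trans (Dvd.intro_left _ rfl)).trans (Dvd.intro _ rfl)).trans
      (Dvd.intro _ rfl))
  · intro h1
    exact hpN (((Int.natCast_dvd.1 h1).trans (Dvd.intro_left _ rfl)).trans (Dvd.intro _ rfl))
  · intro F _ _ u v huv
    refine ⟨fun k l hkl => ?_, fun k => ?_⟩
    · refine hN2' ⟨(k, l), hkl⟩ p (fun h1 => hpN ?_) F u v huv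
      exact ((h1.trans (dvd_prod_of_mem N2 (mem_univ _))).trans (Dvd.intro_left _ rfl)).trans
        (Dvd.intro_left _ rfl)
    · refine hN1' k p (fun h1 => hpN ?_) F u v huv
      exact ((h1.trans (dvd_prod_of_mem N1 (mem_univ k))).trans (Dvd.intro _ rfl)).trans
        (Dvd.intro_left _ rfl)

section

variable {p : ℕ} [hp : Fact p.Prime] {E : Type} [Field E] [Algebra ℚ_[p] E]
  [FiniteDimensional ℚ_[p] E]

/-- primitive coordinates -/
lemma primE {z w : E} (hzw : z ≠ 0 ∨ w ≠ 0) :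
    ∃ (c : E) (z' w' : OE p E), c ≠ 0 ∧ c * z = z' ∧ c * w = w' ∧ (z' = 1 ∨ w' = 1) := by
  by_cases h : nE p w ≤ nE p z
  · have hz : z ≠ 0 := by
      rintro rfl
      rw [nE_zero] at h
      have hw : w = 0 := nE_eq_zero.1 (le_antisymm h (nE_nonneg _))
      simp [hw] at hzw
    have hz' : 0 < nE p z := lt_of_le_of_ne (nE_nonneg _) (fun h => hz (nE_eq_zero.1 h.symm))
    refine ⟨z⁻¹, 1, ⟨z⁻¹ * w, mem_OE.2 ?_⟩, inv_ne_zero hz, ?_, rfl, Or.inl rfl⟩
    · rw [nE_mul, nE_inv, inv_mul_le_iff₀ hz', mul_one]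
      exact h
    · rw [inv_mul_cancel₀ hz]; rfl
  · push Not at h
    have hw' : 0 < nE p w := lt_of_le_of_lt (nE_nonneg _) h
    have hw : w ≠ 0 := by
      rintro rfl
      rw [nE_zero] at hw'
      exact lt_irrefl _ hw'
    refine ⟨w⁻¹, ⟨w⁻¹ * z, mem_OE.2 ?_⟩, 1, inv_ne_zero hw, rfl, ?_, Or.inr rfl⟩
    · rw [nE_mul, nE_inv, inv_mul_le_iff₀ hw', mul_one]
      exact h.le
    · rw [inv_mul_cancel₀ hw]; rfl

lemma hom_coeE (f : ℤ[X]) (z w : OE p E) : ((hom f z w : OE p E) : E) = hom f (z : E) w :=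
  hom_map f (OE p E).subtype z w

lemma nE_prod {ι : Type} (s : Finset ι) (f : ι → E) : nE p (∏ i ∈ s, f i) = ∏ i ∈ s, nE p (f i) := by
  unfold nE
  rw [map_prod, _root_.norm_prod]

lemma nE_int {a : ℤ} (ha : ¬ (p : ℤ) ∣ a) : nE p (a : E) = 1 := by
  have h1 : (a : E) = algebraMap ℚ_[p] E (a : ℚ_[p]) := by rw [map_intCast]
  rw [h1, nE_alg]
  refine le_antisymm (Padic.norm_int_le_one a) ?_
  by_contra hc
  rw [not_le, Padic.norm_intCast_lt_one_iff] at hc
  exact ha hc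

variable {K : Type} [Fintype K] [DecidableEq K] {b a : ℤ} {g : K → ℤ[X]} {h : ℤ[X]} {m : ℕ}

/-- The values are units times squares. -/
lemma value_unit (hG : GoodP b g h p) (hdeg : ∀ k, 2 ∣ (g k).natDegree) (P : Point m b a g h E)
    (k : K) : ∃ u s : E, nE p u = 1 ∧ s ≠ 0 ∧ value P k = u * s ^ 2 := by
  classical
  obtain ⟨ρ, hρ0, hρ⟩ := exists_rho p
  obtain ⟨τ⟩ : Nonempty (E →ₐ[ℚ_[p]] PadicAlgCl p) := inferInstance
  have hchar : CharP (AlgebraicClosure (ZMod p)) p :=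
    charP_of_injective_algebraMap (algebraMap (ZMod p) _).injective p
  obtain ⟨c, z', w', hc, hz, hw, hu⟩ := primE (p := p) P.ne
  have hu' : red ρ τ z' ≠ 0 ∨ red ρ τ w' ≠ 0 := by
    rcases hu with h1 | h1
    · left
      rw [h1, map_one]
      exact one_ne_zero
    · right
      rw [h1, map_one]
      exact one_ne_zero
  have hgood := hG.2.2.2 (AlgebraicClosure (ZMod p)) _ _ hu'
  choose e he using hdeg
  have hsc : ∀ l, ((hom (g l) z' w' : OE p E) : E) = hom (g l) P.z P.w * (c ^ e l) ^ 2 := by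
    intro l
    rw [hom_coeE, ← hz, ← hw, hom_mul, he, ← pow_mul, mul_comm (e l) 2, mul_comm]
  have hce : ∀ l, (c ^ e l) ≠ 0 := fun l => pow_ne_zero _ hc
  by_cases hk : hom (g k) (red ρ τ z') (red ρ τ w') = 0
  · have hoth : ∀ l ∈ univ.erase k, nE p ((hom (g l) z' w' : OE p E) : E) = 1 := by
      intro l hl
      have h1 := hgood.1 k l (ne_of_mem_erase hl).symm hk
      rw [← hom_map] at h1
      exact (red_ne hρ0 τ _).1 h1
    have hoth0 : ∀ l ∈ univ.erase k, hom (g l) P.z P.w ≠ 0 := by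
      intro l hl h1
      have h2 := hoth l hl
      rw [hsc, h1, zero_mul, nE_zero] at h2
      exact zero_ne_one h2
    have hprod : ∏ l ∈ univ.erase k, ((hom (g l) z' w' : OE p E) : E) =
        (∏ l ∈ univ.erase k, hom (g l) P.z P.w) * (∏ l ∈ univ.erase k, c ^ e l) ^ 2 := by
      rw [← Finset.prod_pow, ← Finset.prod_mul_distrib]
      exact Finset.prod_congr rfl fun l _ => hsc l
    have hc0 : (∏ l ∈ univ.erase k, c ^ e l) ≠ 0 := Finset.prod_ne_zero_iff.2 fun l _ => hce l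
    have hp0 : (∏ l ∈ univ.erase k, hom (g l) P.z P.w) ≠ 0 := Finset.prod_ne_zero_iff.2 hoth0
    set A := ∏ l ∈ univ.erase k, hom (g l) P.z P.w with hA
    set B := ∏ l ∈ univ.erase k, c ^ e l with hB
    have hnu : nE p ((b : E) * ∏ l ∈ univ.erase k, ((hom (g l) z' w' : OE p E) : E)) = 1 := by
      rw [nE_mul, nE_int hG.2.1, one_mul, nE_prod]
      exact Finset.prod_eq_one hoth
    by_cases h0 : hom (g k) P.z P.w = 0
    · refine ⟨_, B⁻¹, hnu, inv_ne_zero hc0, ?_⟩
      unfold value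
      rw [if_neg (not_not.2 h0), hprod, ← hA]
      field_simp
    · have hy := P.eq₁
      rw [← mul_prod_erase univ _ (mem_univ k), ← hA] at hy
      have hy0 : P.y ≠ 0 := by
        intro h1
        rw [h1, zero_pow two_ne_zero, mul_zero] at hy
        exact mul_ne_zero h0 hp0 hy.symm
      refine ⟨_, B⁻¹ * (P.y / A), hnu, mul_ne_zero (inv_ne_zero hc0) (div_ne_zero hy0 hp0), ?_⟩
      unfold value
      rw [if_pos h0, hprod]
      field_simp
      linear_combination -hy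
  · have h1 : nE p ((hom (g k) z' w' : OE p E) : E) = 1 := by
      rw [← hom_map] at hk
      exact (red_ne hρ0 τ _).1 hk
    have h0 : hom (g k) P.z P.w ≠ 0 := by
      intro h2
      rw [hsc, h2, zero_mul, nE_zero] at h1
      exact zero_ne_one h1
    refine ⟨_, (c ^ e k)⁻¹, h1, inv_ne_zero (hce k), ?_⟩
    unfold value
    rw [if_pos h0, hsc]
    field_simp

variable (p) in
/-- the product of the values of the `k`-th polynomial at the zeros of `Q` -/
noncomputable def valQ (g : K → ℤ[X]) (Q : (ZMod p)[X]) (k : K) : AlgebraicClosure (ZMod p) :=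
  ((Q.aroots (AlgebraicClosure (ZMod p))).map fun x => hom (g k) x 1).prod

/-- **The points at the primes dividing `a`.** -/
theorem point_data (hG : GoodP b g h p) (hdeg : ∀ k, 2 ∣ (g k).natDegree) (hm : Even m)
    (hmh : m ∣ h.natDegree) (ha : ‖(a : ℚ_[p])‖ = (p : ℝ)⁻¹) (P : Point m b a g h E) :
    ∃ Q : (ZMod p)[X], Q.Monic ∧ (∀ x ∈ Q.aroots (AlgebraicClosure (ZMod p)), hom h x 1 = 0) ∧
      (Even Q.natDegree ↔ Even (Module.finrank ℚ_[p] E)) ∧
      ∀ k, ∃ (c : ℤ_[p]) (r : ℚ_[p]), r ≠ 0 ∧ PadicInt.toZMod c ≠ 0 ∧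
        Algebra.norm ℚ_[p] (value P k) = c * r ^ 2 ∧
        algebraMap (ZMod p) (AlgebraicClosure (ZMod p)) (PadicInt.toZMod c) = valQ p g Q k := by
  classical
  obtain ⟨ρ, hρ0, hρ⟩ := exists_rho p
  obtain ⟨τ⟩ : Nonempty (E →ₐ[ℚ_[p]] PadicAlgCl p) := inferInstance
  have hchar : CharP (AlgebraicClosure (ZMod p)) p :=
    charP_of_injective_algebraMap (algebraMap (ZMod p) _).injective p
  obtain ⟨c, z', w', hc, hz, hw, hu⟩ := primE (p := p) P.ne
  have hu' : ∀ τ : E →ₐ[ℚ_[p]] PadicAlgCl p, red ρ τ z' ≠ 0 ∨ red ρ τ w' ≠ 0 := by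
    intro τ
    rcases hu with h1 | h1
    · left
      rw [h1, map_one]
      exact one_ne_zero
    · right
      rw [h1, map_one]
      exact one_ne_zero
  obtain ⟨m', hm'⟩ := hm
  obtain ⟨e, he⟩ := hmh
  have hH : ((hom h z' w' : OE p E) : E) = algebraMap ℚ_[p] E (a : ℚ_[p]) * ((c ^ e * P.x) ^ m') ^ 2 := by
    rw [hom_coeE, ← hz, ← hw, hom_mul, ← P.eq₂, he, map_intCast, ← pow_mul]
    have h1 : m' * 2 = m := by omega
    rw [h1, mul_pow, ← pow_mul, mul_comm e m]
    ring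
  by_cases hk : nE p ((hom h z' w' : OE p E) : E) < 1
  · -- the point is close to a branch point
    have hR : ∀ τ : E →ₐ[ℚ_[p]] PadicAlgCl p, hom h (red ρ τ z') (red ρ τ w') = 0 := by
      intro τ
      rw [← hom_map]
      exact (red_zero hρ0 τ _).2 hk
    have hw0 : ∀ τ : E →ₐ[ℚ_[p]] PadicAlgCl p, red ρ τ w' ≠ 0 := by
      intro τ h0
      have h1 := hR τ
      rw [h0, hom_zero_right] at h1
      rcases mul_eq_zero.1 h1 with h2 | h2
      · exact hG.2.2.1 ((CharP.intCast_eq_zero_iff _ p _).1 h2)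
      · exact pow_ne_zero _ ((hu' τ).resolve_right (fun h => h h0)) h2
    have hnw : nE p (w' : E) = 1 := (red_ne hρ0 τ w').1 (hw0 τ)
    have hwE : (w' : E) ≠ 0 := by
      intro h0
      rw [h0, nE_zero] at hnw
      exact zero_ne_one hnw
    obtain ⟨v, hv⟩ : ∃ v : OE p E, (v : E) = (w' : E)⁻¹ :=
      ⟨⟨(w' : E)⁻¹, mem_OE.2 (by rw [nE_inv, hnw, inv_one])⟩, rfl⟩
    have hwv : w' * v = 1 := Subtype.ext (by
      rw [Subring.coe_mul, hv, mul_inv_cancel₀ hwE]
      rfl)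
    set t : OE p E := z' * v with ht
    have hz't : z' = w' * t := by
      rw [ht, mul_left_comm, hwv, mul_one]
    have hsc1 : ∀ f : ℤ[X], hom f z' w' = w' ^ f.natDegree * hom f t 1 := by
      intro f
      have e1 : hom f z' w' = hom f (w' * t) (w' * 1) := by rw [← hz't, mul_one]
      rw [e1, hom_mul]
    have hth : ∀ τ : E →ₐ[ℚ_[p]] PadicAlgCl p, hom h (red ρ τ t) 1 = 0 := by
      intro τ
      have h1 := (red_zero hρ0 τ _).2 hk
      rw [hsc1, map_mul, map_pow] at h1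
      have h2 := (mul_eq_zero.1 h1).resolve_left (pow_ne_zero _ (hw0 τ))
      rw [hom_map, map_one] at h2
      exact h2
    have hgk : ∀ (k : K) (τ : E →ₐ[ℚ_[p]] PadicAlgCl p), hom (g k) (red ρ τ t) 1 ≠ 0 := by
      intro k τ
      exact (hG.2.2.2 _ _ _ (Or.inr one_ne_zero)).2 k (hth τ)
    obtain ⟨Q, hQ1, hQ2, hQ3⟩ := exists_Q ρ hρ (t : E) (mem_OE.1 t.2)
    have hroots : Q.aroots (AlgebraicClosure (ZMod p)) =
        (univ : Finset (E →ₐ[ℚ_[p]] PadicAlgCl p)).val.map fun τ => red ρ τ t := by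
      rw [aroots, hQ3]
      have e1 : ∏ τ : E →ₐ[ℚ_[p]] PadicAlgCl p, (X - C (ρ (em τ (t : E) (mem_OE.1 t.2)))) =
          (((univ : Finset (E →ₐ[ℚ_[p]] PadicAlgCl p)).val.map fun τ => red ρ τ t).map
            fun a => X - C a).prod := by
        rw [Multiset.map_map]
        rfl
      rw [e1, roots_multiset_prod_X_sub_C]
    refine ⟨Q, hQ1, ?_, by rw [hQ2], fun k => ?_⟩
    · intro x hx
      rw [hroots, Multiset.mem_map] at hx
      obtain ⟨τ', -, rfl⟩ := hx
      exact hth τ'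
    · obtain ⟨c', hc1, hc2⟩ := norm_red (ρ := ρ) hρ (hom (g k) t 1)
      obtain ⟨ek, hek⟩ := hdeg k
      have hval0 : ((hom (g k) t 1 : OE p E) : E) ≠ 0 := by
        intro h0
        have h1 : hom (g k) t 1 = (0 : OE p E) := Subtype.ext h0
        have h2 := hgk k τ
        have h3 := congrArg (red ρ τ) h1
        rw [hom_map, map_one, map_zero] at h3
        exact h2 h3
      have hsc2 : ((w' : E) ^ ek) ^ 2 * ((hom (g k) t 1 : OE p E) : E) =
          hom (g k) P.z P.w * (c ^ ek) ^ 2 := by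
        have h1 := congrArg (fun x : OE p E => (x : E)) (hsc1 (g k))
        simp only [Subring.coe_mul, Subring.coe_pow] at h1
        rw [hom_coeE (g k) z' w', ← hz, ← hw, hom_mul, hek, hw] at h1
        rw [← pow_mul, ← pow_mul, mul_comm ek 2, ← h1, mul_comm]
      have hce : c ^ ek ≠ 0 := pow_ne_zero _ hc
      have hwe : (w' : E) ^ ek ≠ 0 := pow_ne_zero _ hwE
      have h0 : hom (g k) P.z P.w ≠ 0 := by
        intro h1
        rw [h1, zero_mul] at hsc2
        exact mul_ne_zero (pow_ne_zero 2 hwe) hval0 hsc2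
      have hvv : value P k = ((hom (g k) t 1 : OE p E) : E) * ((w' : E) ^ ek / c ^ ek) ^ 2 := by
        unfold value
        rw [if_pos h0]
        field_simp
        linear_combination -hsc2
      refine ⟨c', Algebra.norm ℚ_[p] ((w' : E) ^ ek / c ^ ek), ?_, ?_, ?_, ?_⟩
      · exact Algebra.norm_ne_zero_iff.2 (div_ne_zero hwe hce)
      · intro h1
        rw [h1, map_zero] at hc2
        have h2 := hc2.symm
        rw [Finset.prod_eq_zero_iff] at h2
        obtain ⟨τ', -, h3⟩ := h2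
        rw [hom_map, map_one] at h3
        exact hgk k τ' h3
      · rw [hvv, map_mul, map_pow, hc1]
      · rw [hc2, valQ, hroots, Multiset.map_map]
        change _ = ∏ τ : E →ₐ[ℚ_[p]] PadicAlgCl p, hom (g k) (red ρ τ t) 1
        refine Finset.prod_congr rfl fun τ' _ => ?_
        rw [hom_map, map_one]
  · -- the field is ramified
    have hk1 : nE p ((hom h z' w' : OE p E) : E) = 1 :=
      le_antisymm (mem_OE.1 (hom h z' w').2) (not_lt.1 hk)
    have hx0 : (c ^ e * P.x) ^ m' ≠ 0 := by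
      intro h0
      rw [hH, h0, zero_pow two_ne_zero, mul_zero, nE_zero] at hk1
      exact zero_ne_one hk1
    have haw : algebraMap ℚ_[p] E (a : ℚ_[p]) =
        ((hom h z' w' : OE p E) : E) * (((c ^ e * P.x) ^ m')⁻¹) ^ 2 := by
      rw [hH]
      field_simp
    refine ⟨1, monic_one, ?_, ?_, fun k => ?_⟩
    · intro x hx
      simp at hx
    · simp only [natDegree_one, Even.zero, true_iff]
      exact even_finrank ha hk1 haw
    · obtain ⟨u, s, hu1, hs, hus⟩ := value_unit hG hdeg P k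
      obtain ⟨r, hr⟩ := norm_sq hG.1 ha hk1 haw hu1
      have hN : Algebra.norm ℚ_[p] u ≠ 0 := by
        rw [Algebra.norm_ne_zero_iff]
        rintro rfl
        rw [nE_zero] at hu1
        exact zero_ne_one hu1
      refine ⟨1, r * Algebra.norm ℚ_[p] s, mul_ne_zero ?_ (Algebra.norm_ne_zero_iff.2 hs), ?_, ?_, ?_⟩
      · rintro rfl
        rw [mul_zero] at hr
        exact hN hr
      · rw [map_one]
        exact one_ne_zero
      · rw [hus, map_mul, map_pow, hr]
        push_cast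
        ring
      · rw [map_one, map_one, valQ, aroots_one, Multiset.map_zero, Multiset.prod_zero]

end

end Pool.Agent.R925.ZC
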