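import Pool.Agent.R925.ZC.Cheb

/-! The theorem on adelic zero-cycles. -/

set_option autoImplicit false
set_option linter.unusedSectionVars false

namespace Pool.Agent.R925.ZC

open Finset Polynomial Pool.Agent.R925.FD
open Pool.Agent.W313.BMX (Fam ram IsTest Splits)
open Pool.Agent.W401.Cheb Pool.Agent.W723.SecC

/-- For every automorphism `σ` of the field of algebraic numbers there is a finite set `S` of zeros of
`h`, of cardinality congruent to `d` modulo `2`, mapped to itself by `σ`, such that for every `k` the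
product of the numbers `g k (β)` over `β ∈ S` is `δ k * y ^ 2` with a `y` fixed by `σ`. -/
def ZPersistent {K : Type} (d : ℤ) (g : K → ℤ[X]) (h : ℤ[X]) (δ : K → ℚ) : Prop :=
  ∀ σ : AlgebraicClosure ℚ ≃ₐ[ℚ] AlgebraicClosure ℚ, ∃ S : Finset (AlgebraicClosure ℚ),
    (Even S.card ↔ Even d) ∧ (∀ β ∈ S, aeval β h = 0 ∧ σ β ∈ S) ∧
      ∀ k, ∃ y, σ y = y ∧ ∏ β ∈ S, aeval β (g k) = (δ k : AlgebraicClosure ℚ) * y ^ 2

/-- The numbers `δ k` are not zero and their product is `b ^ d`, up to squares; this holds for the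
values `G k (z)` of a zero-cycle `z` of degree `d` on the curve. -/
def IsClassZ {K : Type} [Fintype K] (d b : ℤ) (δ : K → ℚ) : Prop :=
  (∀ k, δ k ≠ 0) ∧ ∃ t : ℚ, ∏ k, δ k = (b : ℚ) ^ d * t ^ 2

variable {K : Type} [Fintype K] [DecidableEq K]

/-- An adelic zero-cycle of the curve. -/
structure AdelicCycle (m : ℕ) (b a : ℤ) (g : K → ℤ[X]) (h : ℤ[X]) where
  /-- the real component -/
  re : Cycle m b a g h ℝ
  /-- the `p`-adic components -/
  pa : ∀ p : Nat.Primes, Cycle m b a g h ℚ_[(p : ℕ)]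

/-- The degrees of all the components are congruent to `d` modulo `2`. -/
def AdelicCycle.Parity {m : ℕ} {b a : ℤ} {g : K → ℤ[X]} {h : ℤ[X]} (Z : AdelicCycle m b a g h)
    (d : ℤ) : Prop := (Even Z.re.degree ↔ Even d) ∧ ∀ p, (Even (Z.pa p).degree ↔ Even d)

/-- The values of `G k` at the components of an adelic zero-cycle. -/
noncomputable def AdelicCycle.values {m : ℕ} {b a : ℤ} {g : K → ℤ[X]} {h : ℤ[X]}
    (Z : AdelicCycle m b a g h) (k : K) : Fam :=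
  ⟨cycVal Z.re k, fun p => cycVal (Z.pa p) k⟩

/-- The adelic zero-cycle is orthogonal to the classes `(G k, e)`, `e` a nonzero integer, of the
Brauer group of the curve: the number of the places at which the value of the class is not trivial (the
Hilbert symbol of the value of `G k` and `e` is `-1`) is even, so that the sum of the invariants is
zero. -/
def AdelicCycle.Orthogonal {m : ℕ} {b a : ℤ} {g : K → ℤ[X]} {h : ℤ[X]}
    (Z : AdelicCycle m b a g h) : Prop :=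
  ∀ (k : K) (e : ℤ), e ≠ 0 → Even (ram (Z.values k) e).ncard

variable {b : ℤ} {g : K → ℤ[X]} {h : ℤ[X]}

/-- the values have even valuation at almost all primes -/
lemma finZ (hb : b ≠ 0) (hg0 : ∀ k, g k ≠ 0) (hh0 : h ≠ 0) (hdeg : ∀ k, 2 ∣ (g k).natDegree)
    (hgg : ∀ k l, k ≠ l →
      IsCoprime ((g k).map (Int.castRingHom ℚ)) ((g l).map (Int.castRingHom ℚ)))
    (hgh : ∀ k, IsCoprime (h.map (Int.castRingHom ℚ)) ((g k).map (Int.castRingHom ℚ))) :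
    ∃ z0 : ℕ, ∀ (p : ℕ) [Fact p.Prime], z0 < p → ∀ (m : ℕ) (a : ℤ) (Z : Cycle m b a g h ℚ_[p])
      (k : K), ∃ (n : ℤ) (c : ℚ_[p]), ¬ (p : ℤ) ∣ n ∧ c ≠ 0 ∧ cycVal Z k = n * c ^ 2 := by
  obtain ⟨N, hN, hgood⟩ := exists_good b hb g h hg0 hh0 hgg hgh
  refine ⟨N, fun p hp hpz m a Z k => ?_⟩
  have h1 : ¬ p ∣ N := fun h => by
    have := Nat.le_of_dvd hN h
    omega
  obtain ⟨u, s, hu, hs, hus⟩ := cycVal_unit (hgood p h1) hdeg Z k
  apply rep_even (cycVal_ne hb hg0 hgg Z k)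
  have hu0 : u ≠ 0 := by
    rintro rfl
    rw [norm_zero] at hu
    exact zero_ne_one hu
  have hv : u.valuation = 0 := by
    rw [Padic.norm_eq_zpow_neg_valuation hu0] at hu
    have hp1 : (1 : ℝ) < p := by exact_mod_cast hp.out.one_lt
    have h3 : (p : ℝ) ^ (-u.valuation) = (p : ℝ) ^ (0 : ℤ) := by rw [hu, zpow_zero]
    have h4 := zpow_right_injective₀ (by linarith) (by linarith) h3
    omega
  rw [hus, Padic.valuation_mul hu0 (pow_ne_zero 2 hs), hv, Padic.valuation_pow]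
  exact ⟨s.valuation, by push_cast; ring⟩

/-- An orthogonal adelic zero-cycle has a class. -/
theorem class_of_orthogonal (hb : b ≠ 0) (hg0 : ∀ k, g k ≠ 0) (hh0 : h ≠ 0)
    (hdeg : ∀ k, 2 ∣ (g k).natDegree)
    (hgg : ∀ k l, k ≠ l →
      IsCoprime ((g k).map (Int.castRingHom ℚ)) ((g l).map (Int.castRingHom ℚ)))
    (hgh : ∀ k, IsCoprime (h.map (Int.castRingHom ℚ)) ((g k).map (Int.castRingHom ℚ)))
    {m : ℕ} {a : ℤ} (Z : AdelicCycle m b a g h) {d : ℤ} (hodd : Z.Parity d) (hZ : Z.Orthogonal) :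
    ∃ n : K → ℤ, (∀ k, Squarefree (n k)) ∧ IsClassZ d b (fun k => (n k : ℚ)) ∧
      (∀ k, IsSquare (cycVal Z.re k * (n k : ℝ))) ∧
      ∀ k (p : Nat.Primes), IsSquare (cycVal (Z.pa p) k * (n k : ℚ_[(p : ℕ)])) := by
  classical
  obtain ⟨z, hz⟩ := finZ hb hg0 hh0 hdeg hgg hgh
  have hvr : ∀ k, cycVal Z.re k ≠ 0 := fun k => cycVal_ne hb hg0 hgg Z.re k
  have hvp : ∀ (p : Nat.Primes) (k : K), cycVal (Z.pa p) k ≠ 0 :=
    fun p k => cycVal_ne hb hg0 hgg (Z.pa p) k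
  have hex' : ∀ k, ∃ n : ℤ, Squarefree n ∧ IsSquare (cycVal Z.re k * (n : ℝ)) ∧
      ∀ p : Nat.Primes, IsSquare (cycVal (Z.pa p) k * (n : ℚ_[(p : ℕ)])) := by
    intro k
    apply Pool.Agent.W313.BMX.hexact (Z.values k) (hvr k) (fun p => hvp p k)
    · have h1 : {p : Nat.Primes | (p : ℕ) ≤ z}.Finite := by
        have h2 : (Set.Iic z).Finite := Set.finite_Iic z
        exact h2.preimage (Subtype.val_injective.injOn)
      apply h1.subset
      intro p hp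
      by_contra hpz
      have hpz' : z < (p : ℕ) := not_le.1 hpz
      obtain ⟨n, c, hm, -, hmc⟩ := hz (p : ℕ) hpz' m a (Z.pa p) k
      exact hp n c hm hmc
    · intro e he _
      apply hZ k e
      rcases he with rfl | rfl | ⟨h1, h2⟩
      · norm_num
      · norm_num
      · rintro rfl
        norm_num at h2
  choose n hn1 hn2 hn3 using hex'
  have hn0 : ∀ k, n k ≠ 0 := fun k => (hn1 k).ne_zero
  have hprod : ∀ {F : Type} [Field F] [CharZero F] (v : K → F), (∀ k, v k ≠ 0) →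
      (∀ k, IsSquare (v k * (n k : F))) → IsSquare ((b : F) ^ d * ∏ k, v k) →
      IsSquare (((b ^ d.natAbs * ∏ k, n k : ℤ)) : F) := by
    intro F _ _ v hv hvn hdv'
    have hdv : IsSquare ((b : F) ^ d.natAbs * ∏ k, v k) := by
      obtain ⟨S, hS, hbS⟩ := zpow_abs (F := F) (Int.cast_ne_zero.2 hb) d
      obtain ⟨r, hr⟩ := hdv'
      refine ⟨r / S, ?_⟩
      rw [hbS] at hr
      field_simp
      linear_combination hr
    have h1 : IsSquare ((∏ k, v k) * ∏ k, (n k : F)) := by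
      rw [← Finset.prod_mul_distrib]
      choose r hr using hvn
      refine ⟨∏ k, r k, ?_⟩
      rw [← Finset.prod_mul_distrib]
      exact Finset.prod_congr rfl fun k _ => hr k
    have h2 := Pool.Agent.W313.BMX.isSquare_div hdv (Finset.prod_ne_zero_iff.2 fun k _ => hv k) h1
    push_cast
    exact h2
  have hsq : IsSquare (b ^ d.natAbs * ∏ k, n k) := by
    apply Pool.Agent.W313.BMX.isSquare_of_local
    · exact mul_ne_zero (pow_ne_zero _ hb) (Finset.prod_ne_zero_iff.2 fun k _ => hn0 k)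
    · exact hprod (fun k => cycVal Z.re k) hvr hn2 (cycVal_prod hb hg0 hgg Z.re hodd.1)
    · intro p
      exact hprod (fun k => cycVal (Z.pa p) k) (hvp p) (fun k => hn3 k p)
        (cycVal_prod hb hg0 hgg (Z.pa p) (hodd.2 p))
  refine ⟨n, hn1, ⟨fun k => Int.cast_ne_zero.2 (hn0 k), ?_⟩, hn2, hn3⟩
  obtain ⟨s, hs⟩ := hsq
  have hb' : (b : ℚ) ≠ 0 := Int.cast_ne_zero.2 hb
  obtain ⟨S, hS, hbS⟩ := zpow_abs hb' d
  refine ⟨(s : ℚ) / (b ^ d.natAbs * S), ?_⟩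
  have hs' : (b : ℚ) ^ d.natAbs * ∏ k, (n k : ℚ) = s * s := by exact_mod_cast hs
  have hbn : (b : ℚ) ^ d.natAbs ≠ 0 := pow_ne_zero _ hb'
  rw [hbS]
  field_simp
  linear_combination hs'

/-- The number of the ramified places is finite. -/
theorem ram_finite (hb : b ≠ 0) (hg0 : ∀ k, g k ≠ 0) (hh0 : h ≠ 0)
    (hdeg : ∀ k, 2 ∣ (g k).natDegree)
    (hgg : ∀ k l, k ≠ l →
      IsCoprime ((g k).map (Int.castRingHom ℚ)) ((g l).map (Int.castRingHom ℚ)))
    (hgh : ∀ k, IsCoprime (h.map (Int.castRingHom ℚ)) ((g k).map (Int.castRingHom ℚ)))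
    {m : ℕ} {a : ℤ} (Z : AdelicCycle m b a g h) (k : K) (e : ℤ) (he : e ≠ 0) :
    (ram (Z.values k) e).Finite := by
  obtain ⟨z, hz⟩ := finZ hb hg0 hh0 hdeg hgg hgh
  have h1 : {p : Nat.Primes | (p : ℕ) ≤ max z (max 2 e.natAbs)}.Finite := by
    have h2 : (Set.Iic (max z (max 2 e.natAbs))).Finite := Set.finite_Iic _
    exact h2.preimage (Subtype.val_injective.injOn)
  apply ((h1.image some).insert none).subset
  intro v hv
  match v with
  | none => exact Or.inl rfl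
  | some p =>
    refine Or.inr ⟨p, ?_, rfl⟩
    by_contra hpz
    have hpz' : max z (max 2 e.natAbs) < (p : ℕ) := not_le.1 hpz
    obtain ⟨n, c, hm, hc, hmc⟩ := hz (p : ℕ) (by omega) m a (Z.pa p) k
    apply hv
    change Splits (cycVal (Z.pa p) k) _
    rw [hmc, Pool.Agent.W313.BMX.splits_mul_sq hc]
    refine Pool.Agent.W335.BMX.odd2 _ (by omega) n e hm ?_
    intro h
    have h3 := Int.natCast_dvd.1 h
    have := Nat.le_of_dvd (Int.natAbs_pos.2 he) h3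
    omega

lemma norm_of_squarefree {p : ℕ} [hp : Fact p.Prime] {a : ℤ} (ha : Squarefree a)
    (hpa : (p : ℤ) ∣ a) : ‖(a : ℚ_[p])‖ = (p : ℝ)⁻¹ := by
  obtain ⟨n', hn'⟩ := hpa
  have h2 : ¬ (p : ℤ) ∣ n' := by
    rintro ⟨n'', hn''⟩
    have h3 : (p : ℤ) * p ∣ a := ⟨n'', by rw [hn', hn'']; ring⟩
    have h4 := Int.isUnit_iff.1 (ha _ h3)
    have := hp.out.two_le
    omega
  have h3 : ‖(n' : ℚ_[p])‖ = 1 := by
    refine le_antisymm (Padic.norm_int_le_one n') ?_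
    by_contra hc
    rw [not_le, Padic.norm_intCast_lt_one_iff] at hc
    exact h2 hc
  rw [hn']
  push_cast
  rw [norm_mul, h3, mul_one, Padic.norm_p]

lemma dvd_of_primes {n : ℤ} (hn : Squarefree n) {N : ℕ} (hN : 0 < N)
    (h : ∀ p : ℕ, p.Prime → ¬ p ∣ N → ¬ (p : ℤ) ∣ n) : n.natAbs ∣ N := by
  have h1 : Squarefree n.natAbs := Int.squarefree_natAbs.2 hn
  rw [← Nat.prod_primeFactors_of_squarefree h1]
  refine Dvd.dvd.trans (prod_dvd_prod_of_subset _ N.primeFactors _ ?_) (Nat.prod_primeFactors_dvd N)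
  intro p hp
  have hpp := Nat.prime_of_mem_primeFactors hp
  refine Nat.mem_primeFactors.2 ⟨hpp, ?_, hN.ne'⟩
  by_contra hpN
  exact h p hpp hpN (Int.natCast_dvd.2 (Nat.dvd_of_mem_primeFactors hp))

lemma even_emod (d : ℤ) : Even (d % 2) ↔ Even d := by
  rw [Int.even_iff, Int.even_iff]
  omega

/-- **The theorem on adelic zero-cycles.** -/
theorem zc_main (hb : b ≠ 0) (hg0 : ∀ k, g k ≠ 0) (hh1 : 1 ≤ h.natDegree)
    (hdeg : ∀ k, 2 ∣ (g k).natDegree)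
    (hgg : ∀ k l, k ≠ l →
      IsCoprime ((g k).map (Int.castRingHom ℚ)) ((g l).map (Int.castRingHom ℚ)))
    (hgh : ∀ k, IsCoprime (h.map (Int.castRingHom ℚ)) ((g k).map (Int.castRingHom ℚ))) :
    ∃ κ : ℝ, 0 < κ ∧ ∃ C : ℝ, ∀ X : ℕ, 3 ≤ X →
      ({a : ℤ | a.natAbs ≤ X ∧ Squarefree a ∧ ∃ m, Even m ∧ m ∣ h.natDegree ∧
        ∃ (d : ℤ) (Z : AdelicCycle m b a g h), Z.Parity d ∧ Z.Orthogonal ∧
          ¬ ∃ n : K → ℤ, (∀ k, Squarefree (n k)) ∧
          IsClassZ d b (fun k => (n k : ℚ)) ∧ ZPersistent d g h (fun k => (n k : ℚ)) ∧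
          (∀ k, IsSquare (cycVal Z.re k * (n k : ℝ))) ∧
          ∀ k (p : Nat.Primes), IsSquare (cycVal (Z.pa p) k * (n k : ℚ_[(p : ℕ)]))}.ncard : ℝ) ≤
        C * X * (Real.log X) ^ (-κ) := by
  classical
  have hh0 : h ≠ 0 := by
    rintro rfl
    rw [natDegree_zero] at hh1
    omega
  obtain ⟨N, hNpos, hgood⟩ := exists_good b hb g h hg0 hh0 hgg hgh
  set D : Finset ℤ := (Finset.Icc (-(N : ℤ)) N).filter (fun s => s ≠ 0) with hD
  have hD0 : ∀ s ∈ D, s ≠ 0 := fun s hs => (mem_filter.1 hs).2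
  set Δ : Finset ((K → ℤ) × ℤ) := ((Fintype.piFinset fun _ : K => D) ×ˢ ({0, 1} : Finset ℤ)).filter
    (fun s => ¬ ZPersistent s.2 g h (fun k => (s.1 k : ℚ))) with hΔ
  -- for each class there are many primes
  have hex : ∀ s ∈ Δ, ∃ κ : ℝ, 0 < κ ∧ ∃ C : ℝ, ∀ X : ℕ, 3 ≤ X →
      ({a : ℤ | a.natAbs ≤ X ∧ Squarefree a ∧ ∀ p : ℕ, ∀ _ : Fact p.Prime, (p : ℤ) ∣ a →
        ¬ p ∣ N → ZR p s.2 g h s.1}.ncard : ℝ) ≤ C * X * (Real.log X) ^ (-κ) := by
    intro s hs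
    rw [hΔ, mem_filter, mem_product, Fintype.mem_piFinset] at hs
    obtain ⟨⟨hsD, -⟩, hnp⟩ := hs
    unfold ZPersistent at hnp
    push Not at hnp
    obtain ⟨σ, hσ⟩ := hnp
    obtain ⟨L, iF, iN, iG, τ, m, hm, hL⟩ := chebZ s.2 b g h hh0 hh1 hdeg N hNpos hgood s.1
      (fun k => hD0 _ (hsD k)) σ (by
        intro S h1 h2 h3
        obtain ⟨k, hk⟩ := hσ S h3 (fun β hβ => ⟨h1 β hβ, h2 β hβ⟩)
        refine ⟨k, fun y hy => ?_⟩
        have h4 := hk y hy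
        rw [Rat.cast_intCast] at h4
        exact h4)
    obtain ⟨δ, C', hδpos, hcount⟩ := count L τ (m * N) (Nat.mul_pos hm hNpos)
    obtain ⟨κ, hκ, -, C, hC⟩ := sieve (frobSet L τ (m * N)) (fun p hp => hp.1) δ C' hδpos hcount
    refine ⟨κ, hκ, C, fun X hX => le_trans ?_ (hC X hX)⟩
    refine Nat.cast_le.2 (Set.ncard_le_ncard ?_ ?_)
    · rintro a ⟨h1, h2, h3⟩
      refine ⟨h1, h2, fun p hp hpa => ?_⟩
      have hpF : Fact p.Prime := ⟨hp.1⟩
      refine hL p ⟨hp.1, fun h4 => hp.2.1 (h4.trans (Dvd.intro _ rfl)), hp.2.2⟩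
        (h3 p hpF hpa fun h4 => hp.2.1 (h4.trans (Dvd.intro_left _ rfl)))
    · apply (Set.finite_Icc (-(X : ℤ)) X).subset
      intro d hd
      have h1 : d.natAbs ≤ X := hd.1
      rw [Set.mem_Icc]
      omega
  choose! κ hκ C hC using hex
  -- the minimum of the exponents
  obtain ⟨κ0, hκ0, hκ0'⟩ : ∃ κ0 : ℝ, 0 < κ0 ∧ ∀ s ∈ Δ, κ0 ≤ κ s := by
    by_cases hne : Δ.Nonempty
    · obtain ⟨s0, hs0, hmin⟩ := Finset.exists_min_image Δ κ hne
      exact ⟨κ s0, hκ s0 hs0, hmin⟩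
    · exact ⟨1, one_pos, fun s hs => absurd ⟨s, hs⟩ hne⟩
  refine ⟨κ0, hκ0, ∑ s ∈ Δ, |C s|, fun X hX => ?_⟩
  have hX3 : (3 : ℝ) ≤ (X : ℝ) := by exact_mod_cast hX
  have hlog1 : 1 < Real.log X := by
    rw [Real.lt_log_iff_exp_lt (by linarith)]
    exact lt_of_lt_of_le Real.exp_one_lt_d9 (by linarith)
  have hfin : ∀ S : Set ℤ, ({a : ℤ | a.natAbs ≤ X ∧ a ∈ S} : Set ℤ).Finite := by
    intro S
    apply (Set.finite_Icc (-(X : ℤ)) X).subset
    intro d hd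
    have h1 : d.natAbs ≤ X := hd.1
    rw [Set.mem_Icc]
    omega
  set E : (K → ℤ) × ℤ → Set ℤ := fun s => {a : ℤ | a.natAbs ≤ X ∧ Squarefree a ∧
    ∀ p : ℕ, ∀ _ : Fact p.Prime, (p : ℤ) ∣ a → ¬ p ∣ N → ZR p s.2 g h s.1} with hE
  have hEfin : ∀ s, (E s).Finite := fun s =>
    hfin {a : ℤ | Squarefree a ∧
      ∀ p : ℕ, ∀ _ : Fact p.Prime, (p : ℤ) ∣ a → ¬ p ∣ N → ZR p s.2 g h s.1}
  refine (Nat.cast_le.2 (Set.ncard_le_ncard (t := ⋃ s ∈ Δ, E s) ?_
    (Set.Finite.biUnion Δ.finite_toSet fun s _ => hEfin s))).trans ?_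
  · rintro a ⟨h1, h2, m, hm, hmh, d, Z, hodd, hZ, hno⟩
    obtain ⟨n, hn1, hn2, hn3, hn4⟩ := class_of_orthogonal hb hg0 hh0 hdeg hgg hgh Z hodd hZ
    have hnd : ∀ k, ∀ p : ℕ, p.Prime → ¬ p ∣ N → ¬ (p : ℤ) ∣ n k := by
      intro k p hp hpN
      have hpF : Fact p.Prime := ⟨hp⟩
      exact not_dvd_of_sq (hgood p hpN) hdeg (Z.pa ⟨p, hp⟩) k (hn1 k) (hn4 k ⟨p, hp⟩)
    rw [Set.mem_iUnion₂]
    refine ⟨(n, d % 2), ?_, h1, h2, ?_⟩
    · rw [hΔ, mem_filter, mem_product, Fintype.mem_piFinset]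
      refine ⟨⟨fun k => ?_, ?_⟩, fun hper => hno ⟨n, hn1, hn2, ?_, hn3, hn4⟩⟩
      · change n k ∈ D
        rw [hD, mem_filter, Finset.mem_Icc]
        have h3 := Nat.le_of_dvd hNpos (dvd_of_primes (hn1 k) hNpos (hnd k))
        refine ⟨⟨by omega, by omega⟩, (hn1 k).ne_zero⟩
      · rw [Finset.mem_insert, Finset.mem_singleton]
        change d % 2 = 0 ∨ d % 2 = 1
        omega
      · intro σ
        obtain ⟨S, hS1, hS2, hS3⟩ := hper σ
        exact ⟨S, hS1.trans (even_emod d), hS2, hS3⟩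
    · intro p hpF hpa hpN
      exact reducesZ (hgood p hpN) hdeg hm hmh (norm_of_squarefree h2 hpa) (Z.pa ⟨p, hpF.out⟩)
        ((hodd.2 ⟨p, hpF.out⟩).trans (even_emod d).symm) n (fun k => hnd k p hpF.out hpN)
        (fun k => hn4 k ⟨p, hpF.out⟩)
  · have hU : ((⋃ s ∈ Δ, E s).ncard : ℝ) ≤ ∑ s ∈ Δ, ((E s).ncard : ℝ) := by
      have h1 : (⋃ s ∈ Δ, E s).ncard ≤ ∑ s ∈ Δ, (E s).ncard := by
        exact ncard_biUnion_le Δ E
      exact_mod_cast h1
    refine hU.trans ?_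
    rw [sum_mul, sum_mul]
    refine sum_le_sum fun s hs => (hC s hs X hX).trans ?_
    have h1 : (Real.log X) ^ (-κ s) ≤ (Real.log X) ^ (-κ0) :=
      Real.rpow_le_rpow_of_exponent_le hlog1.le (neg_le_neg (hκ0' s hs))
    have h2 : 0 ≤ (Real.log X) ^ (-κ s) := Real.rpow_nonneg (by linarith) _
    exact mul_le_mul (mul_le_mul_of_nonneg_right (le_abs_self _) (by positivity)) h1 h2
      (by positivity)

end Pool.Agent.R925.ZC
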