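import Pool.Agent.R925.ZC.Ex

/-! Global zero-cycles supported at the zeros of `h`, and the theorems on two rational zeros and on
three quadratic polynomials. -/

set_option autoImplicit false
set_option linter.unusedSectionVars false

namespace Pool.Agent.R925.ZC

open Finset Polynomial Pool.Agent.R925.FD

variable {K : Type} [Fintype K] [DecidableEq K] {m : ℕ} {b a : ℤ} {g : K → ℤ[X]} {h : ℤ[X]}

lemma hom_aeval (f : ℤ[X]) (α : ℚ) : hom f α 1 = aeval α f := by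
  rw [hom_one, aeval_def]
  congr 1

/-- the combination of two points -/
noncomputable def twoPt {F : Type} [Field F] (P₁ P₂ : Point m b a g h F) (c₁ c₂ : ℤ) :
    Cycle m b a g h F where
  r := 2
  E := fun _ => F
  fld := fun _ => inferInstance
  alg := fun _ => inferInstance
  fin := fun _ => inferInstance
  pt := fun i => if i = 0 then P₁ else P₂
  c := fun i => if i = 0 then c₁ else c₂

lemma twoPt_degree {F : Type} [Field F] (P₁ P₂ : Point m b a g h F) (c₁ c₂ : ℤ) :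
    (twoPt P₁ P₂ c₁ c₂).degree = c₁ + c₂ := by
  have h1 : (twoPt P₁ P₂ c₁ c₂).degree = ∑ i : Fin 2, (if i = 0 then c₁ else c₂) *
    (Module.finrank F F : ℤ) := rfl
  rw [h1, Fin.sum_univ_two, Module.finrank_self]
  simp

lemma twoPt_val {F : Type} [Field F] (P₁ P₂ : Point m b a g h F) (c₁ c₂ : ℤ) (k : K) :
    cycVal (twoPt P₁ P₂ c₁ c₂) k = value P₁ k ^ c₁ * value P₂ k ^ c₂ := by
  have h1 : cycVal (twoPt P₁ P₂ c₁ c₂) k = ∏ i : Fin 2,
    (Algebra.norm F (value (if i = 0 then P₁ else P₂) k)) ^ (if i = 0 then c₁ else c₂) := rfl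
  have h2 : ∀ x : F, Algebra.norm F x = x := by
    intro x
    rw [Algebra.norm_self]
    rfl
  rw [h1, Fin.prod_univ_two, h2, h2, if_pos rfl, if_pos rfl, if_neg (by decide), if_neg (by decide)]

/-- a rational point over a rational zero of `h` -/
lemma mkPoint (hm : 0 < m) (hb : b ≠ 0) {α : ℚ} (hα : aeval α h = 0)
    (hg : ∀ k, aeval α (g k) ≠ 0) (hsq : IsSquare ((b : ℚ) * ∏ k, aeval α (g k))) :
    ∃ P : Point m b a g h ℚ, P.x = 0 ∧ ∀ k, value P k = aeval α (g k) := by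
  obtain ⟨s, hs⟩ := hsq
  have hb' : (b : ℚ) ≠ 0 := Int.cast_ne_zero.2 hb
  refine ⟨⟨α, 1, 0, s / b, Or.inr one_ne_zero, ?_, ?_⟩, rfl, fun k => ?_⟩
  · rw [Finset.prod_congr rfl fun k _ => hom_aeval (g k) α, div_pow, sq s, ← hs]
    field_simp
  · rw [hom_aeval, hα, zero_pow hm.ne', mul_zero]
  · unfold value
    rw [hom_aeval, if_pos (hg k)]

/-- the classes of odd degree are realised by rational points -/
theorem realize_odd (hm : 0 < m) (hb : b ≠ 0) {α₁ α₂ : ℚ}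
    (hz : ∀ β : AlgebraicClosure ℚ, aeval β h = 0 ↔ β = α₁ ∨ β = α₂)
    (h1 : ∀ k, aeval α₁ (g k) ≠ 0) (h2 : ∀ k, aeval α₂ (g k) ≠ 0) {d : ℤ} (hd : Odd d) (n : K → ℚ)
    (hn : IsClassZ d b n) (hper : ZPersistent d g h n) :
    ∃ P : Point m b a g h ℚ, P.x = 0 ∧ ∀ k, value P k ≠ 0 ∧ IsSquare (value P k * n k) := by
  have hb' : (b : ℚ) ≠ 0 := Int.cast_ne_zero.2 hb
  have ha1 : aeval α₁ h = 0 := by
    have h3 := (hz α₁).2 (Or.inl rfl)
    rw [aeval_rat] at h3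
    exact_mod_cast h3
  have ha2 : aeval α₂ h = 0 := by
    have h3 := (hz α₂).2 (Or.inr rfl)
    rw [aeval_rat] at h3
    exact_mod_cast h3
  obtain ⟨hn0, t, ht⟩ := hn
  have ht0 : t ≠ 0 := by
    rintro rfl
    rw [zero_pow two_ne_zero, mul_zero] at ht
    exact Finset.prod_ne_zero_iff.2 (fun k _ => hn0 k) ht
  have hodd : ∀ α : ℚ, aeval α h = 0 → (∀ k, aeval α (g k) ≠ 0) →
      (∀ k, IsSquare (n k * aeval α (g k))) →
      ∃ P : Point m b a g h ℚ, P.x = 0 ∧ ∀ k, value P k ≠ 0 ∧ IsSquare (value P k * n k) := by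
    intro α hα hgα h3
    obtain ⟨j, hj⟩ := hd
    have hs : IsSquare ((b : ℚ) * ∏ k, aeval α (g k)) := by
      choose r hr using h3
      have h4 : (∏ k, n k) * (∏ k, aeval α (g k)) = (∏ k, r k) * ∏ k, r k := by
        rw [← prod_mul_distrib, ← prod_mul_distrib]
        exact prod_congr rfl fun k _ => hr k
      have hbj : (b : ℚ) ^ j ≠ 0 := zpow_ne_zero _ hb'
      have hbd : (b : ℚ) ^ d = ((b : ℚ) ^ j) ^ 2 * b := by
        rw [hj, zpow_add_one₀ hb', two_mul, zpow_add₀ hb']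
        ring
      rw [ht, hbd] at h4
      refine ⟨(∏ k, r k) / ((b : ℚ) ^ j * t), ?_⟩
      field_simp
      linear_combination h4
    obtain ⟨P, hPx, hP⟩ := mkPoint (m := m) (a := a) hm hb hα hgα hs
    refine ⟨P, hPx, fun k => ?_⟩
    rw [hP, mul_comm]
    exact ⟨hgα k, h3 k⟩
  rcases zpers_odd g h α₁ α₂ (fun β hβ => (hz β).1 hβ) h1 h2 n hn0 hd hper with h3 | h3
  · exact hodd α₁ ha1 h1 h3
  · exact hodd α₂ ha2 h2 h3

/-- the classes are realised by zero-cycles over `ℚ` -/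
theorem realize (hm : 0 < m) (hb : b ≠ 0) {α₁ α₂ : ℚ}
    (hz : ∀ β : AlgebraicClosure ℚ, aeval β h = 0 ↔ β = α₁ ∨ β = α₂)
    (h1 : ∀ k, aeval α₁ (g k) ≠ 0) (h2 : ∀ k, aeval α₂ (g k) ≠ 0) {d : ℤ}
    (hu : Odd d ∨ IsSquare ((b : ℚ) * ∏ k, aeval α₁ (g k))) (n : K → ℚ) (hn : IsClassZ d b n)
    (hper : ZPersistent d g h n) :
    ∃ z : Cycle m b a g h ℚ, z.degree = d ∧ ∀ k, cycVal z k ≠ 0 ∧ IsSquare (cycVal z k * n k) := by
  have hb' : (b : ℚ) ≠ 0 := Int.cast_ne_zero.2 hb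
  have ha1 : aeval α₁ h = 0 := by
    have h3 := (hz α₁).2 (Or.inl rfl)
    rw [aeval_rat] at h3
    exact_mod_cast h3
  have ha2 : aeval α₂ h = 0 := by
    have h3 := (hz α₂).2 (Or.inr rfl)
    rw [aeval_rat] at h3
    exact_mod_cast h3
  obtain ⟨hn0, t, ht⟩ := hn
  have ht0 : t ≠ 0 := by
    rintro rfl
    rw [zero_pow two_ne_zero, mul_zero] at ht
    exact Finset.prod_ne_zero_iff.2 (fun k _ => hn0 k) ht
  rcases Int.even_or_odd d with hd | hd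
  · -- even degree
    have hs1 : IsSquare ((b : ℚ) * ∏ k, aeval α₁ (g k)) :=
      hu.resolve_left fun h3 => Int.not_even_iff_odd.2 h3 hd
    obtain ⟨P₁, -, hP₁⟩ := mkPoint (m := m) (a := a) hm hb ha1 h1 hs1
    obtain ⟨j, hj⟩ := hd
    rcases zpers_even g h α₁ α₂ (fun β hβ => (hz β).1 hβ) h1 h2 n hn0 ⟨j, hj⟩ hper with h3 | h3
    · refine ⟨twoPt P₁ P₁ d 0, by rw [twoPt_degree, add_zero], fun k => ?_⟩
      rw [twoPt_val, hP₁, zpow_zero, mul_one]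
      refine ⟨zpow_ne_zero _ (h1 k), ?_⟩
      obtain ⟨r, hr⟩ := h3 k
      rw [mul_one] at hr
      refine ⟨(aeval α₁ (g k)) ^ j * r, ?_⟩
      rw [hr, hj, zpow_add₀ (h1 k)]
      ring
    · have hs2 : IsSquare ((b : ℚ) * ∏ k, aeval α₂ (g k)) := by
        choose r hr using h3
        obtain ⟨s, hs⟩ := hs1
        have h4 : (∏ k, n k) * ((∏ k, aeval α₁ (g k)) * ∏ k, aeval α₂ (g k)) =
            (∏ k, r k) * ∏ k, r k := by
          rw [← prod_mul_distrib, ← prod_mul_distrib, ← prod_mul_distrib]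
          exact prod_congr rfl fun k _ => hr k
        have hp1 : ∏ k, aeval α₁ (g k) ≠ 0 := Finset.prod_ne_zero_iff.2 fun k _ => h1 k
        have hbj : (b : ℚ) ^ j ≠ 0 := zpow_ne_zero _ hb'
        rw [ht, hj, zpow_add₀ hb'] at h4
        set A₁ := ∏ k, aeval α₁ (g k)
        set A₂ := ∏ k, aeval α₂ (g k)
        set R := ∏ k, r k
        refine ⟨s * R / ((b : ℚ) ^ j * t * A₁), ?_⟩
        field_simp
        have h5 : (b : ℚ) * A₁ = s ^ 2 := by rw [hs]; ring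
        have h6 : ((b : ℚ) ^ j) ^ 2 * t ^ 2 * (A₁ * A₂) = R ^ 2 := by
          rw [sq R, ← h4]
          ring
        rw [← h6, ← h5]
        ring
      obtain ⟨P₂, -, hP₂⟩ := mkPoint (m := m) (a := a) hm hb ha2 h2 hs2
      refine ⟨twoPt P₁ P₂ (d - 1) 1, by rw [twoPt_degree]; ring, fun k => ?_⟩
      rw [twoPt_val, hP₁, hP₂, zpow_one]
      refine ⟨mul_ne_zero (zpow_ne_zero _ (h1 k)) (h2 k), ?_⟩
      obtain ⟨r, hr⟩ := h3 k
      refine ⟨(aeval α₁ (g k)) ^ (j - 1) * r, ?_⟩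
      have h4 : (aeval α₁ (g k)) ^ (d - 1) =
          (aeval α₁ (g k)) ^ (j - 1) * (aeval α₁ (g k)) ^ (j - 1) * aeval α₁ (g k) := by
        rw [← zpow_add₀ (h1 k), ← zpow_add_one₀ (h1 k), hj]
        congr 1
        ring
      rw [h4]
      linear_combination ((aeval α₁ (g k)) ^ (j - 1)) ^ 2 * hr
  · -- odd degree
    obtain ⟨P, -, hP⟩ := realize_odd (m := m) (a := a) hm hb hz h1 h2 hd n ⟨hn0, t, ht⟩ hper
    obtain ⟨j, hj⟩ := hd
    refine ⟨twoPt P P d 0, by rw [twoPt_degree, add_zero], fun k => ?_⟩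
    rw [twoPt_val, zpow_zero, mul_one]
    refine ⟨zpow_ne_zero _ (hP k).1, ?_⟩
    obtain ⟨r, hr⟩ := (hP k).2
    refine ⟨(value P k) ^ j * r, ?_⟩
    have h4 : (value P k) ^ d = (value P k) ^ j * (value P k) ^ j * value P k := by
      rw [← zpow_add₀ (hP k).1, ← zpow_add_one₀ (hP k).1, hj]
      congr 1
      ring
    rw [h4]
    linear_combination ((value P k) ^ j) ^ 2 * hr

/-- The zero-cycle `z` over `ℚ` has the same values as the adelic zero-cycle `Z`, modulo squares. -/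
def SameValues (Z : AdelicCycle m b a g h) (z : Cycle m b a g h ℚ) : Prop :=
  (∀ k, IsSquare (cycVal Z.re k * ((cycVal z k : ℚ) : ℝ))) ∧
    ∀ k (p : Nat.Primes), IsSquare (cycVal (Z.pa p) k * ((cycVal z k : ℚ) : ℚ_[(p : ℕ)]))

lemma same_aux {F : Type} [Field F] [CharZero F] {V : F} {n : ℤ} (hn : n ≠ 0) {c : ℚ}
    (h1 : IsSquare (V * (n : F))) (h2 : IsSquare (c * (n : ℚ))) : IsSquare (V * (c : F)) := by
  obtain ⟨r, hr⟩ := h1
  obtain ⟨s, hs⟩ := h2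
  have hn' : (n : F) ≠ 0 := Int.cast_ne_zero.2 hn
  have hs' : (c : F) * (n : F) = s * s := by exact_mod_cast congrArg (fun q : ℚ => (q : F)) hs
  refine ⟨r * s / n, ?_⟩
  field_simp
  calc V * (c : F) * (n : F) ^ 2 = (V * n) * (c * n) := by ring
    _ = _ := by rw [hr, hs']; ring

lemma g_ne (hh1 : 1 ≤ h.natDegree)
    (hgh : ∀ k, IsCoprime (h.map (Int.castRingHom ℚ)) ((g k).map (Int.castRingHom ℚ))) {α : ℚ}
    (hα : aeval (α : AlgebraicClosure ℚ) h = 0) (k : K) : aeval α (g k) ≠ 0 := by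
  have hh0 : h ≠ 0 := by
    rintro rfl
    rw [natDegree_zero] at hh1
    omega
  rw [← hom_aeval]
  refine coprime_field hh0 (hgh k) (F := ℚ) (z := α) (w := 1) (Or.inr one_ne_zero) ?_
  rw [hom_aeval]
  rw [aeval_rat] at hα
  exact_mod_cast hα

/-- **Two rational zeros.** -/
theorem two_zeros (hb : b ≠ 0) (hg0 : ∀ k, g k ≠ 0) (hh1 : 1 ≤ h.natDegree)
    (hdeg : ∀ k, 2 ∣ (g k).natDegree)
    (hgg : ∀ k l, k ≠ l →
      IsCoprime ((g k).map (Int.castRingHom ℚ)) ((g l).map (Int.castRingHom ℚ)))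
    (hgh : ∀ k, IsCoprime (h.map (Int.castRingHom ℚ)) ((g k).map (Int.castRingHom ℚ)))
    {α₁ α₂ : ℚ} (hz : ∀ β : AlgebraicClosure ℚ, aeval β h = 0 ↔ β = α₁ ∨ β = α₂) :
    ∃ κ : ℝ, 0 < κ ∧ ∃ C : ℝ, ∀ X : ℕ, 3 ≤ X →
      ({a : ℤ | a.natAbs ≤ X ∧ Squarefree a ∧ ∃ m, 0 < m ∧ Even m ∧ m ∣ h.natDegree ∧
        ∃ (d : ℤ) (Z : AdelicCycle m b a g h), Z.Parity d ∧ Z.Orthogonal ∧
          (Odd d ∨ IsSquare ((b : ℚ) * ∏ k, aeval α₁ (g k))) ∧
          ¬ ∃ z : Cycle m b a g h ℚ, z.degree = d ∧ SameValues Z z}.ncard : ℝ) ≤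
        C * X * (Real.log X) ^ (-κ) := by
  obtain ⟨κ, hκ, C, hC⟩ := zc_main hb hg0 hh1 hdeg hgg hgh
  refine ⟨κ, hκ, C, fun X hX => le_trans ?_ (hC X hX)⟩
  refine Nat.cast_le.2 (Set.ncard_le_ncard ?_ ?_)
  · rintro a ⟨h1, h2, m, hm0, hm, hmh, d, Z, hd, hZ, hu, hno⟩
    refine ⟨h1, h2, m, hm, hmh, d, Z, hd, hZ, ?_⟩
    rintro ⟨n, hn1, hn2, hn3, hn4, hn5⟩
    obtain ⟨z, hz1, hz2⟩ := realize (m := m) (a := a) hm0 hb hz
      (fun k => g_ne hh1 hgh ((hz α₁).2 (Or.inl rfl)) k)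
      (fun k => g_ne hh1 hgh ((hz α₂).2 (Or.inr rfl)) k) hu _ hn2 hn3
    exact hno ⟨z, hz1, fun k => same_aux (hn1 k).ne_zero (hn4 k) (hz2 k).2,
      fun k p => same_aux (hn1 k).ne_zero (hn5 k p) (hz2 k).2⟩
  · apply (Set.finite_Icc (-(X : ℤ)) X).subset
    intro d hd
    have h1 : d.natAbs ≤ X := hd.1
    rw [Set.mem_Icc]
    omega

/-- **No persistent classes.** -/
theorem none_of (hb : b ≠ 0) (hg0 : ∀ k, g k ≠ 0) (hh1 : 1 ≤ h.natDegree)
    (hdeg : ∀ k, 2 ∣ (g k).natDegree)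
    (hgg : ∀ k l, k ≠ l →
      IsCoprime ((g k).map (Int.castRingHom ℚ)) ((g l).map (Int.castRingHom ℚ)))
    (hgh : ∀ k, IsCoprime (h.map (Int.castRingHom ℚ)) ((g k).map (Int.castRingHom ℚ)))
    (hno : ∀ (d : ℤ) (δ : K → ℚ), Odd d → IsClassZ d b δ → ¬ ZPersistent d g h δ) :
    ∃ κ : ℝ, 0 < κ ∧ ∃ C : ℝ, ∀ X : ℕ, 3 ≤ X →
      ({a : ℤ | a.natAbs ≤ X ∧ Squarefree a ∧ ∃ m, Even m ∧ m ∣ h.natDegree ∧
        ∃ (d : ℤ) (Z : AdelicCycle m b a g h), Odd d ∧ Z.Parity d ∧ Z.Orthogonal}.ncard : ℝ) ≤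
        C * X * (Real.log X) ^ (-κ) := by
  obtain ⟨κ, hκ, C, hC⟩ := zc_main hb hg0 hh1 hdeg hgg hgh
  refine ⟨κ, hκ, C, fun X hX => le_trans ?_ (hC X hX)⟩
  refine Nat.cast_le.2 (Set.ncard_le_ncard ?_ ?_)
  · rintro a ⟨h1, h2, m, hm, hmh, d, Z, hodd, hd, hZ⟩
    refine ⟨h1, h2, m, hm, hmh, d, Z, hd, hZ, ?_⟩
    rintro ⟨n, hn1, hn2, hn3, -⟩
    exact hno d _ hodd hn2 hn3
  · apply (Set.finite_Icc (-(X : ℤ)) X).subset
    intro d hd
    have h1 : d.natAbs ≤ X := hd.1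
    rw [Set.mem_Icc]
    omega

end Pool.Agent.R925.ZC
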