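import Mathlib
import Pool.Agent.TH954.SFix

/-! The residue map of the algebraic closure of `ℚ_p`. -/

set_option autoImplicit false

namespace Pool.Agent.R925.ZC

open Polynomial

section

variable (p : ℕ) [hp : Fact p.Prime]

/-- the elements of norm at most one -/
noncomputable def OO : ValuationSubring (PadicAlgCl p) := (Valued.v : Valuation (PadicAlgCl p) _).valuationSubring

variable {p}

lemma mem_OO {x : PadicAlgCl p} : x ∈ OO p ↔ ‖x‖ ≤ 1 := by
  rw [OO, Valuation.mem_valuationSubring_iff, ← PadicAlgCl.valuation_coe]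
  norm_cast

lemma residue_zero_iff {x : OO p} : IsLocalRing.residue (OO p) x = 0 ↔ ‖(x : PadicAlgCl p)‖ < 1 := by
  rw [IsLocalRing.residue_eq_zero_iff, IsLocalRing.mem_maximalIdeal, mem_nonunits_iff]
  constructor
  · intro h
    by_contra h1
    apply h
    have h2 : ‖(x : PadicAlgCl p)‖ = 1 := le_antisymm (mem_OO.1 x.2) (not_lt.1 h1)
    have h0 : (x : PadicAlgCl p) ≠ 0 := by
      intro h3
      rw [h3, norm_zero] at h2
      exact zero_ne_one h2
    refine IsUnit.of_mul_eq_one (⟨(x : PadicAlgCl p)⁻¹, mem_OO.2 (by rw [norm_inv, h2, inv_one])⟩ : OO p) ?_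
    exact Subtype.ext (mul_inv_cancel₀ h0)
  · rintro h ⟨u, hu⟩
    have h1 : (u : OO p) * ((u⁻¹ : (OO p)ˣ) : OO p) = 1 := u.mul_inv
    have h2 := congrArg (fun y : OO p => ‖(y : PadicAlgCl p)‖) h1
    simp only [MulMemClass.coe_mul, norm_mul, OneMemClass.coe_one, norm_one] at h2
    have h3 := mem_OO.1 ((u⁻¹ : (OO p)ˣ) : OO p).2
    rw [hu] at h2
    have h4 : ‖(x : PadicAlgCl p)‖ * ‖(((u⁻¹ : (OO p)ˣ) : OO p) : PadicAlgCl p)‖ < 1 := by
      calc _ ≤ ‖(x : PadicAlgCl p)‖ * 1 := mul_le_mul_of_nonneg_left h3 (norm_nonneg _)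
        _ < 1 := by rw [mul_one]; exact h
    linarith

/-- the `p`-adic integers in `OO` -/
noncomputable def zO : ℤ_[p] →+* OO p where
  toFun c := ⟨algebraMap ℚ_[p] (PadicAlgCl p) c, mem_OO.2 (by
    rw [norm_algebraMap', PadicInt.padic_norm_e_of_padicInt]
    exact PadicInt.norm_le_one c)⟩
  map_one' := Subtype.ext (by simp)
  map_zero' := Subtype.ext (by simp)
  map_mul' _ _ := Subtype.ext (by simp)
  map_add' _ _ := Subtype.ext (by simp)

lemma zO_coe (c : ℤ_[p]) : ((zO c : OO p) : PadicAlgCl p) = algebraMap ℚ_[p] (PadicAlgCl p) c := rfl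

/-- **The residue map.** -/
theorem exists_rho (p : ℕ) [hp : Fact p.Prime] : ∃ ρ : OO p →+* AlgebraicClosure (ZMod p),
    (∀ x, ρ x = 0 ↔ ‖(x : PadicAlgCl p)‖ < 1) ∧
    ∀ c : ℤ_[p], ρ (zO c) = algebraMap (ZMod p) (AlgebraicClosure (ZMod p)) (PadicInt.toZMod c) := by
  set κ := IsLocalRing.ResidueField (OO p) with hκ
  have hp0 : (p : κ) = 0 := by
    have h1 : IsLocalRing.residue (OO p) (p : OO p) = 0 := by
      rw [residue_zero_iff]
      have h2 : (((p : OO p)) : PadicAlgCl p) = algebraMap ℚ_[p] (PadicAlgCl p) (p : ℚ_[p]) := by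
        rw [map_natCast]
        rfl
      rw [h2, norm_algebraMap', Padic.norm_p]
      exact inv_lt_one_of_one_lt₀ (by exact_mod_cast hp.out.one_lt)
    rwa [map_natCast] at h1
  have hchar : CharP κ p := (CharP.charP_iff_prime_eq_zero hp.out).2 hp0
  let _ : Algebra (ZMod p) κ := ZMod.algebra κ p
  have hz : ∀ c : ℤ_[p], IsLocalRing.residue (OO p) (zO c) = algebraMap (ZMod p) κ (PadicInt.toZMod c) := by
    intro c
    have h1 : c - ((PadicInt.toZMod c).val : ℤ_[p]) ∈ RingHom.ker (PadicInt.toZMod (p := p)) := by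
      rw [RingHom.mem_ker, map_sub, map_natCast, ZMod.natCast_zmod_val, sub_self]
    rw [PadicInt.ker_toZMod, PadicInt.maximalIdeal_eq_span_p, Ideal.mem_span_singleton] at h1
    obtain ⟨d, hd⟩ := h1
    have h2 : c = ((PadicInt.toZMod c).val : ℤ_[p]) + p * d := by rw [← hd]; ring
    have h3 : IsLocalRing.residue (OO p) (zO c) =
        IsLocalRing.residue (OO p) (zO (((PadicInt.toZMod c).val : ℤ_[p]) + p * d)) := by
      rw [← h2]
    rw [h3, map_add, map_add, map_mul, map_mul, map_natCast, map_natCast, map_natCast, map_natCast,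
      hp0, zero_mul, add_zero]
    conv_rhs => rw [← ZMod.natCast_zmod_val (PadicInt.toZMod c), map_natCast]
  have halg : Algebra.IsAlgebraic (ZMod p) κ := by
    refine ⟨fun y => ?_⟩
    obtain ⟨x, rfl⟩ := IsLocalRing.residue_surjective y
    have hx1 : spectralNorm ℚ_[p] (PadicAlgCl p) (x : PadicAlgCl p) ≤ 1 := mem_OO.1 x.2
    have hint : IsIntegral ℚ_[p] (x : PadicAlgCl p) := Algebra.IsIntegral.isIntegral _
    have hmon := minpoly.monic hint
    have hco : ∀ n, ‖(minpoly ℚ_[p] (x : PadicAlgCl p)).coeff n‖ ≤ 1 :=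
      (spectralValue_le_one_iff hmon).1 hx1
    have hl : minpoly ℚ_[p] (x : PadicAlgCl p) ∈ lifts (algebraMap ℤ_[p] ℚ_[p]) := by
      rw [lifts_iff_coeff_lifts]
      intro n
      exact ⟨⟨_, hco n⟩, rfl⟩
    obtain ⟨q, hq1, -, hq2⟩ := lifts_and_natDegree_eq_and_monic hl hmon
    refine ⟨q.map PadicInt.toZMod, (hq2.map _).ne_zero, ?_⟩
    have h1 : eval₂ (zO (p := p)) x q = 0 := by
      apply Subtype.ext
      have h2 : (OO p).subtype (eval₂ (zO (p := p)) x q) =
          eval₂ ((OO p).subtype.comp (zO (p := p))) (x : PadicAlgCl p) q :=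
        hom_eval₂ q (zO (p := p)) (OO p).subtype x
      have h3 : (OO p).subtype.comp (zO (p := p)) =
          (algebraMap ℚ_[p] (PadicAlgCl p)).comp (algebraMap ℤ_[p] ℚ_[p]) := rfl
      rw [h3, ← eval₂_map, hq1, ← aeval_def, minpoly.aeval] at h2
      exact h2
    have h2 := congrArg (IsLocalRing.residue (OO p)) h1
    rw [hom_eval₂, map_zero] at h2
    have h3 : (IsLocalRing.residue (OO p)).comp (zO (p := p)) =
        (algebraMap (ZMod p) κ).comp (PadicInt.toZMod (p := p)) := RingHom.ext hz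
    rw [h3] at h2
    rw [aeval_def, eval₂_map]
    exact h2
  let ψ : κ →ₐ[ZMod p] AlgebraicClosure (ZMod p) := IsAlgClosed.lift
  refine ⟨(ψ : κ →+* AlgebraicClosure (ZMod p)).comp (IsLocalRing.residue (OO p)), fun x => ?_,
    fun c => ?_⟩
  · rw [RingHom.comp_apply, RingHom.coe_coe, map_eq_zero_iff ψ ψ.injective, residue_zero_iff]
  · rw [RingHom.comp_apply, hz, RingHom.coe_coe, AlgHom.commutes]

end

end Pool.Agent.R925.ZC
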