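import Pool.Agent.R925.ZC.Emb
import Pool.Agent.W335.BMX.Odd

/-! Points which are not close to the branch points. -/

set_option autoImplicit false
set_option linter.unusedSectionVars false

namespace Pool.Agent.R925.ZC

open Polynomial Finset

/-- The norm of a value of the form `x² - a y²` is such a value. -/
lemma norm_form (K E : Type) [Field K] [Field E] [Algebra K E] [FiniteDimensional K E] (X Y : E)
    (a : K) : ∃ α₁ α₂ : K, Algebra.norm K (X ^ 2 - algebraMap K E a * Y ^ 2) =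
      α₁ ^ 2 - a * α₂ ^ 2 := by
  classical
  let b := Module.finBasis K E
  set n := Module.finrank K E with hn
  set A := AlgebraicClosure K with hA
  obtain ⟨s, hs⟩ := IsAlgClosed.exists_pow_nat_eq (algebraMap K A a) (n := 2) (by norm_num)
  let φ : E →+* Matrix (Fin n) (Fin n) A :=
    ((algebraMap K A).mapMatrix).comp (Algebra.leftMulMatrix b : E →+* Matrix (Fin n) (Fin n) K)
  have hφ : ∀ x : E, φ x = (Algebra.leftMulMatrix b x).map (algebraMap K A) := fun x => rfl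
  have hφa : φ (algebraMap K E a) = (s ^ 2) • (1 : Matrix (Fin n) (Fin n) A) := by
    rw [hφ, AlgHom.commutes, hs, Algebra.algebraMap_eq_smul_one]
    ext i j
    by_cases hij : i = j
    · subst hij
      simp
    · simp [Matrix.one_apply_ne hij]
  set D : K[X] := ((Algebra.leftMulMatrix b X).map C +
    (Polynomial.X : K[X]) • (Algebra.leftMulMatrix b Y).map C).det with hD
  have hev : ∀ t : A, eval₂ (algebraMap K A) t D = (φ X + t • φ Y).det := by
    intro t
    rw [hD, ← coe_eval₂RingHom, RingHom.map_det]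
    congr 1
    ext i j
    simp only [RingHom.mapMatrix_apply, Matrix.map_apply, Matrix.add_apply, Matrix.smul_apply, hφ,
      smul_eq_mul, map_add, coe_eval₂RingHom, eval₂_C]
    rw [eval₂_mul, eval₂_X, eval₂_C]
  have hcomm : φ X * φ Y = φ Y * φ X := by
    rw [← map_mul, ← map_mul, mul_comm]
  have hprod : eval₂ (algebraMap K A) s D * eval₂ (algebraMap K A) (-s) D =
      algebraMap K A (Algebra.norm K (X ^ 2 - algebraMap K E a * Y ^ 2)) := by
    rw [hev, hev, ← Matrix.det_mul, Algebra.norm_eq_matrix_det b, RingHom.map_det]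
    congr 1
    change _ = φ (X ^ 2 - algebraMap K E a * Y ^ 2)
    rw [map_sub, map_pow, map_mul, map_pow, hφa]
    rw [mul_add, add_mul, add_mul, neg_smul, Matrix.mul_neg, Matrix.mul_neg, Matrix.smul_mul,
      Matrix.mul_smul, Matrix.smul_mul, Matrix.mul_smul, hcomm, smul_smul, ← sq, ← sq, ← sq,
      Matrix.smul_mul, Matrix.one_mul]
    abel
  set r := D %ₘ (Polynomial.X ^ 2 - C a) with hr
  have hm : (Polynomial.X ^ 2 - C a : K[X]).Monic := monic_X_pow_sub_C a two_ne_zero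
  have hdeg : r.natDegree < 2 := by
    have h1 := natDegree_modByMonic_lt D hm (by
      intro h
      have h2 := congrArg natDegree h
      rw [natDegree_X_pow_sub_C, natDegree_one] at h2
      omega)
    rwa [natDegree_X_pow_sub_C] at h1
  have hrt : ∀ t : A, t ^ 2 = algebraMap K A a → eval₂ (algebraMap K A) t D =
      algebraMap K A (r.coeff 0) + algebraMap K A (r.coeff 1) * t := by
    intro t ht
    rw [← modByMonic_add_div D (Polynomial.X ^ 2 - C a), eval₂_add, eval₂_mul, eval₂_sub, eval₂_pow,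
      eval₂_X, eval₂_C, ht, sub_self, zero_mul, add_zero, ← hr,
      eval₂_eq_sum_range' (algebraMap K A) hdeg, Finset.sum_range_succ, Finset.sum_range_one,
      pow_zero, mul_one, pow_one]
  refine ⟨r.coeff 0, r.coeff 1, (algebraMap K A).injective ?_⟩
  rw [← hprod, hrt s hs, hrt (-s) (by rw [neg_sq, hs]), map_sub, map_mul, map_pow, map_pow, ← hs]
  ring

section

variable {p : ℕ} [hp : Fact p.Prime]

lemma toZMod_zero_iff (x : ℤ_[p]) : PadicInt.toZMod x = 0 ↔ ‖(x : ℚ_[p])‖ < 1 := by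
  rw [Pool.Agent.W335.BMX.toZMod_eq_zero_iff, ← PadicInt.norm_lt_one_iff_dvd,
    PadicInt.norm_def]

/-- elements close to one are squares -/
lemma sq_near (hp2 : p ≠ 2) {c : ℤ_[p]} {r : ZMod p} (hr : r ≠ 0) (h : PadicInt.toZMod c = r ^ 2) :
    IsSquare (c : ℚ_[p]) :=
  Pool.Agent.W335.BMX.isSquare_coe (Pool.Agent.W335.BMX.sq_of_residue hp2 c r hr h)

variable {E : Type} [Field E] [Algebra ℚ_[p] E] [FiniteDimensional ℚ_[p] E]

variable (p E) in
/-- the ring of integers of `E` -/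
noncomputable def OE : Subring E :=
  (OO p).toSubring.comap ((IsAlgClosed.lift (M := PadicAlgCl p) : E →ₐ[ℚ_[p]] PadicAlgCl p) :
    E →+* PadicAlgCl p)

lemma mem_OE {x : E} : x ∈ OE p E ↔ nE p x ≤ 1 := by
  rw [OE, Subring.mem_comap]
  exact mem_OO

/-- the embedding of the integers -/
noncomputable def emR (τ : E →ₐ[ℚ_[p]] PadicAlgCl p) : OE p E →+* OO p where
  toFun x := ⟨τ x, mem_OO.2 (by rw [norm_eq_nE]; exact mem_OE.1 x.2)⟩
  map_one' := Subtype.ext (by simp)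
  map_zero' := Subtype.ext (by simp)
  map_mul' _ _ := Subtype.ext (by simp)
  map_add' _ _ := Subtype.ext (by simp)

/-- the reduction -/
noncomputable def red (ρ : OO p →+* AlgebraicClosure (ZMod p)) (τ : E →ₐ[ℚ_[p]] PadicAlgCl p) :
    OE p E →+* AlgebraicClosure (ZMod p) := ρ.comp (emR τ)

variable {ρ : OO p →+* AlgebraicClosure (ZMod p)}
  (hρ0 : ∀ x, ρ x = 0 ↔ ‖(x : PadicAlgCl p)‖ < 1)
  (hρ : ∀ c : ℤ_[p], ρ (zO c) = algebraMap (ZMod p) (AlgebraicClosure (ZMod p)) (PadicInt.toZMod c))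

include hρ0 in
lemma red_zero (τ : E →ₐ[ℚ_[p]] PadicAlgCl p) (x : OE p E) : red ρ τ x = 0 ↔ nE p (x : E) < 1 := by
  rw [red, RingHom.comp_apply, hρ0]
  change ‖τ x‖ < 1 ↔ _
  rw [norm_eq_nE]

include hρ0 in
lemma red_ne (τ : E →ₐ[ℚ_[p]] PadicAlgCl p) (x : OE p E) : red ρ τ x ≠ 0 ↔ nE p (x : E) = 1 := by
  rw [Ne, red_zero hρ0]
  have := mem_OE.1 x.2
  constructor
  · intro h
    exact le_antisymm this (not_lt.1 h)
  · intro h h1
    rw [h] at h1
    exact lt_irrefl _ h1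

include hρ in
/-- the norm and the reduction -/
lemma norm_red (x : OE p E) : ∃ c : ℤ_[p], (c : ℚ_[p]) = Algebra.norm ℚ_[p] (x : E) ∧
    algebraMap (ZMod p) (AlgebraicClosure (ZMod p)) (PadicInt.toZMod c) =
      ∏ τ : E →ₐ[ℚ_[p]] PadicAlgCl p, red ρ τ x := by
  have h1 : ‖Algebra.norm ℚ_[p] (x : E)‖ ≤ 1 := by
    rw [norm_norm]
    exact pow_le_one₀ (nE_nonneg _) (mem_OE.1 x.2)
  obtain ⟨c, hc⟩ : ∃ c : ℤ_[p], (c : ℚ_[p]) = Algebra.norm ℚ_[p] (x : E) := ⟨⟨_, h1⟩, rfl⟩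
  refine ⟨c, hc, ?_⟩
  rw [← hρ]
  simp only [red, RingHom.comp_apply]
  rw [← map_prod]
  congr 1
  apply Subtype.ext
  rw [zO_coe, hc, norm_prod]
  change _ = (OO p).subtype (∏ τ : E →ₐ[ℚ_[p]] PadicAlgCl p, emR τ x)
  rw [map_prod]
  rfl

include hρ0 hρ in
/-- The reductions of the integers form a field-like set: sums of the form `x ^ 2 - w * y ^ 2`. -/
lemma quad_rep (hp2 : p ≠ 2) (τ : E →ₐ[ℚ_[p]] PadicAlgCl p) (u w : OE p E) (hw : red ρ τ w ≠ 0) :
    ∃ x y : OE p E, red ρ τ u = red ρ τ x ^ 2 - red ρ τ w * red ρ τ y ^ 2 := by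
  classical
  set k := AlgebraicClosure (ZMod p) with hk
  set S : Set k := {red ρ τ u, red ρ τ w} with hS
  have hSf : S.Finite := Set.toFinite _
  have hint : ∀ x ∈ S, IsIntegral (ZMod p) x := fun x _ => Algebra.IsIntegral.isIntegral x
  have halg : ∀ x ∈ S, IsAlgebraic (ZMod p) x := fun x _ => Algebra.IsAlgebraic.isAlgebraic x
  set F := IntermediateField.adjoin (ZMod p) S with hF
  have hfd : FiniteDimensional (ZMod p) F := by
    have : Finite S := hSf
    exact IntermediateField.finiteDimensional_adjoin hint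
  have hfin : Finite F := Module.finite_of_finite (ZMod p)
  have hft : Fintype F := Fintype.ofFinite F
  have hsub : F.toSubalgebra = Algebra.adjoin (ZMod p) S :=
    IntermediateField.adjoin_toSubalgebra_of_isAlgebraic halg
  -- the elements of `F` are reductions
  have hred : ∀ x : k, x ∈ Algebra.adjoin (ZMod p) S → ∃ y : OE p E, red ρ τ y = x := by
    intro x hx
    induction hx using Algebra.adjoin_induction with
    | mem x hx =>
      rcases hx with h | h
      · exact ⟨u, h.symm⟩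
      · exact ⟨w, h.symm⟩
    | algebraMap r =>
      refine ⟨(r.val : OE p E), ?_⟩
      rw [map_natCast]
      conv_rhs => rw [← ZMod.natCast_zmod_val r, map_natCast]
    | add x y _ _ hx hy =>
      obtain ⟨x', rfl⟩ := hx
      obtain ⟨y', rfl⟩ := hy
      exact ⟨x' + y', map_add _ _ _⟩
    | mul x y _ _ hx hy =>
      obtain ⟨x', rfl⟩ := hx
      obtain ⟨y', rfl⟩ := hy
      exact ⟨x' * y', map_mul _ _ _⟩
  have hmem : ∀ x : F, ∃ y : OE p E, red ρ τ y = x := by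
    intro x
    apply hred
    rw [← hsub]
    exact x.2
  set u' : F := ⟨red ρ τ u, IntermediateField.subset_adjoin _ _ (Or.inl rfl)⟩ with hu'
  set w' : F := ⟨red ρ τ w, IntermediateField.subset_adjoin _ _ (Or.inr rfl)⟩ with hw'
  have hw0 : w' ≠ 0 := fun h => hw (congrArg Subtype.val h)
  have hd1 : degree (X ^ 2 - C u' : F[X]) = 2 := degree_X_pow_sub_C (by norm_num) _
  have hd2 : degree (C (-w') * X ^ 2 : F[X]) = 2 := degree_C_mul_X_pow 2 (neg_ne_zero.2 hw0)
  have hcard : Fintype.card F % 2 = 1 := by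
    have : CharP F p := charP_of_injective_algebraMap (algebraMap (ZMod p) F).injective p
    obtain ⟨n, hn, hc⟩ := FiniteField.card F p
    rw [hc]
    exact Nat.odd_iff.1 ((hp.out.odd_of_ne_two hp2).pow)
  obtain ⟨x, y, hxy⟩ := FiniteField.exists_root_sum_quadratic hd1 hd2 hcard
  simp only [eval_mul, eval_C, eval_pow, eval_X, eval_sub] at hxy
  obtain ⟨x', hx'⟩ := hmem x
  obtain ⟨y', hy'⟩ := hmem y
  refine ⟨x', y', ?_⟩
  rw [hx', hy']
  have h1 := congrArg (algebraMap F k) hxy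
  rw [map_add, map_sub, map_mul, map_pow, map_pow, map_neg, map_zero] at h1
  have e1 : algebraMap F k u' = red ρ τ u := rfl
  have e2 : algebraMap F k w' = red ρ τ w := rfl
  have e3 : algebraMap F k x = x := rfl
  have e4 : algebraMap F k y = y := rfl
  rw [e1, e2, e3, e4] at h1
  linear_combination -h1

include hρ0 in
lemma nE_lt_of_red_eq (τ : E →ₐ[ℚ_[p]] PadicAlgCl p) {x y : OE p E} (h : red ρ τ x = red ρ τ y) :
    nE p ((x : E) - y) < 1 := by
  have h1 : red ρ τ (x - y) = 0 := by rw [map_sub, h, sub_self]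
  have h2 := (red_zero hρ0 τ (x - y)).1 h1
  rwa [AddSubgroupClass.coe_sub] at h2

include hρ0 in
lemma red_eq_of_nE_lt (τ : E →ₐ[ℚ_[p]] PadicAlgCl p) {x y : OE p E} (h : nE p ((x : E) - y) < 1) :
    red ρ τ x = red ρ τ y := by
  have h1 : red ρ τ (x - y) = 0 := (red_zero hρ0 τ (x - y)).2 (by rwa [AddSubgroupClass.coe_sub])
  rwa [map_sub, sub_eq_zero] at h1

/-- The degree is even. -/
lemma even_finrank {a : ℚ_[p]} (ha : ‖a‖ = (p : ℝ)⁻¹) {π w : E} (hw : nE p w = 1)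
    (h : algebraMap ℚ_[p] E a = w * π ^ 2) : Even (Module.finrank ℚ_[p] E) := by
  have hp1 : (1 : ℝ) < p := by exact_mod_cast hp.out.one_lt
  have ha0 : a ≠ 0 := by
    intro h0
    rw [h0, norm_zero] at ha
    have : (0 : ℝ) < (p : ℝ)⁻¹ := inv_pos.2 (by linarith)
    linarith
  have hπ : π ≠ 0 := by
    rintro rfl
    rw [zero_pow two_ne_zero, mul_zero, map_eq_zero] at h
    exact ha0 h
  have h1 : ‖Algebra.norm ℚ_[p] (algebraMap ℚ_[p] E a)‖ = ‖Algebra.norm ℚ_[p] (w * π ^ 2)‖ := by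
    rw [h]
  rw [Algebra.norm_algebraMap, norm_pow, ha, map_mul, norm_mul, norm_norm w, hw, one_pow, one_mul,
    map_pow, norm_pow] at h1
  have hN : Algebra.norm ℚ_[p] π ≠ 0 := Algebra.norm_ne_zero_iff.2 hπ
  rw [Padic.norm_eq_zpow_neg_valuation hN] at h1
  set v := (Algebra.norm ℚ_[p] π).valuation with hv
  have h2 : (p : ℝ) ^ (-(Module.finrank ℚ_[p] E : ℤ)) = (p : ℝ) ^ (-(2 * v)) := by
    rw [zpow_neg, zpow_natCast, ← inv_pow, h1, ← zpow_natCast, ← zpow_mul]
    congr 1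
    push_cast
    ring
  have h3 := zpow_right_injective₀ (by linarith) (by linarith) h2
  have h4 : Even ((Module.finrank ℚ_[p] E : ℤ)) := ⟨v, by linarith⟩
  exact_mod_cast h4

lemma par {a : ℚ_[p]} (ha : ‖a‖ = (p : ℝ)⁻¹) {A B : ℚ_[p]} (hA : A ≠ 0) :
    ‖a * B ^ 2‖ ≠ ‖A ^ 2‖ := by
  have hp1 : (1 : ℝ) < p := by exact_mod_cast hp.out.one_lt
  intro h
  have hB : B ≠ 0 := by
    rintro rfl
    rw [zero_pow two_ne_zero, mul_zero, norm_zero] at h
    exact pow_ne_zero 2 hA (norm_eq_zero.1 h.symm)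
  rw [norm_mul, norm_pow, norm_pow, ha, Padic.norm_eq_zpow_neg_valuation hB,
    Padic.norm_eq_zpow_neg_valuation hA, ← zpow_neg_one, ← zpow_natCast, ← zpow_natCast, ← zpow_mul,
    ← zpow_mul, ← zpow_add₀ (by linarith)] at h
  have h3 := zpow_right_injective₀ (by linarith) (by linarith) h
  push_cast at h3
  omega

/-- units of the form `A ^ 2 - a * B ^ 2` -/
lemma form_sq (hp2 : p ≠ 2) {a : ℚ_[p]} (ha : ‖a‖ = (p : ℝ)⁻¹) {A B : ℚ_[p]}
    (h : ‖A ^ 2 - a * B ^ 2‖ = 1) : IsSquare (A ^ 2 - a * B ^ 2) := by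
  have h1 : ‖a * B ^ 2‖ < 1 := by
    by_contra hc
    have hc' : 1 ≤ ‖a * B ^ 2‖ := not_lt.1 hc
    have hne : ‖A ^ 2‖ ≠ ‖-(a * B ^ 2)‖ := by
      rw [norm_neg]
      by_cases hA : A = 0
      · rw [hA, zero_pow two_ne_zero, norm_zero]
        linarith
      · exact (par ha hA).symm
    have h2 := IsUltrametricDist.norm_add_eq_max_of_norm_ne_norm hne
    rw [← sub_eq_add_neg, h, norm_neg] at h2
    have h3 : ‖a * B ^ 2‖ ≤ 1 := by
      rw [h2]
      exact le_max_right _ _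
    have h4 := par (B := B) ha (one_ne_zero (α := ℚ_[p]))
    rw [one_pow, norm_one] at h4
    exact h4 (le_antisymm h3 hc')
  have h2 : ‖A ^ 2‖ ≤ 1 := by
    have e : A ^ 2 = (A ^ 2 - a * B ^ 2) + a * B ^ 2 := by ring
    rw [e]
    refine (IsUltrametricDist.norm_add_le_max _ _).trans (max_le h.le h1.le)
  have h3 : ‖A‖ ≤ 1 := by
    rw [norm_pow] at h2
    exact (pow_le_one_iff_of_nonneg (norm_nonneg _) two_ne_zero).1 h2
  obtain ⟨c, hc⟩ : ∃ c : ℤ_[p], (c : ℚ_[p]) = A ^ 2 - a * B ^ 2 := ⟨⟨_, h.le⟩, rfl⟩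
  obtain ⟨α, hα⟩ : ∃ α : ℤ_[p], (α : ℚ_[p]) = A := ⟨⟨_, h3⟩, rfl⟩
  have h4 : PadicInt.toZMod (c - α ^ 2) = 0 := by
    rw [toZMod_zero_iff]
    push_cast
    rw [hc, hα, sub_sub_cancel_left, norm_neg]
    exact h1
  have h5 : PadicInt.toZMod c = (PadicInt.toZMod α) ^ 2 := by
    rw [map_sub, map_pow] at h4
    exact sub_eq_zero.1 h4
  have h6 : PadicInt.toZMod α ≠ 0 := by
    intro h0
    rw [h0, zero_pow two_ne_zero, toZMod_zero_iff, hc, h] at h5
    exact lt_irrefl _ h5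
  rw [← hc]
  exact sq_near hp2 h6 h5

/-- The norms of the units are squares. -/
lemma norm_sq (hp2 : p ≠ 2) {a : ℚ_[p]} (ha : ‖a‖ = (p : ℝ)⁻¹) {π w : E} (hw : nE p w = 1)
    (h : algebraMap ℚ_[p] E a = w * π ^ 2) {u : E} (hu : nE p u = 1) :
    IsSquare (Algebra.norm ℚ_[p] u) := by
  classical
  obtain ⟨ρ, hρ0, hρ⟩ := exists_rho p
  have hp1 : (1 : ℝ) < p := by exact_mod_cast hp.out.one_lt
  have ha0 : a ≠ 0 := by
    intro h0
    rw [h0, norm_zero] at ha
    have : (0 : ℝ) < (p : ℝ)⁻¹ := inv_pos.2 (by linarith)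
    linarith
  have hπ : π ≠ 0 := by
    rintro rfl
    rw [zero_pow two_ne_zero, mul_zero, map_eq_zero] at h
    exact ha0 h
  obtain ⟨τ⟩ : Nonempty (E →ₐ[ℚ_[p]] PadicAlgCl p) := inferInstance
  set U : OE p E := ⟨u, mem_OE.2 hu.le⟩ with hU
  set W : OE p E := ⟨w, mem_OE.2 hw.le⟩ with hW
  obtain ⟨x, y, hxy⟩ := quad_rep hρ0 hρ hp2 τ U W ((red_ne hρ0 τ W).2 hw)
  rw [← map_pow, ← map_pow, ← map_mul, ← map_sub] at hxy
  set V : OE p E := x ^ 2 - W * y ^ 2 with hV
  have hV1 : nE p (V : E) = 1 := (red_ne hρ0 τ V).1 (by rw [← hxy]; exact (red_ne hρ0 τ U).2 hu)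
  have hVE : (V : E) = (x : E) ^ 2 - algebraMap ℚ_[p] E a * ((y : E) / π) ^ 2 := by
    rw [h, hV]
    push_cast
    rw [div_pow, mul_assoc, mul_div_cancel₀ _ (pow_ne_zero 2 hπ)]
  obtain ⟨α₁, α₂, hα⟩ := norm_form ℚ_[p] E (x : E) ((y : E) / π) a
  rw [← hVE] at hα
  have hNV : ‖Algebra.norm ℚ_[p] (V : E)‖ = 1 := by rw [norm_norm, hV1, one_pow]
  -- the norm of `V` is a square
  have hsqV : IsSquare (Algebra.norm ℚ_[p] (V : E)) := by
    rw [hα]
    exact form_sq hp2 ha (by rw [← hα]; exact hNV)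
  -- the quotient
  set q : E := (V : E) * u with hq
  have hnq : nE p (q : E) = 1 := by rw [hq, nE_mul, hV1, hu, one_mul]
  have hsqq : IsSquare (Algebra.norm ℚ_[p] q) := by
    obtain ⟨c, hc1, hc2⟩ := norm_red (ρ := ρ) hρ (V * U)
    obtain ⟨c', hc1', hc2'⟩ := norm_red (ρ := ρ) hρ U
    have h1 : ∀ τ' : E →ₐ[ℚ_[p]] PadicAlgCl p, red ρ τ' V = red ρ τ' U := by
      intro τ'
      exact (red_eq_of_nE_lt hρ0 τ' (nE_lt_of_red_eq hρ0 τ hxy)).symm
    have h2 : PadicInt.toZMod c = (PadicInt.toZMod c') ^ 2 := by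
      apply (algebraMap (ZMod p) (AlgebraicClosure (ZMod p))).injective
      rw [hc2, map_pow, hc2', ← Finset.prod_pow]
      refine Finset.prod_congr rfl fun τ' _ => ?_
      rw [map_mul, h1, sq]
    have h3 : PadicInt.toZMod c' ≠ 0 := by
      rw [Ne, toZMod_zero_iff, hc1']
      change ¬ ‖Algebra.norm ℚ_[p] u‖ < 1
      rw [norm_norm, hu, one_pow]
      exact lt_irrefl _
    have h4 := sq_near hp2 h3 h2
    rw [hc1] at h4
    exact h4
  have hV0 : (V : E) ≠ 0 := by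
    intro h0
    rw [h0, nE_zero] at hV1
    exact zero_ne_one hV1
  obtain ⟨r, hr⟩ := hsqV
  obtain ⟨r', hr'⟩ := hsqq
  have hN0 : Algebra.norm ℚ_[p] (V : E) ≠ 0 := Algebra.norm_ne_zero_iff.2 hV0
  have hr0 : r ≠ 0 := by
    rintro rfl
    rw [mul_zero] at hr
    exact hN0 hr
  refine ⟨r' / r, ?_⟩
  rw [hq, map_mul, hr] at hr'
  field_simp
  linear_combination hr'

end

end Pool.Agent.R925.ZC
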