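import Pool.Agent.R925.ZC.Res

/-! Zero-cycles of even degree: families of polynomials with only the trivial persistent class. -/

set_option autoImplicit false
set_option linter.unusedSectionVars false

namespace Pool.Agent.R925.ZC

open Finset Polynomial Pool.Agent.R925.FD

variable {K : Type}

/-- two zeros, rational or conjugate -/
theorem zpers_even' (g : K → ℤ[X]) (h : ℤ[X]) (x₁ x₂ : AlgebraicClosure ℚ)
    (hz : ∀ β : AlgebraicClosure ℚ, aeval β h = 0 → β = x₁ ∨ β = x₂) (N : K → ℚ)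
    (hN : ∀ k, aeval x₁ (g k) * aeval x₂ (g k) = (N k : AlgebraicClosure ℚ))
    (hN0 : ∀ k, N k ≠ 0) (δ : K → ℚ) (hδ : ∀ k, δ k ≠ 0)
    {d : ℤ} (hd : Even d) (hper : ZPersistent d g h δ) :
    (∀ k, IsSquare (δ k * 1)) ∨ ∀ k, IsSquare (δ k * N k) := by
  classical
  apply union_two (fun _ => 1) N δ (fun _ => one_ne_zero) hN0 hδ
  intro σ
  obtain ⟨S, hS1, hS2, hS3⟩ := hper σ
  have hS1' : Even S.card := hS1.2 hd
  rcases subsets_two S _ _ fun β hβ => hz β (hS2 β hβ).1 with rfl | rfl | rfl | ⟨hne, rfl⟩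
  · left
    intro k
    obtain ⟨y, hy1, hy2⟩ := hS3 k
    rw [Finset.prod_empty] at hy2
    exact ⟨y, hy1, by rw [← hy2, Rat.cast_one]⟩
  · rw [Finset.card_singleton] at hS1'
    exact absurd hS1' (by decide)
  · rw [Finset.card_singleton] at hS1'
    exact absurd hS1' (by decide)
  · right
    intro k
    obtain ⟨y, hy1, hy2⟩ := hS3 k
    rw [Finset.prod_pair hne, hN] at hy2
    exact ⟨y, hy1, hy2⟩

/-- If the product of the norms is not a square, the classes of even degree are trivial. -/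
theorem trivial_two [Fintype K] {b : ℤ} (hb : b ≠ 0) (g : K → ℤ[X]) (h : ℤ[X])
    (x₁ x₂ : AlgebraicClosure ℚ)
    (hz : ∀ β : AlgebraicClosure ℚ, aeval β h = 0 → β = x₁ ∨ β = x₂) (N : K → ℚ)
    (hN : ∀ k, aeval x₁ (g k) * aeval x₂ (g k) = (N k : AlgebraicClosure ℚ))
    (hN0 : ∀ k, N k ≠ 0) (hsq : ¬ IsSquare (∏ k, N k)) {d : ℤ} (hd : Even d) (δ : K → ℚ)
    (hδ : IsClassZ d b δ) (hper : ZPersistent d g h δ) : ∀ k, IsSquare (δ k) := by
  rcases zpers_even' g h x₁ x₂ hz N hN hN0 δ hδ.1 hd hper with h1 | h1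
  · intro k
    have h2 := h1 k
    rwa [mul_one] at h2
  · exfalso
    apply hsq
    choose r hr using h1
    obtain ⟨hδ0, t, ht⟩ := hδ
    obtain ⟨j, hj⟩ := hd
    have hb' : (b : ℚ) ≠ 0 := Int.cast_ne_zero.2 hb
    have hδp : ∏ k, δ k ≠ 0 := Finset.prod_ne_zero_iff.2 fun k _ => hδ0 k
    have ht0 : t ≠ 0 := by
      rintro rfl
      rw [zero_pow two_ne_zero, mul_zero] at ht
      exact hδp ht
    have hbj : (b : ℚ) ^ j ≠ 0 := zpow_ne_zero _ hb'
    have h2 : (∏ k, δ k) * ∏ k, N k = (∏ k, r k) * ∏ k, r k := by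
      rw [← prod_mul_distrib, ← prod_mul_distrib]
      exact prod_congr rfl fun k _ => hr k
    rw [ht, hj, zpow_add₀ hb'] at h2
    refine ⟨(∏ k, r k) / ((b : ℚ) ^ j * t), ?_⟩
    field_simp
    linear_combination h2

open Classical in
/-- a product over a set with prescribed squares of the elements -/
lemma prod_three {A₁ A₂ A₃ : ℚ} (h12 : A₁ ≠ A₂) (h13 : A₁ ≠ A₃) (h23 : A₂ ≠ A₃)
    (S : Finset (AlgebraicClosure ℚ))
    (hS' : ∀ β ∈ S, (β ^ 2 = (A₁ : AlgebraicClosure ℚ) ∨ β ^ 2 = (A₂ : AlgebraicClosure ℚ) ∨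
      β ^ 2 = (A₃ : AlgebraicClosure ℚ))) (hS : Even S.card)
    (h2 : Even (S.filter (fun β => β ^ 2 = (A₂ : AlgebraicClosure ℚ))).card)
    (h3 : Even (S.filter (fun β => β ^ 2 = (A₃ : AlgebraicClosure ℚ))).card)
    (F : AlgebraicClosure ℚ → AlgebraicClosure ℚ) (v₁ v₂ v₃ : ℚ)
    (hF₁ : ∀ β, β ^ 2 = (A₁ : AlgebraicClosure ℚ) → F β = v₁)
    (hF₂ : ∀ β, β ^ 2 = (A₂ : AlgebraicClosure ℚ) → F β = v₂)
    (hF₃ : ∀ β, β ^ 2 = (A₃ : AlgebraicClosure ℚ) → F β = v₃) :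
    ∃ j₁ j₂ j₃ : ℕ, ∏ β ∈ S, F β = (((v₁ ^ j₁ * v₂ ^ j₂ * v₃ ^ j₃) ^ 2 : ℚ) : AlgebraicClosure ℚ) := by
  classical
  set T : ℚ → Finset (AlgebraicClosure ℚ) := fun A => S.filter (fun β => β ^ 2 = (A : AlgebraicClosure ℚ))
    with hT
  have hdisj : ∀ {A B : ℚ}, A ≠ B → Disjoint (T A) (T B) := by
    intro A B hAB
    rw [Finset.disjoint_left]
    intro β h4 h5
    rw [hT, mem_filter] at h4 h5
    rw [h4.2] at h5
    exact hAB (by exact_mod_cast h5.2)
  have hSu : S = T A₁ ∪ (T A₂ ∪ T A₃) := by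
    ext β
    rw [mem_union, mem_union, hT, mem_filter, mem_filter, mem_filter]
    refine ⟨fun h4 => ?_, ?_⟩
    · rcases hS' β h4 with h5 | h5 | h5
      · exact Or.inl ⟨h4, h5⟩
      · exact Or.inr (Or.inl ⟨h4, h5⟩)
      · exact Or.inr (Or.inr ⟨h4, h5⟩)
    · rintro (h4 | h4 | h4)
      · exact h4.1
      · exact h4.1
      · exact h4.1
  have hd1 : Disjoint (T A₁) (T A₂ ∪ T A₃) := by
    rw [disjoint_union_right]
    exact ⟨hdisj h12, hdisj h13⟩
  have hcard : S.card = (T A₁).card + ((T A₂).card + (T A₃).card) := by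
    conv_lhs => rw [hSu]
    rw [card_union_of_disjoint hd1, card_union_of_disjoint (hdisj h23)]
  have h2' : Even (T A₂).card := h2
  have h3' : Even (T A₃).card := h3
  have h1' : Even (T A₁).card := by
    rw [hcard, Nat.even_add] at hS
    exact hS.2 (h2'.add h3')
  have hprodT : ∀ (A v : ℚ), (∀ β, β ^ 2 = (A : AlgebraicClosure ℚ) → F β = v) →
      ∏ β ∈ T A, F β = ((v ^ (T A).card : ℚ) : AlgebraicClosure ℚ) := by
    intro A v hv
    rw [Finset.prod_congr rfl (g := fun _ => ((v : ℚ) : AlgebraicClosure ℚ)), Finset.prod_const,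
      Rat.cast_pow]
    intro β hβ
    rw [hT, mem_filter] at hβ
    exact hv β hβ.2
  obtain ⟨j1, hj1⟩ := h1'
  obtain ⟨j2, hj2⟩ := h2'
  obtain ⟨j3, hj3⟩ := h3'
  refine ⟨j1, j2, j3, ?_⟩
  conv_lhs => rw [hSu]
  rw [prod_union hd1, prod_union (hdisj h23), hprodT _ _ hF₁, hprodT _ _ hF₂, hprodT _ _ hF₃,
    ← Rat.cast_mul, ← Rat.cast_mul]
  congr 1
  rw [hj1, hj2, hj3]
  ring

/-- If the zeros of `h` are square roots of `A`, `B`, `A * B` and the values of the `g k` there depend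
only on the squares of the zeros, the classes of even degree are trivial. -/
theorem trivial_three (g : K → ℤ[X]) (h : ℤ[X]) (A B : ℚ) (hA : ¬ IsSquare A)
    (hB : ¬ IsSquare B) (hAB : ¬ IsSquare (A * B))
    (hz : ∀ β : AlgebraicClosure ℚ, aeval β h = 0 → β ^ 2 = (A : AlgebraicClosure ℚ) ∨
      β ^ 2 = (B : AlgebraicClosure ℚ) ∨ β ^ 2 = ((A * B : ℚ) : AlgebraicClosure ℚ))
    (v₁ v₂ v₃ : K → ℚ) (hv₁ : ∀ k, v₁ k ≠ 0) (hv₂ : ∀ k, v₂ k ≠ 0) (hv₃ : ∀ k, v₃ k ≠ 0)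
    (h1 : ∀ k β, β ^ 2 = (A : AlgebraicClosure ℚ) → aeval β (g k) = (v₁ k : AlgebraicClosure ℚ))
    (h2 : ∀ k β, β ^ 2 = (B : AlgebraicClosure ℚ) → aeval β (g k) = (v₂ k : AlgebraicClosure ℚ))
    (h3 : ∀ k β, β ^ 2 = ((A * B : ℚ) : AlgebraicClosure ℚ) →
      aeval β (g k) = (v₃ k : AlgebraicClosure ℚ))
    {d : ℤ} (hd : Even d) (δ : K → ℚ) (hδ : ∀ k, δ k ≠ 0) (hper : ZPersistent d g h δ) (k : K) :
    IsSquare (δ k) := by
  classical
  have hsqrt : ∀ q : ℚ, ∃ x : AlgebraicClosure ℚ, x ^ 2 = (q : AlgebraicClosure ℚ) := fun q => by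
    obtain ⟨x, hx⟩ := IsAlgClosed.exists_pow_nat_eq (q : AlgebraicClosure ℚ) (n := 2) (by norm_num)
    exact ⟨x, hx⟩
  obtain ⟨x, hx⟩ := hsqrt A
  obtain ⟨y, hy⟩ := hsqrt B
  obtain ⟨w, hw⟩ := hsqrt (δ k)
  have hxy : (x * y) ^ 2 = ((A * B : ℚ) : AlgebraicClosure ℚ) := by
    rw [mul_pow, hx, hy, Rat.cast_mul]
  have hA0 : A ≠ 0 := by
    rintro rfl
    exact hA ⟨0, by norm_num⟩
  have hB0 : B ≠ 0 := by
    rintro rfl
    exact hB ⟨0, by norm_num⟩
  have hne1 : A ≠ B := by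
    rintro rfl
    exact hAB ⟨A, rfl⟩
  have hne2 : A ≠ A * B := by
    intro h4
    have h5 : B = 1 := by
      have h6 : A * B = A * 1 := by rw [← h4, mul_one]
      exact mul_left_cancel₀ hA0 h6
    exact hB ⟨1, by rw [h5]; norm_num⟩
  have hne3 : B ≠ A * B := by
    intro h4
    have h5 : A = 1 := by
      have h6 : A * B = 1 * B := by rw [← h4, one_mul]
      exact mul_right_cancel₀ hB0 h6
    exact hA ⟨1, by rw [h5]; norm_num⟩
  have hw0 : w ≠ 0 := by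
    rintro rfl
    rw [zero_pow two_ne_zero] at hw
    exact hδ k (by exact_mod_cast hw.symm)
  have hδW : (δ k : AlgebraicClosure ℚ) ≠ 0 := Rat.cast_ne_zero.2 (hδ k)
  -- the automorphisms which move a zero fix `w`
  have key : ∀ σ : AlgebraicClosure ℚ ≃ₐ[ℚ] AlgebraicClosure ℚ, ¬ (σ x = x ∧ σ y = y) →
      σ w = w := by
    intro σ hσ
    obtain ⟨S, hS1, hS2, hS3⟩ := hper σ
    have hS1' : Even S.card := hS1.2 hd
    obtain ⟨u, hu1, hu2⟩ := hS3 k
    have hS' : ∀ β ∈ S, (β ^ 2 = (A : AlgebraicClosure ℚ) ∨ β ^ 2 = (B : AlgebraicClosure ℚ) ∨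
        β ^ 2 = ((A * B : ℚ) : AlgebraicClosure ℚ)) := fun β hβ => hz β (hS2 β hβ).1
    have heven : ∀ {A : ℚ} {x : AlgebraicClosure ℚ}, A ≠ 0 → x ^ 2 = (A : AlgebraicClosure ℚ) →
        σ x = -x → Even (S.filter (fun β => β ^ 2 = (A : AlgebraicClosure ℚ))).card := by
      intro A x hA hx hσx
      apply even_of_neg
      · intro β hβ
        rw [mem_filter] at hβ ⊢
        have h5 : σ β = -β := neg_of_sq σ (by rw [hβ.2, hx]) hσx
        refine ⟨by rw [← h5]; exact (hS2 β hβ.1).2, by rw [neg_sq]; exact hβ.2⟩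
      · rintro β hβ rfl
        rw [mem_filter, zero_pow two_ne_zero] at hβ
        exact hA (by exact_mod_cast hβ.2.symm)
    have hprod : ∃ r : ℚ, r ≠ 0 ∧ ∏ β ∈ S, aeval β (g k) = ((r ^ 2 : ℚ) : AlgebraicClosure ℚ) := by
      rcases pm hx σ with hσx | hσx
      · have hσy : σ y = -y := (pm hy σ).resolve_left fun h5 => hσ ⟨hσx, h5⟩
        have hσxy : σ (x * y) = -(x * y) := by rw [map_mul, hσx, hσy, mul_neg]
        obtain ⟨j₁, j₂, j₃, hj⟩ := prod_three hne1 hne2 hne3 S hS' hS1' (heven hB0 hy hσy)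
          (heven (mul_ne_zero hA0 hB0) hxy hσxy) (fun β => aeval β (g k)) (v₁ k) (v₂ k) (v₃ k)
          (h1 k) (h2 k) (h3 k)
        exact ⟨_, mul_ne_zero (mul_ne_zero (pow_ne_zero _ (hv₁ k)) (pow_ne_zero _ (hv₂ k)))
          (pow_ne_zero _ (hv₃ k)), hj⟩
      · rcases pm hy σ with hσy | hσy
        · have hσxy : σ (x * y) = -(x * y) := by rw [map_mul, hσx, hσy, neg_mul]
          obtain ⟨j₁, j₂, j₃, hj⟩ := prod_three hne1.symm hne3 hne2 S
            (fun β hβ => by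
              rcases hS' β hβ with h5 | h5 | h5
              · exact Or.inr (Or.inl h5)
              · exact Or.inl h5
              · exact Or.inr (Or.inr h5)) hS1' (heven hA0 hx hσx)
            (heven (mul_ne_zero hA0 hB0) hxy hσxy) (fun β => aeval β (g k)) (v₂ k) (v₁ k) (v₃ k)
            (h2 k) (h1 k) (h3 k)
          exact ⟨_, mul_ne_zero (mul_ne_zero (pow_ne_zero _ (hv₂ k)) (pow_ne_zero _ (hv₁ k)))
            (pow_ne_zero _ (hv₃ k)), hj⟩
        · obtain ⟨j₁, j₂, j₃, hj⟩ := prod_three hne2.symm hne3.symm hne1 S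
            (fun β hβ => by
              rcases hS' β hβ with h5 | h5 | h5
              · exact Or.inr (Or.inl h5)
              · exact Or.inr (Or.inr h5)
              · exact Or.inl h5) hS1' (heven hA0 hx hσx) (heven hB0 hy hσy)
            (fun β => aeval β (g k)) (v₃ k) (v₁ k) (v₂ k) (h3 k) (h1 k) (h2 k)
          exact ⟨_, mul_ne_zero (mul_ne_zero (pow_ne_zero _ (hv₃ k)) (pow_ne_zero _ (hv₁ k)))
            (pow_ne_zero _ (hv₂ k)), hj⟩
    obtain ⟨r, hr0, hr⟩ := hprod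
    rw [hr] at hu2
    have hu0 : u ≠ 0 := by
      rintro rfl
      rw [zero_pow two_ne_zero, mul_zero] at hu2
      exact pow_ne_zero 2 hr0 (by exact_mod_cast hu2)
    have h4 : w ^ 2 = ((r : AlgebraicClosure ℚ) / u) ^ 2 := by
      rw [hw, div_pow]
      push_cast at hu2
      field_simp
      exact hu2.symm
    have h5 : σ ((r : AlgebraicClosure ℚ) / u) = (r : AlgebraicClosure ℚ) / u := by
      rw [map_div₀, map_ratCast, hu1]
    rcases sq_eq_sq_iff_eq_or_eq_neg.1 h4 with h6 | h6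
    · rw [h6, h5]
    · rw [h6, map_neg, h5]
  by_contra hsq
  obtain ⟨σ₁, hσ₁⟩ := exists_neg w _ hw hsq
  have h6 : σ₁ x = x ∧ σ₁ y = y := by
    by_contra h7
    have h8 := key σ₁ h7
    rw [hσ₁] at h8
    exact hw0 (self_eq_neg.1 h8.symm)
  obtain ⟨τ, hτ⟩ := exists_neg x _ hx hA
  have hx0 : x ≠ 0 := by
    rintro rfl
    rw [zero_pow two_ne_zero] at hx
    exact hA0 (by exact_mod_cast hx.symm)
  have hτw : τ w = w := key τ fun h7 => by
    rw [hτ] at h7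
    exact hx0 (self_eq_neg.1 h7.1.symm)
  have h9 := key (τ.trans σ₁) fun h7 => by
    rw [AlgEquiv.trans_apply, hτ, map_neg, h6.1] at h7
    exact hx0 (self_eq_neg.1 h7.1.symm)
  rw [AlgEquiv.trans_apply, hτw, hσ₁] at h9
  exact hw0 (self_eq_neg.1 h9.symm)

end Pool.Agent.R925.ZC
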